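import Pool.Agent.H24.Opn.BakCore

/-!
A lower bound for `u` in `p ^ n = u q ^ a + 1`.
-/

namespace Pool.Agent.H24.Opn.Bak

open Finset Polynomial

lemma bak_aux (Y : ℕ) (hY : 10 ^ 6 ≤ Y) (hlog : Real.log Y ≤ Y / 10000) (p q n a u : ℕ)
    (hp : p.Prime) (hq : q.Prime) (hpq : p ≠ q) (hu : 1 ≤ u) (h : p ^ n = u * q ^ a + 1)
    (hn : 1 ≤ n) (hpY : Real.log p ≤ Y) (hqY : Real.log q ≤ Y) (hnY : Real.log n ≤ Y) (U : ℕ)
    (hU : Real.log u + 1 ≤ U) (hnU : Y ^ 22 * U ≤ n) : False := by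
  have hYr : (10 : ℝ) ^ 6 ≤ Y := by exact_mod_cast hY
  have hY0 : (0 : ℝ) < Y := by linarith [show (0 : ℝ) < 10 ^ 6 by norm_num]
  have hY1 : (1 : ℝ) ≤ Y := by linarith [show (1 : ℝ) ≤ 10 ^ 6 by norm_num]
  have hlu : 0 ≤ Real.log u := Real.log_nonneg (by exact_mod_cast hu)
  have hlp0 : Real.log 2 ≤ Real.log p := Real.log_le_log (by norm_num) (by exact_mod_cast hp.two_le)
  have hlq0 : Real.log 2 ≤ Real.log q := Real.log_le_log (by norm_num) (by exact_mod_cast hq.two_le)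
  have hl2 : (1 : ℝ) / 2 < Real.log 2 := by have := Real.log_two_gt_d9; linarith
  have hU1 : 1 ≤ U := by
    have : (1 : ℝ) ≤ U := by linarith
    exact_mod_cast this
  have hUr : (1 : ℝ) ≤ U := by exact_mod_cast hU1
  -- the power of two
  obtain ⟨s, hs1, hs2⟩ := exists_nat_pow_near (R := ℕ) (x := Y ^ 8) (y := 2)
    (Nat.one_le_pow _ _ (by omega)) (by norm_num)
  set t := s + 1 with ht
  set K : ℕ := 2 ^ t with hK
  have hK1 : Y ^ 8 ≤ K := hs2.le
  have hK2 : K ≤ 2 * Y ^ 8 := by rw [hK, ht, pow_succ]; omega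
  have hK1r : (Y : ℝ) ^ 8 ≤ K := by exact_mod_cast hK1
  have hK2r : (K : ℝ) ≤ 2 * Y ^ 8 := by exact_mod_cast hK2
  have hKr : ((2 : ℝ) ^ t) = K := by rw [hK]; push_cast; rfl
  have hKpos : 0 < K := by positivity
  have hKge1 : (1 : ℝ) ≤ K := by exact_mod_cast hKpos
  have hKr0 : (0 : ℝ) < K := by linarith
  -- t is small
  have hD : 1 + 270 * t * Y ≤ Y ^ 2 := by
    have h1 : (t : ℝ) * Real.log 2 ≤ Real.log 2 + 8 * Real.log Y := by
      have h2 : Real.log ((2 : ℝ) ^ t) ≤ Real.log (2 * Y ^ 8) :=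
        Real.log_le_log (by positivity) (by rw [hKr]; exact hK2r)
      rw [Real.log_pow, Real.log_mul (by norm_num) (by positivity), Real.log_pow] at h2
      push_cast at h2
      exact h2
    have h3 : (t : ℝ) ≤ 1 + 16 * (Y / 10000) := by
      have h4 : 0 ≤ Real.log Y := Real.log_nonneg hY1
      have h5 : (t - 1 : ℝ) * Real.log 2 ≤ 8 * Real.log Y := by linarith
      by_cases h6 : (t : ℝ) ≤ 1
      · have : (0 : ℝ) ≤ 16 * (Y / 10000) := by positivity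
        linarith
      · push Not at h6
        nlinarith
    have h7 : (1 : ℝ) + 270 * t * Y ≤ Y ^ 2 := by
      have h8 : 270 * (t : ℝ) * Y ≤ 270 * (1 + 16 * (Y / 10000)) * Y := by gcongr
      nlinarith
    exact_mod_cast h7
  have hnr : (Y : ℝ) ^ 22 * U ≤ n := by exact_mod_cast hnU
  have hUn : (U : ℝ) ≤ n := by
    have : (1 : ℝ) ≤ (Y : ℝ) ^ 22 := one_le_pow₀ hY1
    nlinarith
  have hn1 : (1 : ℝ) ≤ n := by exact_mod_cast hn
  -- τ
  have hpa : (0 : ℝ) < (u : ℝ) * q ^ a := by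
    have : (0 : ℝ) < (q : ℝ) := by exact_mod_cast hq.pos
    have : (0 : ℝ) < (u : ℝ) := by exact_mod_cast hu
    positivity
  set τ : ℝ := Real.log (1 + 1 / ((u : ℝ) * q ^ a)) with hτdef
  have hτ0 : 0 ≤ τ := Real.log_nonneg (by have : 0 ≤ 1 / ((u : ℝ) * q ^ a) := by positivity
                                          linarith)
  have hpn : (p : ℝ) ^ n = (u : ℝ) * q ^ a + 1 := by exact_mod_cast h
  have hτ : (n : ℝ) * Real.log p - a * Real.log q = Real.log u + τ := by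
    have e1 : (p : ℝ) ^ n = (u : ℝ) * q ^ a * (1 + 1 / ((u : ℝ) * q ^ a)) := by
      rw [hpn, mul_add, mul_one, mul_one_div, div_self hpa.ne']
    have e2 := congrArg Real.log e1
    have hu0 : (u : ℝ) ≠ 0 := by
      have : (0 : ℝ) < (u : ℝ) := by exact_mod_cast hu
      exact this.ne'
    have hq0 : (q : ℝ) ≠ 0 := by
      have : (0 : ℝ) < (q : ℝ) := by exact_mod_cast hq.pos
      exact this.ne'
    rw [Real.log_pow, Real.log_mul hpa.ne' (by positivity), Real.log_mul hu0 (pow_ne_zero _ hq0),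
      Real.log_pow] at e2
    linarith
  have hua : (2 : ℝ) ^ n ≤ 2 * ((u : ℝ) * q ^ a) := by
    have h1 : (2 : ℝ) ^ n ≤ (p : ℝ) ^ n := pow_le_pow_left₀ (by norm_num) (by exact_mod_cast hp.two_le) n
    have h2 : (1 : ℝ) ≤ (u : ℝ) * q ^ a := by
      have : 1 ≤ u * q ^ a := Nat.mul_pos hu (pow_pos hq.pos _)
      exact_mod_cast this
    linarith
  have hτ2 : τ ≤ 2 * (1 / 2 : ℝ) ^ n := by
    have h1 : τ ≤ 1 / ((u : ℝ) * q ^ a) := by
      have := Real.log_le_sub_one_of_pos (show 0 < 1 + 1 / ((u : ℝ) * q ^ a) by positivity)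
      linarith
    refine h1.trans ?_
    have h2 : 2 * (1 / 2 : ℝ) ^ n = 2 / 2 ^ n := by rw [one_div_pow]; ring
    rw [h2, div_le_div_iff₀ hpa (by positivity)]
    linarith
  have hτ1 : τ ≤ 1 := by
    refine hτ2.trans ?_
    have : (1 / 2 : ℝ) ^ n ≤ (1 / 2) ^ 1 := pow_le_pow_of_le_one (by norm_num) (by norm_num) hn
    linarith
  have hUτ : Real.log u + τ ≤ U := by linarith
  -- bound for a
  have ha : (a : ℝ) ≤ 2 * n * Y := by
    have h1 : (a : ℝ) * Real.log q ≤ n * Real.log p := by linarith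
    have h2 : (a : ℝ) * (1 / 2) ≤ a * Real.log q := mul_le_mul_of_nonneg_left (by linarith) (Nat.cast_nonneg _)
    have h3 : (n : ℝ) * Real.log p ≤ n * Y := mul_le_mul_of_nonneg_left hpY (Nat.cast_nonneg _)
    linarith
  -- parameters
  set Z : ℝ := 4 * K ^ 2 * n * Y with hZ
  have hZpos : 1 ≤ Z := by
    rw [hZ]
    have h1 : (1 : ℝ) ≤ (K : ℝ) ^ 2 := one_le_pow₀ hKge1
    have h2 : (1 : ℝ) ≤ (K : ℝ) ^ 2 * n := one_le_mul_of_one_le_of_one_le h1 hn1
    have h3 : (1 : ℝ) ≤ (K : ℝ) ^ 2 * n * Y := one_le_mul_of_one_le_of_one_le h2 hY1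
    linarith
  have hlogZ : Real.log Z ≤ 2 * Y := by
    rw [hZ]
    have hn0 : (n : ℝ) ≠ 0 := by positivity
    rw [show 4 * (K : ℝ) ^ 2 * n * Y = (4 * (K : ℝ) ^ 2 * Y) * n by ring,
      Real.log_mul (by positivity) hn0]
    have h1 : Real.log (4 * (K : ℝ) ^ 2 * Y) ≤ Y := by
      have h2 : 4 * (K : ℝ) ^ 2 * Y ≤ 16 * (Y : ℝ) ^ 17 := by
        calc 4 * (K : ℝ) ^ 2 * Y ≤ 4 * (2 * (Y : ℝ) ^ 8) ^ 2 * Y := by gcongr
          _ = _ := by ring
      have h3 := Real.log_le_log (by positivity) h2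
      have e5 : Real.log (16 * (Y : ℝ) ^ 17) = Real.log 16 + 17 * Real.log Y := by
        rw [Real.log_mul (by norm_num) (by positivity), Real.log_pow]
        norm_num
      rw [e5] at h3
      have h4 : Real.log 16 ≤ 4 := by
        rw [show (16 : ℝ) = 2 ^ 4 by norm_num, Real.log_pow]
        have := Real.log_two_lt_d9
        push_cast
        linarith
      have : (Y : ℝ) ≥ 10 ^ 6 := hYr
      linarith
    linarith
  set G : ℝ := (K : ℝ) ^ 2 * U * Y ^ 4 with hG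
  have hG1 : 1 ≤ G := by
    rw [hG]
    exact one_le_mul_of_one_le_of_one_le (one_le_mul_of_one_le_of_one_le (one_le_pow₀ hKge1) hUr)
      (one_le_pow₀ hY1)
  set Ξ : ℝ := 3 * K ^ 2 * U * Y with hΞ
  have hΞ0 : 0 ≤ Ξ := by positivity
  have hRΞ : ((Y ^ 3 : ℕ) : ℝ) * Ξ = 3 * G := by rw [hΞ, hG]; push_cast; ring
  have hΞG : Ξ ≤ 3 * G := by
    rw [← hRΞ]
    have : (1 : ℝ) ≤ ((Y ^ 3 : ℕ) : ℝ) := by
      push_cast
      exact one_le_pow₀ hY1
    nlinarith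
  have hRS : ((Y ^ 3 * (270 * K ^ 2 * U * Y) : ℕ) : ℝ) = 270 * G := by rw [hG]; push_cast; ring
  -- the number X
  set Sb : ℕ := K * U * K + t * (270 * K ^ 2 * U * Y) with hSb
  have hSbr : (Sb : ℝ) ≤ K ^ 2 * U * Y ^ 2 := by
    have h1 : Sb = K ^ 2 * U * (1 + 270 * t * Y) := by rw [hSb]; ring
    rw [h1]
    have h2 : K ^ 2 * U * (1 + 270 * t * Y) ≤ K ^ 2 * U * Y ^ 2 := Nat.mul_le_mul_left _ hD
    exact_mod_cast h2
  set X : ℝ := ((((K * (K * U)) * ((K * (K * U)) * K) : ℕ)) : ℝ) ^ 2 * Z ^ (4 * Sb) *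
      Real.exp (2 * ((Y ^ 3 : ℕ) : ℝ) * Ξ) with hXdef
  have hX8 : X ≤ Real.exp (8 * G) := by
    have h1 : ((((K * (K * U)) * ((K * (K * U)) * K) : ℕ)) : ℝ) ^ 2 ≤ Real.exp G := by
      have h2 : ((((K * (K * U)) * ((K * (K * U)) * K) : ℕ)) : ℝ) ≤ ((K : ℝ) ^ 2 * U) ^ 3 := by
        push_cast
        have h3 : (K : ℝ) * (K * U) * (K * (K * U) * K) = (K : ℝ) ^ 5 * U ^ 2 := by ring
        have h4 : ((K : ℝ) ^ 2 * U) ^ 3 = (K : ℝ) ^ 5 * U ^ 2 * (K * U) := by ring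
        rw [h3, h4]
        refine le_mul_of_one_le_right (by positivity) ?_
        exact one_le_mul_of_one_le_of_one_le hKge1 hUr
      have h5 : (K : ℝ) ^ 2 * U ≤ Real.exp ((K : ℝ) ^ 2 * U) := by
        have := Real.add_one_le_exp ((K : ℝ) ^ 2 * U)
        linarith
      calc ((((K * (K * U)) * ((K * (K * U)) * K) : ℕ)) : ℝ) ^ 2
          ≤ (((K : ℝ) ^ 2 * U) ^ 3) ^ 2 := pow_le_pow_left₀ (Nat.cast_nonneg _) h2 2
        _ = ((K : ℝ) ^ 2 * U) ^ 6 := by ring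
        _ ≤ (Real.exp ((K : ℝ) ^ 2 * U)) ^ 6 := pow_le_pow_left₀ (by positivity) h5 6
        _ = Real.exp ((6 : ℕ) * ((K : ℝ) ^ 2 * U)) := by rw [Real.exp_nat_mul]
        _ ≤ Real.exp G := by
            refine Real.exp_le_exp.2 ?_
            rw [hG]
            push_cast
            have h6 : (6 : ℝ) ≤ (Y : ℝ) ^ 4 := by
              calc (6 : ℝ) ≤ Y := by linarith [show (6 : ℝ) ≤ 10 ^ 6 by norm_num]
                _ = (Y : ℝ) ^ 1 := (pow_one _).symm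
                _ ≤ (Y : ℝ) ^ 4 := pow_le_pow_right₀ hY1 (by norm_num)
            rw [mul_comm]
            exact mul_le_mul_of_nonneg_left h6 (by positivity)
    have h7 : Z ^ (4 * Sb) ≤ Real.exp G := by
      have h8 : Z ^ (4 * Sb) = Real.exp ((4 * Sb : ℕ) * Real.log Z) := by
        rw [Real.exp_nat_mul, Real.exp_log (by linarith)]
      rw [h8]
      refine Real.exp_le_exp.2 ?_
      have h9 : 0 ≤ Real.log Z := Real.log_nonneg hZpos
      calc ((4 * Sb : ℕ) : ℝ) * Real.log Z ≤ (4 * (K ^ 2 * U * Y ^ 2)) * (2 * Y) := by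
            push_cast
            gcongr
        _ = (K : ℝ) ^ 2 * U * Y ^ 3 * 8 := by ring
        _ ≤ (K : ℝ) ^ 2 * U * Y ^ 3 * Y := by
            have : (8 : ℝ) ≤ Y := by linarith [show (8 : ℝ) ≤ 10 ^ 6 by norm_num]
            gcongr
        _ = G := by rw [hG]; ring
    have h10 : Real.exp (2 * ((Y ^ 3 : ℕ) : ℝ) * Ξ) = Real.exp (6 * G) := by
      rw [mul_assoc, hRΞ]; congr 1; ring
    rw [hXdef, h10]
    calc _ ≤ Real.exp G * Real.exp G * Real.exp (6 * G) := by gcongr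
      _ = Real.exp (8 * G) := by rw [← Real.exp_add, ← Real.exp_add]; congr 1; ring
  have hX0 : 0 ≤ X := by rw [hXdef]; positivity
  refine core p q n a u (K * U) K (K * U * K) (270 * K ^ 2 * U * Y) (Y ^ 3) hp hq hpq hu
    (Nat.one_le_pow _ _ (by omega)) τ Ξ (K ^ 2 * τ) hτ0 hτ t Z hZpos ?_ ?_ ?_ ?_ ?_ (by positivity)
    hKpos le_rfl ?_ X hXdef ?_
  · -- hZ1
    rw [hKr, hZ]
    push_cast
    have h1 : (K : ℝ) * (K * U + n * K) = K ^ 2 * (U + n) := by ring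
    rw [h1]
    calc (K : ℝ) ^ 2 * (U + n) ≤ K ^ 2 * (4 * n * Y) := by
          refine mul_le_mul_of_nonneg_left ?_ (by positivity)
          nlinarith
      _ = _ := by ring
  · -- hZ2
    rw [hKr, hZ]
    push_cast
    have h1 : (K : ℝ) * (K * U + a * K) = K ^ 2 * (U + a) := by ring
    rw [h1]
    calc (K : ℝ) ^ 2 * (U + a) ≤ K ^ 2 * (4 * n * Y) := by
          refine mul_le_mul_of_nonneg_left ?_ (by positivity)
          nlinarith
      _ = _ := by ring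
  · -- hδ
    rw [hKr]
    exact le_of_eq (by ring)
  · -- hΞ
    rw [hKr, hΞ]
    push_cast
    have h1 : (K : ℝ) * (K * U) * (Real.log p + Real.log q) ≤ K * (K * U) * (2 * Y) := by
      refine mul_le_mul_of_nonneg_left (by linarith) (by positivity)
    have h2 : (K : ℝ) * (K * (Real.log u + τ)) ≤ K * (K * U) := by gcongr
    have h3 : (K : ℝ) * (K * U) ≤ K * (K * U) * Y := le_mul_of_one_le_right (by positivity) hY1
    nlinarith
  · -- hmn
    have h1 : K * U ≤ Y ^ 22 * U := by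
      refine Nat.mul_le_mul_right _ (hK2.trans ?_)
      calc 2 * Y ^ 8 ≤ Y * Y ^ 8 := Nat.mul_le_mul_right _ (by omega)
        _ = Y ^ 9 := by ring
        _ ≤ Y ^ 22 := Nat.pow_le_pow_right (by omega) (by norm_num)
    exact h1.trans hnU
  · -- hcard
    rw [← hK, ← hSb]
    have h1 : Sb = K ^ 2 * U * (1 + 270 * t * Y) := by rw [hSb]; ring
    have h2 : Sb ≤ K ^ 2 * U * Y ^ 2 := by rw [h1]; exact Nat.mul_le_mul_left _ hD
    calc 2 * (Sb * (Sb * Y ^ 3)) ≤ 2 * ((K ^ 2 * U * Y ^ 2) * ((K ^ 2 * U * Y ^ 2) * Y ^ 3)) := by gcongr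
      _ = (K ^ 4 * U ^ 2) * (2 * Y ^ 7) := by ring
      _ ≤ (K ^ 4 * U ^ 2) * K := by
          refine Nat.mul_le_mul_left _ (le_trans ?_ hK1)
          calc 2 * Y ^ 7 ≤ Y * Y ^ 7 := Nat.mul_le_mul_right _ (by omega)
            _ = Y ^ 8 := by ring
      _ = _ := by ring
  · -- hnum
    have hT2 : (1 / 8 : ℝ) ^ (Y ^ 3 * (270 * K ^ 2 * U * Y)) ≤ Real.exp (-(540 * G)) := by
      have h1 : (1 / 8 : ℝ) ≤ Real.exp (-2) := by
        rw [Real.exp_neg, one_div]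
        refine inv_anti₀ (Real.exp_pos _) ?_
        have : Real.exp 2 = Real.exp 1 ^ 2 := by rw [← Real.exp_nat_mul]; norm_num
        rw [this]
        have h2 := Real.exp_one_lt_d9
        have h3 := Real.exp_pos 1
        nlinarith
      calc (1 / 8 : ℝ) ^ (Y ^ 3 * (270 * K ^ 2 * U * Y)) ≤
            (Real.exp (-2)) ^ (Y ^ 3 * (270 * K ^ 2 * U * Y)) := pow_le_pow_left₀ (by norm_num) h1 _
        _ = Real.exp (((Y ^ 3 * (270 * K ^ 2 * U * Y) : ℕ) : ℝ) * (-2)) := by rw [Real.exp_nat_mul]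
        _ = _ := by rw [hRS]; congr 1; ring
    have h8R : (8 * ((Y ^ 3 : ℕ) : ℝ)) ≤ Real.exp Y := by
      rw [← Real.log_le_iff_le_exp (by positivity)]
      push_cast
      rw [Real.log_mul (by norm_num) (by positivity), Real.log_pow]
      have h4 : Real.log 8 ≤ 3 := by
        rw [show (8 : ℝ) = 2 ^ 3 by norm_num, Real.log_pow]
        have := Real.log_two_lt_d9
        push_cast
        linarith
      push_cast
      linarith
    have hT1 : ((8 * ((Y ^ 3 : ℕ) : ℝ)) ^ (Y ^ 3 * (270 * K ^ 2 * U * Y)) + 1) ≤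
        2 * Real.exp (270 * G * Y) := by
      have h1 : (8 * ((Y ^ 3 : ℕ) : ℝ)) ^ (Y ^ 3 * (270 * K ^ 2 * U * Y)) ≤ Real.exp (270 * G * Y) := by
        calc _ ≤ (Real.exp Y) ^ (Y ^ 3 * (270 * K ^ 2 * U * Y)) :=
              pow_le_pow_left₀ (by positivity) h8R _
          _ = Real.exp (((Y ^ 3 * (270 * K ^ 2 * U * Y) : ℕ) : ℝ) * Y) := by rw [Real.exp_nat_mul]
          _ = _ := by rw [hRS]
      have h2 : (1 : ℝ) ≤ Real.exp (270 * G * Y) := Real.one_le_exp (by positivity)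
      linarith
    have hX4 : (X * Real.exp (((Y ^ 3 : ℕ) : ℝ) * Ξ)) ^ 3 ≤ Real.exp (33 * G) := by
      rw [hRΞ]
      calc (X * Real.exp (3 * G)) ^ 3 ≤ (Real.exp (8 * G) * Real.exp (3 * G)) ^ 3 := by gcongr
        _ = (Real.exp (11 * G)) ^ 3 := by rw [← Real.exp_add]; congr 2; ring
        _ = Real.exp (33 * G) := by rw [← Real.exp_nat_mul]; congr 1; push_cast; ring
    have hE34 : Real.exp (34 * ((Y ^ 3 : ℕ) : ℝ) * Ξ) = Real.exp (102 * G) := by
      rw [mul_assoc, hRΞ]; congr 1; ring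
    have hE2 : Real.exp ((2 * ((Y ^ 3 : ℕ) : ℝ) + 1) * Ξ) ≤ Real.exp (9 * G) := by
      refine Real.exp_le_exp.2 ?_
      have : (2 * ((Y ^ 3 : ℕ) : ℝ) + 1) * Ξ = 2 * (((Y ^ 3 : ℕ) : ℝ) * Ξ) + Ξ := by ring
      rw [this, hRΞ]
      linarith
    -- δ
    have hδ2 : 2 * ((Y ^ 3 : ℕ) : ℝ) * (K ^ 2 * τ) ≤ Real.exp (4 * G) * (1 / 2) ^ n := by
      have h1 : 2 * ((Y ^ 3 : ℕ) : ℝ) * (K ^ 2 * τ) ≤ 2 * ((Y ^ 3 : ℕ) : ℝ) * (K ^ 2 * (2 * (1 / 2 : ℝ) ^ n)) := by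
        gcongr
      refine h1.trans ?_
      have h2 : 2 * ((Y ^ 3 : ℕ) : ℝ) * (K ^ 2 * (2 * (1 / 2 : ℝ) ^ n)) =
          (4 * ((Y : ℝ) ^ 3 * K ^ 2)) * (1 / 2 : ℝ) ^ n := by push_cast; ring
      rw [h2]
      refine mul_le_mul_of_nonneg_right ?_ (by positivity)
      have h3 : (Y : ℝ) ^ 3 * K ^ 2 ≤ G := by
        rw [hG]
        have hY34 : (Y : ℝ) ^ 3 ≤ (Y : ℝ) ^ 4 := pow_le_pow_right₀ hY1 (by norm_num)
        calc (Y : ℝ) ^ 3 * (K : ℝ) ^ 2 = (K : ℝ) ^ 2 * 1 * (Y : ℝ) ^ 3 := by ring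
          _ ≤ (K : ℝ) ^ 2 * U * (Y : ℝ) ^ 4 :=
              mul_le_mul (mul_le_mul_of_nonneg_left hUr (by positivity)) hY34 (by positivity)
                (by positivity)
      have := Real.add_one_le_exp (4 * G)
      linarith
    have hhalf : (1 / 2 : ℝ) ^ n ≤ Real.exp (-(n / 2)) := by
      have h1 : (1 / 2 : ℝ) = Real.exp (-Real.log 2) := by
        rw [Real.exp_neg, Real.exp_log (by norm_num)]; norm_num
      rw [h1, ← Real.exp_nat_mul]
      refine Real.exp_le_exp.2 ?_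
      nlinarith
    have hGn : 400 * (G * Y) ≤ n / 2 - 2 := by
      have h1 : G ≤ 4 * (Y : ℝ) ^ 20 * U := by
        rw [hG]
        calc (K : ℝ) ^ 2 * U * Y ^ 4 ≤ (2 * (Y : ℝ) ^ 8) ^ 2 * U * Y ^ 4 := by gcongr
          _ = _ := by ring
      have h2 : 400 * (G * Y) ≤ 1600 * ((Y : ℝ) ^ 21 * U) := by
        calc 400 * (G * Y) ≤ 400 * ((4 * (Y : ℝ) ^ 20 * U) * Y) := by gcongr
          _ = _ := by ring
      have h3 : (1 : ℝ) ≤ (Y : ℝ) ^ 21 * U := one_le_mul_of_one_le_of_one_le (one_le_pow₀ hY1) hUr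
      have h4 : (Y : ℝ) ^ 22 * U = Y * ((Y : ℝ) ^ 21 * U) := by ring
      have h5 : (10 : ℝ) ^ 6 * ((Y : ℝ) ^ 21 * U) ≤ n := by
        refine le_trans ?_ hnr
        rw [h4]
        gcongr
      have h6 : (10 : ℝ) ^ 6 = 1000000 := by norm_num
      rw [h6] at h5
      linarith
    have hGY : G ≤ G * Y := le_mul_of_one_le_right (by linarith) hY1
    have t1 : ((8 * ((Y ^ 3 : ℕ) : ℝ)) ^ (Y ^ 3 * (270 * K ^ 2 * U * Y)) + 1) *
        (X * Real.exp ((2 * ((Y ^ 3 : ℕ) : ℝ) + 1) * Ξ) * (2 * ((Y ^ 3 : ℕ) : ℝ) * (K ^ 2 * τ))) ≤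
        Real.exp (-2) * Real.exp (-(34 * G)) := by
      have hprod : X * Real.exp ((2 * ((Y ^ 3 : ℕ) : ℝ) + 1) * Ξ) *
          (2 * ((Y ^ 3 : ℕ) : ℝ) * (K ^ 2 * τ)) ≤
          Real.exp (8 * G) * Real.exp (9 * G) * (Real.exp (4 * G) * Real.exp (-(n / 2))) :=
        mul_le_mul (mul_le_mul hX8 hE2 (Real.exp_pos _).le (Real.exp_pos _).le)
          (hδ2.trans (mul_le_mul_of_nonneg_left hhalf (Real.exp_pos _).le))
          (mul_nonneg (mul_nonneg (by norm_num) (Nat.cast_nonneg _)) (mul_nonneg (sq_nonneg _) hτ0))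
          (mul_nonneg (Real.exp_pos _).le (Real.exp_pos _).le)
      have hprod0 : 0 ≤ X * Real.exp ((2 * ((Y ^ 3 : ℕ) : ℝ) + 1) * Ξ) *
          (2 * ((Y ^ 3 : ℕ) : ℝ) * (K ^ 2 * τ)) :=
        mul_nonneg (mul_nonneg hX0 (Real.exp_pos _).le)
          (mul_nonneg (mul_nonneg (by norm_num) (Nat.cast_nonneg _)) (mul_nonneg (sq_nonneg _) hτ0))
      calc _ ≤ (2 * Real.exp (270 * G * Y)) * (Real.exp (8 * G) * Real.exp (9 * G) *
            (Real.exp (4 * G) * Real.exp (-(n / 2)))) :=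
            mul_le_mul hT1 hprod hprod0 (mul_nonneg (by norm_num) (Real.exp_pos _).le)
        _ ≤ (Real.exp 1 * Real.exp (270 * G * Y)) * (Real.exp (8 * G) * Real.exp (9 * G) *
            (Real.exp (4 * G) * Real.exp (-(n / 2)))) := by
            have : (2 : ℝ) ≤ Real.exp 1 := by have := Real.exp_one_gt_d9; linarith
            gcongr
        _ = Real.exp (1 + 270 * G * Y + 21 * G - n / 2) := by
            simp only [← Real.exp_add]
            congr 1; ring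
        _ ≤ Real.exp (-2 + -(34 * G)) := Real.exp_le_exp.2 (by nlinarith)
        _ = _ := Real.exp_add _ _
    have t2 : (1 / 8 : ℝ) ^ (Y ^ 3 * (270 * K ^ 2 * U * Y)) *
        (X * Real.exp (34 * ((Y ^ 3 : ℕ) : ℝ) * Ξ)) ≤ Real.exp (-2) * Real.exp (-(34 * G)) := by
      rw [hE34]
      calc _ ≤ Real.exp (-(540 * G)) * (Real.exp (8 * G) * Real.exp (102 * G)) := by gcongr
        _ = Real.exp (-(430 * G)) := by simp only [← Real.exp_add]; congr 1; ring
        _ ≤ Real.exp (-2 + -(34 * G)) := Real.exp_le_exp.2 (by linarith)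
        _ = _ := Real.exp_add _ _
    have h14 : Real.exp (-2) ≤ 1 / 4 := by
      rw [Real.exp_neg, inv_eq_one_div]
      refine one_div_le_one_div_of_le (by norm_num) ?_
      have : Real.exp 2 = Real.exp 1 ^ 2 := by rw [← Real.exp_nat_mul]; norm_num
      rw [this]
      have h2 := Real.exp_one_gt_d9
      nlinarith
    refine lt_of_le_of_lt (mul_le_mul (add_le_add t1 t2) hX4 (by positivity) (by positivity)) ?_
    have h15 : (Real.exp (-2) * Real.exp (-(34 * G)) + Real.exp (-2) * Real.exp (-(34 * G))) *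
        Real.exp (33 * G) = 2 * Real.exp (-2) * Real.exp (-G) := by
      have : Real.exp (-(34 * G)) * Real.exp (33 * G) = Real.exp (-G) := by
        rw [← Real.exp_add]; congr 1; ring
      rw [← this]; ring
    rw [h15]
    have h16 : Real.exp (-G) ≤ 1 := Real.exp_le_one_iff.2 (by linarith)
    have h17 := Real.exp_pos (-G)
    have h18 := Real.exp_pos (-2)
    nlinarith

/-- **Theorem B.** If `p ^ n = u q ^ a + 1` with primes `p ≠ q`, then `n < Y ^ 22 (log u + 2)` as soon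
as `Y` is large and `log p, log q, log n ≤ Y`. -/
theorem bakerB : ∃ Y0 : ℕ, ∀ Y : ℕ, Y0 ≤ Y → ∀ p q n a u : ℕ, p.Prime → q.Prime → p ≠ q → 1 ≤ u →
    p ^ n = u * q ^ a + 1 → 1 ≤ n → Real.log p ≤ Y → Real.log q ≤ Y → Real.log n ≤ Y →
    (n : ℝ) < (Y : ℝ) ^ 22 * (Real.log u + 2) := by
  have h1 : ∀ᶠ x : ℝ in Filter.atTop, Real.log x ≤ x / 10000 := by
    have := Real.isLittleO_log_id_atTop.bound (c := 1 / 10000) (by norm_num)
    filter_upwards [this, Filter.eventually_ge_atTop 1] with x hx hx1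
    rw [Real.norm_of_nonneg (Real.log_nonneg hx1), id, Real.norm_of_nonneg (by linarith)] at hx
    linarith
  have h2 : ∀ᶠ n : ℕ in Filter.atTop, Real.log (n : ℝ) ≤ n / 10000 :=
    tendsto_natCast_atTop_atTop.eventually h1
  obtain ⟨Y0, hY0⟩ := (h2.and (Filter.eventually_ge_atTop (10 ^ 6))).exists_forall_of_atTop
  refine ⟨Y0, fun Y hY p q n a u hp hq hpq hu h hn hpY hqY hnY => ?_⟩
  obtain ⟨hl, hY6⟩ := hY0 Y hY
  by_contra hcon
  push Not at hcon
  have hlu : 0 ≤ Real.log u := Real.log_nonneg (by exact_mod_cast hu)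
  refine bak_aux Y hY6 hl p q n a u hp hq hpq hu h hn hpY hqY hnY (⌈Real.log u⌉₊ + 1) ?_ ?_
  · push_cast
    have := Nat.le_ceil (Real.log u)
    linarith
  · have h3 : ((⌈Real.log u⌉₊ + 1 : ℕ) : ℝ) ≤ Real.log u + 2 := by
      push_cast
      have := Nat.ceil_lt_add_one hlu
      linarith
    have h4 : (Y : ℝ) ^ 22 * ((⌈Real.log u⌉₊ + 1 : ℕ) : ℝ) ≤ n :=
      (mul_le_mul_of_nonneg_left h3 (by positivity)).trans hcon
    exact_mod_cast h4

end Pool.Agent.H24.Opn.Bak
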