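import Mathlib

/-!
An entropy inequality for a matrix whose row sums and column sums are nearly equal and which has at
most one large entry in each column.
-/

namespace Pool.Agent.H24.Opn.Trans

open Finset

theorem transport (F : Finset ℕ) (M : ℕ → ℕ → ℝ) (Hv : ℕ → ℕ → Prop)
    [∀ p q, Decidable (Hv p q)] (E k : ℕ → ℝ) (B θ x0 : ℝ)
    (hM : ∀ p ∈ F, ∀ q ∈ F, Hv p q → 1 ≤ M p q)
    (huniq : ∀ q ∈ F, ∀ p ∈ F, ∀ p' ∈ F, Hv p q → Hv p' q → p = p')
    (hE1 : ∀ p ∈ F, 1 ≤ E p) (hEB : ∀ p ∈ F, E p ≤ B)
    (hrow : ∀ p ∈ F, ∑ q ∈ F.filter (fun q => Hv p q), M p q ≤ E p)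
    (hk : ∀ q ∈ F, 0 ≤ k q)
    (hcol : ∀ q ∈ F, E q ≤ ∑ p ∈ F.filter (fun p => Hv p q), M p q + k q)
    (hθ1 : θ < 1) (hx0 : Real.exp θ ≤ x0)
    (hbig : ∀ p ∈ F, x0 ≤ E p → ∀ q ∈ F, Hv p q → M p q ≤ (1 - θ) * E p) :
    θ * ∑ p ∈ F.filter (fun p => x0 ≤ E p), E p ≤ (1 + Real.log B) * ∑ q ∈ F, k q := by
  -- columns
  have hcol' : ∀ q ∈ F, E q * Real.log (E q) ≤
      ∑ p ∈ F.filter (fun p => Hv p q), M p q * Real.log (M p q) + (1 + Real.log B) * k q := by
    intro q hq
    have hE := hE1 q hq
    have hlE : 0 ≤ Real.log (E q) := Real.log_nonneg hE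
    have hlB : Real.log (E q) ≤ Real.log B := Real.log_le_log (by linarith) (hEB q hq)
    have hkq := hk q hq
    rcases Finset.eq_empty_or_nonempty (F.filter (fun p => Hv p q)) with he | ⟨p, hp⟩
    · have h1 := hcol q hq
      rw [he, Finset.sum_empty, zero_add] at h1
      rw [he, Finset.sum_empty, zero_add]
      calc E q * Real.log (E q) ≤ k q * Real.log B := mul_le_mul h1 hlB hlE hkq
        _ ≤ _ := by nlinarith
    · have hp' := Finset.mem_filter.1 hp
      have hsing : F.filter (fun p => Hv p q) = {p} := by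
        refine Finset.eq_singleton_iff_unique_mem.2 ⟨hp, fun p' hp2 => ?_⟩
        have hp2' := Finset.mem_filter.1 hp2
        exact huniq q hq p' hp2'.1 p hp'.1 hp2'.2 hp'.2
      have h1 := hcol q hq
      rw [hsing, Finset.sum_singleton] at h1 ⊢
      have hM1 := hM p hp'.1 q hq hp'.2
      set h := M p q with hh
      have h2 : Real.log (E q) ≤ Real.log h + k q / h := by
        calc Real.log (E q) ≤ Real.log (h + k q) := Real.log_le_log (by linarith) h1
          _ = Real.log h + Real.log (1 + k q / h) := by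
              rw [← Real.log_mul (by linarith) (by positivity)]
              congr 1
              field_simp
          _ ≤ _ := by
              have := Real.log_le_sub_one_of_pos (show 0 < 1 + k q / h by positivity)
              linarith
      have h3 : h * Real.log (E q) ≤ h * Real.log h + k q := by
        calc h * Real.log (E q) ≤ h * (Real.log h + k q / h) :=
              mul_le_mul_of_nonneg_left h2 (by linarith)
          _ = _ := by field_simp
      have h4 : k q * Real.log (E q) ≤ k q * Real.log B := mul_le_mul_of_nonneg_left hlB hkq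
      have h5 : E q * Real.log (E q) ≤ (h + k q) * Real.log (E q) := mul_le_mul_of_nonneg_right h1 hlE
      linarith
  -- rows
  have hrow' : ∀ p ∈ F, ∑ q ∈ F.filter (fun q => Hv p q), M p q * Real.log (M p q) ≤
      E p * Real.log (E p) - (if x0 ≤ E p then θ * E p else 0) := by
    intro p hp
    have hE := hE1 p hp
    have hlE : 0 ≤ Real.log (E p) := Real.log_nonneg hE
    have hM0 : ∀ q ∈ F.filter (fun q => Hv p q), 0 ≤ M p q := fun q hq => by
      have := Finset.mem_filter.1 hq
      linarith [hM p hp q this.1 this.2]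
    have hle : ∀ q ∈ F.filter (fun q => Hv p q), M p q ≤ E p := fun q hq =>
      (Finset.single_le_sum hM0 hq).trans (hrow p hp)
    by_cases hb : x0 ≤ E p
    · rw [if_pos hb]
      have hc : 0 ≤ Real.log (E p) - θ := by
        have h1 : Real.exp θ ≤ E p := hx0.trans hb
        have := (Real.le_log_iff_exp_le (by linarith)).2 h1
        linarith
      calc ∑ q ∈ F.filter (fun q => Hv p q), M p q * Real.log (M p q)
          ≤ ∑ q ∈ F.filter (fun q => Hv p q), M p q * (Real.log (E p) - θ) := by
            refine Finset.sum_le_sum fun q hq => ?_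
            have hq' := Finset.mem_filter.1 hq
            refine mul_le_mul_of_nonneg_left ?_ (hM0 q hq)
            have h2 := hbig p hp hb q hq'.1 hq'.2
            have h3 := hM p hp q hq'.1 hq'.2
            have h4 : Real.log (M p q) ≤ Real.log ((1 - θ) * E p) := Real.log_le_log (by linarith) h2
            rw [Real.log_mul (by linarith) (by linarith)] at h4
            have h5 := Real.log_le_sub_one_of_pos (show 0 < 1 - θ by linarith)
            linarith
        _ = (∑ q ∈ F.filter (fun q => Hv p q), M p q) * (Real.log (E p) - θ) := by rw [Finset.sum_mul]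
        _ ≤ E p * (Real.log (E p) - θ) := mul_le_mul_of_nonneg_right (hrow p hp) hc
        _ = _ := by ring
    · rw [if_neg hb, sub_zero]
      calc ∑ q ∈ F.filter (fun q => Hv p q), M p q * Real.log (M p q)
          ≤ ∑ q ∈ F.filter (fun q => Hv p q), M p q * Real.log (E p) := by
            refine Finset.sum_le_sum fun q hq => ?_
            have hq' := Finset.mem_filter.1 hq
            refine mul_le_mul_of_nonneg_left ?_ (hM0 q hq)
            have h3 := hM p hp q hq'.1 hq'.2
            exact Real.log_le_log (by linarith) (hle q hq)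
        _ = (∑ q ∈ F.filter (fun q => Hv p q), M p q) * Real.log (E p) := by rw [Finset.sum_mul]
        _ ≤ _ := mul_le_mul_of_nonneg_right (hrow p hp) hlE
  -- double counting
  have hswap : ∑ q ∈ F, ∑ p ∈ F.filter (fun p => Hv p q), M p q * Real.log (M p q) =
      ∑ p ∈ F, ∑ q ∈ F.filter (fun q => Hv p q), M p q * Real.log (M p q) := by
    simp_rw [Finset.sum_filter]
    exact Finset.sum_comm
  have h1 : ∑ q ∈ F, E q * Real.log (E q) ≤
      ∑ q ∈ F, (∑ p ∈ F.filter (fun p => Hv p q), M p q * Real.log (M p q) +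
        (1 + Real.log B) * k q) := Finset.sum_le_sum hcol'
  have h2 : ∑ p ∈ F, ∑ q ∈ F.filter (fun q => Hv p q), M p q * Real.log (M p q) ≤
      ∑ p ∈ F, (E p * Real.log (E p) - (if x0 ≤ E p then θ * E p else 0)) := Finset.sum_le_sum hrow'
  rw [Finset.sum_add_distrib, hswap, ← Finset.mul_sum] at h1
  rw [Finset.sum_sub_distrib, ← Finset.sum_filter, ← Finset.mul_sum] at h2
  linarith

end Pool.Agent.H24.Opn.Trans
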