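import Pool.Agent.H24.Opn.Few
import Pool.Agent.H24.Opn.Trans
import Pool.Agent.H24.Opn.BakThm

/-!
Assembly: `log N ≤ ω(N) P(N) ^ (1/2 + 20 s)`.
-/

namespace Pool.Agent.H24.Opn.Asm

open Finset Few

open Classical in
theorem asm (Y0 : ℕ) (hY0 : ∀ Y : ℕ, Y0 ≤ Y → ∀ p q n a u : ℕ, p.Prime → q.Prime → p ≠ q → 1 ≤ u →
    p ^ n = u * q ^ a + 1 → 1 ≤ n → Real.log p ≤ Y → Real.log q ≤ Y → Real.log n ≤ Y →
    (n : ℝ) < (Y : ℝ) ^ 22 * (Real.log u + 2))
    (a b N : ℕ) (hb : 0 < b) (hN : 1 < N) (h : b * ∑ d ∈ N.divisors, d = a * N)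
    (y : ℕ) (hy : ∀ q ∈ N.primeFactors, q ≤ y) (hay : a ≤ y) (hy4 : 4 ≤ y) (s δ Cδ : ℝ) (hs : 0 < s)
    (hδ : 0 < δ) (hC : ∀ n : ℕ, n ≠ 0 → (n.divisors.card : ℝ) ≤ Cδ * (n : ℝ) ^ δ) (hC0 : 0 ≤ Cδ)
    (hδs : 3 * δ ≤ s) (m : ℕ) (hm : 1 ≤ m) (hms : 1 / (m : ℝ) ≤ s)
    (c1 : Real.log y ≤ (y : ℝ) ^ s) (c2 : 100 ≤ (y : ℝ) ^ s) (c3 : (m : ℝ) ≤ (y : ℝ) ^ s)
    (c4 : Cδ ≤ (y : ℝ) ^ s) (c5 : Real.log b + 1 ≤ (y : ℝ) ^ s)
    (c6 : ((⌈3 * Real.log y⌉₊ : ℕ) : ℝ) ^ 22 ≤ (y : ℝ) ^ s) (c7 : Y0 ≤ ⌈3 * Real.log y⌉₊)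
    (c8 : 2 * y ^ 2 + 9 ≤ y ^ 3) :
    Real.log N ≤ N.primeFactors.card * (y : ℝ) ^ (1 / 2 + 20 * s) := by
  set L := Real.log y with hL
  set t := (y : ℝ) ^ s with ht
  set r := (y : ℝ) ^ (1 / 2 : ℝ) with hr
  have hyr : (4 : ℝ) ≤ y := by exact_mod_cast hy4
  have hy0 : (0 : ℝ) < y := by linarith
  have hy1 : (1 : ℝ) ≤ y := by linarith
  have hL1 : 1 ≤ L := by
    have h1 : Real.log 4 ≤ L := Real.log_le_log (by norm_num) hyr
    have h2 : Real.log 4 = 2 * Real.log 2 := by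
      rw [show (4 : ℝ) = 2 ^ 2 by norm_num, Real.log_pow]; norm_num
    have := Real.log_two_gt_d9
    linarith
  have hLy : L ≤ y := by
    have := Real.log_le_sub_one_of_pos hy0
    linarith
  have hr1 : 1 ≤ r := Real.one_le_rpow hy1 (by norm_num)
  have ht0 : 0 < t := by linarith
  have hpow : (y : ℝ) ^ (1 / 2 + 20 * s) = r * t ^ 20 := by
    rw [Real.rpow_add hy0, hr, ht, mul_comm (20 : ℝ) s, Real.rpow_mul hy0.le]
    congr 1
    exact_mod_cast Real.rpow_natCast ((y : ℝ) ^ s) 20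
  rw [hpow]
  by_contra hcon
  push Not at hcon
  set F := N.primeFactors with hF
  set e : ℕ → ℕ := fun p => N.factorization p with he
  have hN0 : N ≠ 0 := by omega
  have hFne : F.Nonempty := Nat.nonempty_primeFactors.2 hN
  have hk1 : (1 : ℝ) ≤ F.card := by exact_mod_cast hFne.card_pos
  have hFp : ∀ p ∈ F, p.Prime := fun p hp => Nat.prime_of_mem_primeFactors hp
  have hFy : ∀ p ∈ F, p ≤ y := hy
  have hlp0 : ∀ p ∈ F, Real.log 2 ≤ Real.log p := fun p hp =>
    Real.log_le_log (by norm_num) (by exact_mod_cast (hFp p hp).two_le)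
  have hlpL : ∀ p ∈ F, Real.log p ≤ L := fun p hp =>
    Real.log_le_log (by exact_mod_cast (hFp p hp).pos) (by exact_mod_cast hFy p hp)
  have hl2 : (1 : ℝ) / 2 < Real.log 2 := by have := Real.log_two_gt_d9; linarith
  have hl21 : Real.log 2 < 1 := by have := Real.log_two_lt_d9; linarith
  -- exponents
  have he1 : ∀ p ∈ F, 1 ≤ e p := fun p hp =>
    (hFp p hp).factorization_pos_of_dvd hN0 (Nat.dvd_of_mem_primeFactors hp)
  have hey : ∀ p ∈ F, e p + 1 ≤ y ^ 3 := by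
    intro p hp
    have := exp_le hb (by omega) h y hy hay p hp
    have h1 : e p ≤ 2 * y ^ 2 + 8 := this
    omega
  have heyr : ∀ p ∈ F, ((e p : ℝ) + 1) ≤ (y : ℝ) ^ 3 := fun p hp => by exact_mod_cast hey p hp
  have he3 : ∀ p ∈ F, Real.log ((e p : ℝ) + 1) ≤ 3 * L := by
    intro p hp
    calc Real.log ((e p : ℝ) + 1) ≤ Real.log ((y : ℝ) ^ 3) := Real.log_le_log (by positivity) (heyr p hp)
      _ = 3 * L := by rw [Real.log_pow, hL]; norm_num
  -- thresholds
  set h0 : ℝ := ((2 : ℕ) : ℝ) * (y : ℝ) ^ (1 / ((2 : ℕ) : ℝ)) * L + 4 * L with hh0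
  set X1 : ℝ := (m : ℝ) * (y : ℝ) ^ (1 / (m : ℝ)) * L + 4 * L with hX1
  have hr2 : (y : ℝ) ^ (1 / ((2 : ℕ) : ℝ)) = r := by rw [hr]; norm_num
  have hh0r : h0 = 2 * r * L + 4 * L := by rw [hh0, hr2]; norm_num
  have hh01 : 1 ≤ h0 := by
    rw [hh0r]
    have : 0 ≤ 2 * r * L := by positivity
    linarith
  have hX10 : 0 ≤ X1 := by rw [hX1]; positivity
  set M := ent e with hM
  have hM0 : ∀ p q, 0 ≤ M p q := ent_nonneg e
  set Hv : ℕ → ℕ → Prop := fun p q => q ≠ 2 ∧ h0 < M p q with hHv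
  set E : ℕ → ℝ := fun p => (e p : ℝ) * Real.log p + Real.log 2 with hE
  set kq : ℕ → ℝ := fun q => ∑ p ∈ F.filter (fun p => ¬ Hv p q), M p q +
    (b.factorization q : ℝ) * Real.log q + Real.log 2 with hkq
  have huniq : ∀ q ∈ F, ∀ p ∈ F, ∀ p' ∈ F, Hv p q → Hv p' q → p = p' := by
    intro q hq p hp p' hp' h1 h2
    by_contra hne
    have := few q y 2 (by norm_num) (hFp q hq) h1.1 (hFy q hq) {p, p'} (Finset.card_pair hne) e
      (by
        intro x hx
        rcases Finset.mem_insert.1 hx with rfl | hx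
        · exact ⟨hFp _ hp, hFy _ hp⟩
        · rw [Finset.mem_singleton.1 hx]; exact ⟨hFp _ hp', hFy _ hp'⟩)
      (by
        intro x hx
        rcases Finset.mem_insert.1 hx with rfl | hx
        · exact he3 _ hp
        · rw [Finset.mem_singleton.1 hx]; exact he3 _ hp') h0
      (by
        intro x hx
        rcases Finset.mem_insert.1 hx with rfl | hx
        · exact h1.2
        · rw [Finset.mem_singleton.1 hx]; exact h2.2)
    exact lt_irrefl _ this
  have hE1 : ∀ p ∈ F, 1 ≤ E p := by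
    intro p hp
    have h1 : (1 : ℝ) ≤ e p := by exact_mod_cast he1 p hp
    have h2 := hlp0 p hp
    have h3 : Real.log 2 ≤ (e p : ℝ) * Real.log p := by nlinarith
    show 1 ≤ (e p : ℝ) * Real.log p + Real.log 2
    linarith
  have hEn : ∀ p ∈ F, E p ≤ ((e p : ℝ) + 1) * Real.log p := by
    intro p hp
    have h2 := hlp0 p hp
    show (e p : ℝ) * Real.log p + Real.log 2 ≤ _
    linarith
  have hEB : ∀ p ∈ F, E p ≤ (y : ℝ) ^ 4 := by
    intro p hp
    refine (hEn p hp).trans ?_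
    calc ((e p : ℝ) + 1) * Real.log p ≤ (y : ℝ) ^ 3 * y :=
          mul_le_mul (heyr p hp) ((hlpL p hp).trans hLy) (by linarith [hlp0 p hp]) (by positivity)
      _ = _ := by ring
  have hrow : ∀ p ∈ F, ∑ q ∈ F.filter (fun q => Hv p q), M p q ≤ E p := fun p hp =>
    row_le e p (hFp p hp) _ fun q hq => hFp q (Finset.mem_filter.1 hq).1
  have hblog : ∀ q ∈ F, 0 ≤ (b.factorization q : ℝ) * Real.log q := fun q hq => by
    have := hlp0 q hq
    have : 0 ≤ Real.log q := by linarith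
    positivity
  have hkq0 : ∀ q ∈ F, 0 ≤ kq q := by
    intro q hq
    have h1 : 0 ≤ ∑ p ∈ F.filter (fun p => ¬ Hv p q), M p q := Finset.sum_nonneg fun p _ => hM0 p q
    have h2 := hblog q hq
    show 0 ≤ ∑ p ∈ F.filter (fun p => ¬ Hv p q), M p q + (b.factorization q : ℝ) * Real.log q + Real.log 2
    linarith
  have hcol : ∀ q ∈ F, E q ≤ ∑ p ∈ F.filter (fun p => Hv p q), M p q + kq q := by
    intro q hq
    have h1 := col_le hb (by omega) h q (hFp q hq)
    have h2 : ∑ p ∈ F, M p q = ∑ p ∈ F.filter (fun p => Hv p q), M p q +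
        ∑ p ∈ F.filter (fun p => ¬ Hv p q), M p q := (Finset.sum_filter_add_sum_filter_not F _ _).symm
    show (e q : ℝ) * Real.log q + Real.log 2 ≤ _ + (∑ p ∈ F.filter (fun p => ¬ Hv p q), M p q +
      (b.factorization q : ℝ) * Real.log q + Real.log 2)
    have h3 : (e q : ℝ) * Real.log q ≤ ∑ p ∈ F, M p q + (b.factorization q : ℝ) * Real.log q := h1
    linarith
  -- the total of the small entries
  have htau : ∀ p ∈ F, (((e p + 1).divisors.card : ℕ) : ℝ) ≤ t ^ 2 := by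
    intro p hp
    refine (hC (e p + 1) (Nat.succ_ne_zero _)).trans ?_
    have h1 : (((e p + 1 : ℕ)) : ℝ) ^ δ ≤ t := by
      calc (((e p + 1 : ℕ)) : ℝ) ^ δ ≤ ((y : ℝ) ^ (3 : ℕ)) ^ δ := by
            refine Real.rpow_le_rpow (Nat.cast_nonneg _) ?_ hδ.le
            exact_mod_cast hey p hp
        _ = (y : ℝ) ^ (3 * δ) := by
            rw [← Real.rpow_natCast, ← Real.rpow_mul hy0.le]; norm_num
        _ ≤ t := Real.rpow_le_rpow_of_exponent_le hy1 hδs
    calc Cδ * (((e p + 1 : ℕ)) : ℝ) ^ δ ≤ t * t := mul_le_mul c4 h1 (by positivity) ht0.le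
      _ = t ^ 2 := by ring
  have hrr : r * r = y := by
    rw [hr, ← Real.rpow_add hy0]; norm_num
  set D : ℕ := ⌈r⌉₊ with hD
  have hD1 : 1 ≤ D := Nat.one_le_ceil_iff.2 (by linarith)
  have hDr : r ≤ D := Nat.le_ceil r
  have hDr2 : (D : ℝ) ≤ 2 * r := by
    have := Nat.ceil_lt_add_one (show 0 ≤ r by linarith)
    linarith
  have hyD : (y : ℝ) / D ≤ r := by
    rw [div_le_iff₀ (by linarith), ← hrr]
    exact mul_le_mul_of_nonneg_left hDr (by linarith)
  have hX1t : X1 ≤ 5 * t ^ 3 := by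
    rw [hX1]
    have h1 : (y : ℝ) ^ (1 / (m : ℝ)) ≤ t := Real.rpow_le_rpow_of_exponent_le hy1 hms
    have h2 : (m : ℝ) * (y : ℝ) ^ (1 / (m : ℝ)) * L ≤ t * t * t := by
      have : 0 ≤ (y : ℝ) ^ (1 / (m : ℝ)) := by positivity
      have : 0 ≤ L := by linarith
      gcongr
    have h3 : 4 * L ≤ 4 * t ^ 3 := by
      have : t ≤ t ^ 3 := le_self_pow₀ (by linarith) (by norm_num)
      linarith
    calc _ ≤ t * t * t + 4 * t ^ 3 := add_le_add h2 h3
      _ = _ := by ring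
  have hrl : ∀ p ∈ F, ∑ q ∈ F.filter (fun q => q = 2 ∨ M p q ≤ X1), M p q ≤ 14 * (t ^ 5 * r) := by
    intro p hp
    have h1 := Ent.rowlight p (e p) D y (hFp p hp) hD1 (F.filter (fun q => q = 2 ∨ M p q ≤ X1))
      (fun q hq => ⟨hFp q (Finset.mem_filter.1 hq).1, hFy q (Finset.mem_filter.1 hq).1⟩) X1 hX10
      (fun q hq hq2 => (Finset.mem_filter.1 hq).2.resolve_left hq2)
    refine h1.trans ?_
    have h2 := htau p hp
    have h3 := he3 p hp
    have h4 := hlpL p hp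
    have h5 : 0 ≤ Real.log p := by linarith [hlp0 p hp]
    have b1 : ((((e p + 1).divisors.card : ℕ) : ℝ) * D + 2) * Real.log p ≤ (t ^ 2 * (2 * r) + 2) * t := by
      have : Real.log p ≤ t := h4.trans c1
      have hD0 : (0 : ℝ) ≤ D := Nat.cast_nonneg _
      gcongr
    have b2 : Real.log ((e p : ℝ) + 1) ≤ 3 * t := by linarith
    have b3 : X1 * ((((e p + 1).divisors.card : ℕ) : ℝ) * ((y : ℝ) / D)) ≤ (5 * t ^ 3) * (t ^ 2 * r) := by
      have : 0 ≤ (y : ℝ) / D := by positivity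
      gcongr
    have tt1 : (1 : ℝ) ≤ t := by linarith
    have d1 : t ^ 3 * r ≤ t ^ 5 * r := mul_le_mul_of_nonneg_right (pow_le_pow_right₀ tt1 (by norm_num)) (by linarith)
    have d2 : t ≤ t ^ 5 * r := by
      calc t = t ^ 1 * 1 := by ring
        _ ≤ t ^ 5 * r := mul_le_mul (pow_le_pow_right₀ tt1 (by norm_num)) hr1 (by norm_num) (by positivity)
    calc _ ≤ (t ^ 2 * (2 * r) + 2) * t + 3 * t + (5 * t ^ 3) * (t ^ 2 * r) := by linarith
      _ = 2 * (t ^ 3 * r) + 5 * t + 5 * (t ^ 5 * r) := by ring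
      _ ≤ 14 * (t ^ 5 * r) := by linarith
  have hmed : ∀ q ∈ F, ∑ p ∈ F.filter (fun p => q ≠ 2 ∧ X1 < M p q ∧ M p q ≤ h0), M p q ≤ 6 * (t ^ 2 * r) := by
    intro q hq
    have hc : (F.filter (fun p => q ≠ 2 ∧ X1 < M p q ∧ M p q ≤ h0)).card < m := by
      by_contra hge
      push Not at hge
      obtain ⟨P, hPs, hPc⟩ := Finset.exists_subset_card_eq hge
      have hne : P.Nonempty := by rw [← Finset.card_pos]; omega
      obtain ⟨p0, hp0⟩ := hne
      have hq2 := (Finset.mem_filter.1 (hPs hp0)).2.1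
      have := few q y m hm (hFp q hq) hq2 (hFy q hq) P hPc e
        (fun x hx => ⟨hFp x (Finset.mem_filter.1 (hPs hx)).1, hFy x (Finset.mem_filter.1 (hPs hx)).1⟩)
        (fun x hx => he3 x (Finset.mem_filter.1 (hPs hx)).1) X1
        (fun x hx => (Finset.mem_filter.1 (hPs hx)).2.2.1)
      exact lt_irrefl _ this
    calc ∑ p ∈ F.filter (fun p => q ≠ 2 ∧ X1 < M p q ∧ M p q ≤ h0), M p q
        ≤ ∑ _p ∈ F.filter (fun p => q ≠ 2 ∧ X1 < M p q ∧ M p q ≤ h0), h0 :=
          Finset.sum_le_sum fun p hp => (Finset.mem_filter.1 hp).2.2.2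
      _ = ((F.filter (fun p => q ≠ 2 ∧ X1 < M p q ∧ M p q ≤ h0)).card : ℝ) * h0 := by
          rw [Finset.sum_const, nsmul_eq_mul]
      _ ≤ t * (6 * (t * r)) := by
          refine mul_le_mul ?_ ?_ (by linarith) ht0.le
          · exact (by exact_mod_cast hc.le : ((F.filter (fun p => q ≠ 2 ∧ X1 < M p q ∧
              M p q ≤ h0)).card : ℝ) ≤ (m : ℝ)).trans c3
          · rw [hh0r]
            have h1 : 2 * r * L ≤ 2 * r * t := mul_le_mul_of_nonneg_left c1 (by positivity)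
            have h2 : 4 * L ≤ 4 * (t * r) := by
              have : t ≤ t * r := le_mul_of_one_le_right ht0.le hr1
              linarith
            linarith
      _ = _ := by ring
  have hlogb : ∑ q ∈ F, (b.factorization q : ℝ) * Real.log q ≤ Real.log b :=
    Ent.sum_part_le F hFp hb.ne'
  have hsumk : ∑ q ∈ F, kq q ≤ F.card * (t ^ 6 * r) := by
    have h1 : ∑ q ∈ F, kq q = ∑ q ∈ F, ∑ p ∈ F.filter (fun p => ¬ Hv p q), M p q +
        ∑ q ∈ F, (b.factorization q : ℝ) * Real.log q + F.card * Real.log 2 := by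
      show ∑ q ∈ F, (∑ p ∈ F.filter (fun p => ¬ Hv p q), M p q + (b.factorization q : ℝ) * Real.log q +
        Real.log 2) = _
      rw [Finset.sum_add_distrib, Finset.sum_add_distrib, Finset.sum_const, nsmul_eq_mul]
    have h2 : ∑ q ∈ F, ∑ p ∈ F.filter (fun p => ¬ Hv p q), M p q ≤
        ∑ q ∈ F, ∑ p ∈ F.filter (fun p => q ≠ 2 ∧ X1 < M p q ∧ M p q ≤ h0), M p q +
        ∑ p ∈ F, ∑ q ∈ F.filter (fun q => q = 2 ∨ M p q ≤ X1), M p q := by
      have h3 : ∑ p ∈ F, ∑ q ∈ F.filter (fun q => q = 2 ∨ M p q ≤ X1), M p q =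
          ∑ q ∈ F, ∑ p ∈ F.filter (fun p => q = 2 ∨ M p q ≤ X1), M p q := by
        simp_rw [Finset.sum_filter]
        exact Finset.sum_comm
      rw [h3, ← Finset.sum_add_distrib]
      refine Finset.sum_le_sum fun q _ => ?_
      rw [Finset.sum_filter, Finset.sum_filter, Finset.sum_filter, ← Finset.sum_add_distrib]
      refine Finset.sum_le_sum fun p _ => ?_
      have hMpq := hM0 p q
      by_cases hA : ¬ Hv p q
      · rw [if_pos hA]
        by_cases hB : q = 2 ∨ M p q ≤ X1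
        · rw [if_pos hB]
          split_ifs <;> linarith
        · rw [if_neg hB]
          push Not at hB
          have hle : M p q ≤ h0 := by
            by_contra hh
            exact hA ⟨hB.1, by linarith⟩
          rw [if_pos ⟨hB.1, hB.2, hle⟩]
          linarith
      · rw [if_neg hA]
        split_ifs <;> linarith
    have h4 : ∑ q ∈ F, ∑ p ∈ F.filter (fun p => q ≠ 2 ∧ X1 < M p q ∧ M p q ≤ h0), M p q ≤
        F.card * (6 * (t ^ 2 * r)) := by
      refine (Finset.sum_le_sum hmed).trans (le_of_eq ?_)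
      rw [Finset.sum_const, nsmul_eq_mul]
    have h5 : ∑ p ∈ F, ∑ q ∈ F.filter (fun q => q = 2 ∨ M p q ≤ X1), M p q ≤
        F.card * (14 * (t ^ 5 * r)) := by
      refine (Finset.sum_le_sum hrl).trans (le_of_eq ?_)
      rw [Finset.sum_const, nsmul_eq_mul]
    have tt1 : (1 : ℝ) ≤ t := by linarith
    have d1 : t ^ 2 * r ≤ t ^ 5 * r := mul_le_mul_of_nonneg_right (pow_le_pow_right₀ tt1 (by norm_num)) (by linarith)
    have d2 : t ≤ t ^ 5 * r := by
      calc t = t ^ 1 * 1 := by ring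
        _ ≤ t ^ 5 * r := mul_le_mul (pow_le_pow_right₀ tt1 (by norm_num)) hr1 (by norm_num) (by positivity)
    have h6 : ∑ q ∈ F, kq q ≤ F.card * (21 * (t ^ 5 * r)) := by
      rw [h1]
      have h7 : Real.log b + F.card * Real.log 2 ≤ F.card * t := by
        have h8 : Real.log b ≤ F.card * (t - 1) := by
          calc Real.log b ≤ t - 1 := by linarith
            _ ≤ F.card * (t - 1) := le_mul_of_one_le_left (by linarith) hk1
        have h9 : (F.card : ℝ) * Real.log 2 ≤ F.card * 1 := mul_le_mul_of_nonneg_left hl21.le (by linarith)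
        linarith
      have h10 : (F.card : ℝ) * t ≤ F.card * (t ^ 5 * r) := mul_le_mul_of_nonneg_left d2 (by linarith)
      have h11 : (F.card : ℝ) * (6 * (t ^ 2 * r)) ≤ F.card * (6 * (t ^ 5 * r)) :=
        mul_le_mul_of_nonneg_left (by linarith) (by linarith)
      linarith
    refine h6.trans (mul_le_mul_of_nonneg_left ?_ (by linarith))
    calc 21 * (t ^ 5 * r) ≤ t * (t ^ 5 * r) := mul_le_mul_of_nonneg_right (by linarith) (by positivity)
      _ = _ := by ring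
  -- the large rows
  set x0 : ℝ := r * t ^ 20 / 2 with hx0
  have ht20 : (100 : ℝ) ^ 20 ≤ t ^ 20 := pow_le_pow_left₀ (by norm_num) c2 20
  have hx0e : 3 ≤ x0 := by
    rw [hx0]
    have : (1 : ℝ) * 100 ^ 20 ≤ r * t ^ 20 := mul_le_mul hr1 ht20 (by norm_num) (by linarith)
    have : (100 : ℝ) ^ 20 ≥ 6 := by norm_num
    linarith
  have hlogN : Real.log N ≤ ∑ p ∈ F, E p := by
    have h1 : Real.log N = ∑ p ∈ F, (e p : ℝ) * Real.log p := by
      conv_lhs => rw [← Nat.prod_factorization_pow_eq_self hN0]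
      rw [Finsupp.prod, Nat.support_factorization]
      push_cast
      rw [Real.log_prod]
      · refine Finset.sum_congr rfl fun p _ => ?_
        rw [Real.log_pow]
      · intro p hp
        have : (p : ℝ) ≠ 0 := by exact_mod_cast (hFp p hp).ne_zero
        positivity
    rw [h1]
    refine Finset.sum_le_sum fun p _ => ?_
    show (e p : ℝ) * Real.log p ≤ (e p : ℝ) * Real.log p + Real.log 2
    linarith
  have hbigsum : F.card * (r * t ^ 20) / 2 < ∑ p ∈ F.filter (fun p => x0 ≤ E p), E p := by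
    have h1 : ∑ p ∈ F, E p = ∑ p ∈ F.filter (fun p => x0 ≤ E p), E p +
        ∑ p ∈ F.filter (fun p => ¬ x0 ≤ E p), E p := (Finset.sum_filter_add_sum_filter_not F _ _).symm
    have h2 : ∑ p ∈ F.filter (fun p => ¬ x0 ≤ E p), E p ≤ F.card * x0 := by
      calc _ ≤ ∑ _p ∈ F.filter (fun p => ¬ x0 ≤ E p), x0 := Finset.sum_le_sum fun p hp => by
            have := (Finset.mem_filter.1 hp).2
            push Not at this
            exact this.le
        _ = ((F.filter (fun p => ¬ x0 ≤ E p)).card : ℝ) * x0 := by rw [Finset.sum_const, nsmul_eq_mul]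
        _ ≤ _ := by
            refine mul_le_mul_of_nonneg_right ?_ (by linarith)
            exact_mod_cast Finset.card_filter_le _ _
    have h3 : (F.card : ℝ) * x0 = F.card * (r * t ^ 20) / 2 := by rw [hx0]; ring
    linarith
  set θ : ℝ := 1 / t ^ 10 with hθ
  have ht10 : (100 : ℝ) ^ 10 ≤ t ^ 10 := pow_le_pow_left₀ (by norm_num) c2 10
  have ht10' : (0 : ℝ) < t ^ 10 := by positivity
  have hθ0 : 0 ≤ θ := by positivity
  have hθ1 : θ < 1 := by
    rw [hθ, div_lt_one ht10']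
    have : (1 : ℝ) < 100 ^ 10 := by norm_num
    linarith
  have hexist : ∃ p ∈ F, x0 ≤ E p ∧ ∃ q ∈ F, Hv p q ∧ (1 - θ) * E p < M p q := by
    by_contra hno
    push Not at hno
    have htr := Trans.transport F M Hv E kq ((y : ℝ) ^ 4) θ x0
      (fun p _ q _ hpq => hh01.trans hpq.2.le) huniq hE1 hEB hrow hkq0 hcol hθ1
      (by
        have h1 : Real.exp θ ≤ Real.exp 1 := Real.exp_le_exp.2 hθ1.le
        have := Real.exp_one_lt_d9
        linarith)
      (fun p hp hb q hq hpq => hno p hp hb q hq hpq)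
    have h1 : Real.log ((y : ℝ) ^ 4) = 4 * L := by rw [Real.log_pow, hL]; norm_num
    rw [h1] at htr
    have h2 : (1 + 4 * L) * ∑ q ∈ F, kq q ≤ (5 * t) * (F.card * (t ^ 6 * r)) := by
      refine mul_le_mul (by linarith) hsumk (Finset.sum_nonneg hkq0) (by positivity)
    have h3 : θ * (F.card * (r * t ^ 20) / 2) < (5 * t) * (F.card * (t ^ 6 * r)) := by
      have h4 : θ * (F.card * (r * t ^ 20) / 2) < θ * ∑ p ∈ F.filter (fun p => x0 ≤ E p), E p :=
        mul_lt_mul_of_pos_left hbigsum (by positivity)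
      linarith
    have h5 : θ * (F.card * (r * t ^ 20) / 2) = (F.card * (t ^ 6 * r)) * (t ^ 4 / 2) := by
      rw [hθ]; field_simp
    rw [h5, mul_comm (5 * t)] at h3
    have h6 : t ^ 4 / 2 < 5 * t := lt_of_mul_lt_mul_left h3 (by positivity)
    have h7 : (100 : ℝ) ^ 3 * t ≤ t ^ 4 := by
      calc (100 : ℝ) ^ 3 * t ≤ t ^ 3 * t := mul_le_mul_of_nonneg_right (pow_le_pow_left₀ (by norm_num) c2 3) ht0.le
        _ = t ^ 4 := by ring
    norm_num at h7
    linarith
  obtain ⟨p, hp, hpx, q, hq, hpq, hMbig⟩ := hexist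
  have hpp := hFp p hp
  have hqp := hFp q hq
  have hne : p ≠ q := by
    rintro rfl
    have h1 : M p p = 0 := ent_self hpp e
    rw [hHv] at hpq
    have := hpq.2
    rw [h1] at this
    linarith
  set n := e p + 1 with hn
  set a' := (sp p (e p)).factorization q with ha'
  have hdvd : q ^ a' ∣ p ^ n - 1 :=
    (Nat.ordProj_dvd _ _).trans (Dvd.intro _ (sp_mul p (e p) hpp.pos))
  obtain ⟨u, hu⟩ := hdvd
  have hpn1 : 1 < p ^ n := Nat.one_lt_pow (Nat.succ_ne_zero _) hpp.one_lt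
  have hu1 : 1 ≤ u := by
    rcases Nat.eq_zero_or_pos u with h0' | h0'
    · rw [h0', mul_zero] at hu; omega
    · exact h0'
  have hpneq : p ^ n = u * q ^ a' + 1 := by rw [mul_comm u]; omega
  have hnr : (n : ℝ) = (e p : ℝ) + 1 := by rw [hn]; push_cast; rfl
  have hY : 3 * L ≤ ((⌈3 * L⌉₊ : ℕ) : ℝ) := Nat.le_ceil _
  have hbak := hY0 ⌈3 * L⌉₊ c7 p q n a' u hpp hqp hne hu1 hpneq (Nat.succ_le_succ (Nat.zero_le _))
    (by linarith [hlpL p hp]) (by linarith [hlpL q hq]) (by rw [hnr]; linarith [he3 p hp])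
  -- log u
  have hlogu : Real.log u ≤ t + θ * (n * t) := by
    have h1 : (u : ℝ) * (q : ℝ) ^ a' ≤ (p : ℝ) ^ n := by
      have : u * q ^ a' ≤ p ^ n := by omega
      exact_mod_cast this
    have hu0 : (0 : ℝ) < u := by exact_mod_cast hu1
    have hq0 : (0 : ℝ) < q := by exact_mod_cast hqp.pos
    have h2 := Real.log_le_log (by positivity) h1
    rw [Real.log_mul hu0.ne' (by positivity), Real.log_pow, Real.log_pow] at h2
    have h3 : (1 - θ) * E p < (a' : ℝ) * Real.log q := hMbig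
    have h4 : (1 - θ) * ((e p : ℝ) * Real.log p) ≤ (1 - θ) * E p := by
      refine mul_le_mul_of_nonneg_left ?_ (by linarith)
      show (e p : ℝ) * Real.log p ≤ (e p : ℝ) * Real.log p + Real.log 2
      linarith
    rw [hnr] at h2 ⊢
    have h5 : Real.log u ≤ Real.log p + θ * ((e p : ℝ) * Real.log p) := by linarith
    have h6 : Real.log p ≤ t := (hlpL p hp).trans c1
    have h7 : θ * ((e p : ℝ) * Real.log p) ≤ θ * (((e p : ℝ) + 1) * t) := by
      refine mul_le_mul_of_nonneg_left ?_ hθ0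
      exact mul_le_mul (by linarith) h6 (by linarith [hlp0 p hp]) (by positivity)
    linarith
  have hn2 : (n : ℝ) < t * (t + θ * (n * t) + 2) := by
    have hpos : 0 ≤ Real.log u + 2 := by
      have : 0 ≤ Real.log (u : ℝ) := Real.log_nonneg (by exact_mod_cast hu1)
      linarith
    calc (n : ℝ) < ((⌈3 * L⌉₊ : ℕ) : ℝ) ^ 22 * (Real.log u + 2) := hbak
      _ ≤ t * (Real.log u + 2) := mul_le_mul_of_nonneg_right c6 hpos
      _ ≤ _ := by
          refine mul_le_mul_of_nonneg_left ?_ ht0.le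
          linarith
  have hθt : t * (θ * (n * t)) ≤ n / 2 := by
    have h1 : t * (θ * (n * t)) = n * (t ^ 2 * θ) := by ring
    rw [h1]
    have h2 : t ^ 2 * θ ≤ 1 / 2 := by
      rw [hθ, mul_one_div, div_le_div_iff₀ ht10' (by norm_num)]
      have h3 : (100 : ℝ) ^ 8 * t ^ 2 ≤ t ^ 10 := by
        calc (100 : ℝ) ^ 8 * t ^ 2 ≤ t ^ 8 * t ^ 2 :=
              mul_le_mul_of_nonneg_right (pow_le_pow_left₀ (by norm_num) c2 8) (by positivity)
          _ = t ^ 10 := by ring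
      have h4 : 0 ≤ t ^ 2 := by positivity
      norm_num at h3
      linarith
    have h5 := mul_le_mul_of_nonneg_left h2 (Nat.cast_nonneg (α := ℝ) n)
    linarith
  have hn3 : (n : ℝ) < 2 * (t * (t + 2)) := by
    have h1 : t * (t + θ * (n * t) + 2) = t * (t + 2) + t * (θ * (n * t)) := by ring
    rw [h1] at hn2
    linarith
  have hn4 : x0 ≤ n * t := by
    refine hpx.trans ((hEn p hp).trans ?_)
    rw [← hnr]
    exact mul_le_mul_of_nonneg_left ((hlpL p hp).trans c1) (Nat.cast_nonneg _)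
  have hn5 : x0 < 2 * (t * (t + 2)) * t := lt_of_le_of_lt hn4 (mul_lt_mul_of_pos_right hn3 ht0)
  have hn6 : 2 * (t * (t + 2)) * t ≤ 4 * t ^ 3 := by
    have h1 : t ^ 2 * 100 ≤ t ^ 3 := by
      calc t ^ 2 * 100 ≤ t ^ 2 * t := mul_le_mul_of_nonneg_left c2 (by positivity)
        _ = t ^ 3 := by ring
    have h2 : 0 ≤ t ^ 2 := by positivity
    have h3 : 2 * (t * (t + 2)) * t = 2 * t ^ 3 + 4 * t ^ 2 := by ring
    linarith
  have hn7 : (t ^ 3 * 100 ^ 17) / 2 ≤ x0 := by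
    rw [hx0]
    have h1 : t ^ 3 * 100 ^ 17 ≤ t ^ 20 := by
      calc t ^ 3 * 100 ^ 17 ≤ t ^ 3 * t ^ 17 :=
            mul_le_mul_of_nonneg_left (pow_le_pow_left₀ (by norm_num) c2 17) (by positivity)
        _ = t ^ 20 := by ring
    have h2 : t ^ 20 ≤ r * t ^ 20 := le_mul_of_one_le_left (by positivity) hr1
    linarith
  have h8 : 0 < t ^ 3 := by positivity
  norm_num at hn7
  linarith

end Pool.Agent.H24.Opn.Asm
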