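import Pool.Agent.H24.Opn.BakMain

/-!
The lower bound for `u` in `p ^ n = u q ^ a + 1`, with parameters.
-/

namespace Pool.Agent.H24.Opn.Bak

open Finset Polynomial

lemma coord (n a m C t r : ℕ) (hr : r ≤ t) (Z : ℝ)
    (hZ1 : (2 : ℝ) ^ t * (m + n * C) ≤ Z) (hZ2 : (2 : ℝ) ^ t * (m + a * C) ≤ Z)
    (l : ℕ × ℕ × ℕ) (hl : l ∈ bx (2 ^ r * m) C) :
    |xx (2 ^ r * n) l| ≤ Z ∧ |yy (2 ^ r * a) l| ≤ Z := by
  have hZ1' : (2 : ℝ) ^ t * m + 2 ^ t * (n * C) ≤ Z := by rw [← mul_add]; exact hZ1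
  have hZ2' : (2 : ℝ) ^ t * m + 2 ^ t * (a * C) ≤ Z := by rw [← mul_add]; exact hZ2
  obtain ⟨i, j, k⟩ := l
  unfold bx at hl
  simp only [mem_product, mem_range] at hl
  obtain ⟨hi, hj, hk⟩ := hl
  have h2r : (2 : ℝ) ^ r ≤ 2 ^ t := pow_le_pow_right₀ (by norm_num) hr
  have hi' : (i : ℝ) ≤ 2 ^ r * m := by exact_mod_cast hi.le
  have hj' : (j : ℝ) ≤ 2 ^ r * m := by exact_mod_cast hj.le
  have hk' : (k : ℝ) ≤ C := by exact_mod_cast hk.le
  have hi'' : (i : ℝ) ≤ 2 ^ t * m := hi'.trans (mul_le_mul_of_nonneg_right h2r (Nat.cast_nonneg _))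
  have hj'' : (j : ℝ) ≤ 2 ^ t * m := hj'.trans (mul_le_mul_of_nonneg_right h2r (Nat.cast_nonneg _))
  have e1 : xx (2 ^ r * n) (i, j, k) = i + 2 ^ r * (n * k) := by
    unfold xx; push_cast; ring
  have e2 : yy (2 ^ r * a) (i, j, k) = j - 2 ^ r * (a * k) := by
    unfold yy; push_cast; ring
  have b1 : (2 : ℝ) ^ r * (n * k) ≤ 2 ^ t * (n * C) := by gcongr
  have b2 : (2 : ℝ) ^ r * (a * k) ≤ 2 ^ t * (a * C) := by gcongr
  have b3 : (0 : ℝ) ≤ 2 ^ r * (n * k) := by positivity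
  have b4 : (0 : ℝ) ≤ 2 ^ r * (a * k) := by positivity
  have b5 : (0 : ℝ) ≤ (i : ℝ) := Nat.cast_nonneg _
  have b6 : (0 : ℝ) ≤ (j : ℝ) := Nat.cast_nonneg _
  refine ⟨?_, ?_⟩
  · rw [e1, abs_of_nonneg (add_nonneg b5 b3)]
    linarith
  · rw [e2, abs_le]
    constructor
    · have : (0 : ℝ) ≤ 2 ^ t * m := by positivity
      linarith
    · have : (0 : ℝ) ≤ 2 ^ t * (a * C) := by positivity
      linarith

/-- the contradiction, with parameters -/
theorem core (p q n a u m C S S' R : ℕ) (hp : p.Prime) (hq : q.Prime) (hpq : p ≠ q) (hu : 1 ≤ u)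
    (hR : 1 ≤ R) (τ Ξ δ : ℝ)
    (hτ0 : 0 ≤ τ) (hτ : (n : ℝ) * Real.log p - a * Real.log q = Real.log u + τ)
    (t : ℕ) (Z : ℝ) (hZ : 1 ≤ Z)
    (hZ1 : (2 : ℝ) ^ t * (m + n * C) ≤ Z) (hZ2 : (2 : ℝ) ^ t * (m + a * C) ≤ Z)
    (hδ : 2 ^ t * τ * C ≤ δ)
    (hΞ : 2 ^ t * m * (Real.log p + Real.log q) + C * (2 ^ t * (Real.log u + τ)) ≤ Ξ)
    (hmn : m ≤ n) (hm0 : 0 < m) (hC0 : 0 < C) (hS : m * C ≤ S)
    (hcard : 2 * ((S + t * S') * ((S + t * S') * R)) ≤ (2 ^ t * m) * ((2 ^ t * m) * C))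
    (X : ℝ) (hX : X = (((2 ^ t * m) * ((2 ^ t * m) * C) : ℕ) : ℝ) ^ 2 * Z ^ (4 * (S + t * S')) *
      Real.exp (2 * R * Ξ))
    (hnum : (((8 * R) ^ (R * S') + 1) * (X * Real.exp ((2 * R + 1) * Ξ) * (2 * R * δ)) +
        (1 / 8) ^ (R * S') * (X * Real.exp (34 * R * Ξ))) * (X * Real.exp (R * Ξ)) ^ 3 < 1) : False := by
  have hlp : 0 ≤ Real.log p := Real.log_nonneg (by exact_mod_cast hp.one_le)
  have hlq : 0 ≤ Real.log q := Real.log_nonneg (by exact_mod_cast hq.one_le)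
  have hlu : 0 ≤ Real.log u := Real.log_nonneg (by exact_mod_cast hu)
  have hΞ0 : 0 ≤ Ξ := le_trans (by positivity) hΞ
  have hS0 : 0 < S := lt_of_lt_of_le (by positivity) hS
  have hm2 : m ≤ S := le_trans (Nat.le_mul_of_pos_right _ hC0) hS
  have hM1 : 1 ≤ Z ^ (2 * (S + t * S')) * Real.exp (2 * R * Ξ) :=
    one_le_mul_of_one_le_of_one_le (one_le_pow₀ hZ) (Real.one_le_exp (by positivity))
  obtain ⟨c, hc0, hcH, hV⟩ := siegel p q (2 ^ t * n) (2 ^ t * a) (u ^ 2 ^ t) (2 ^ t * m) C (S + t * S') R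
    (by omega) hR hcard (Z ^ (2 * (S + t * S')) * Real.exp (2 * R * Ξ)) hM1 (by
      intro l hl i hi j hj r hr
      obtain ⟨z1, z2⟩ := coord n a m C t t le_rfl Z hZ1 hZ2 l hl
      push_cast
      rw [abs_mul, abs_mul, abs_pow, abs_pow, xi_cast, yi_cast]
      refine mul_le_mul ?_ ?_ (abs_nonneg _) (by positivity)
      · calc |xx (2 ^ t * n) l| ^ i * |yy (2 ^ t * a) l| ^ j
            ≤ Z ^ i * Z ^ j := mul_le_mul (pow_le_pow_left₀ (abs_nonneg _) z1 _)
              (pow_le_pow_left₀ (abs_nonneg _) z2 _) (by positivity) (by positivity)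
          _ = Z ^ (i + j) := by rw [pow_add]
          _ ≤ Z ^ (2 * (S + t * S')) := pow_le_pow_right₀ hZ (by omega)
      · rw [abs_of_nonneg (by positivity)]
        have hw : (ww p q (u ^ 2 ^ t) l : ℝ) ≤ Real.exp Ξ := by
          have h1 : (ww p q (u ^ 2 ^ t) l : ℝ) = Real.exp (l.1 * Real.log p + l.2.1 * Real.log q +
              l.2.2 * (2 ^ t * Real.log u)) := by
            rw [Real.exp_add, Real.exp_add, Real.exp_nat_mul, Real.exp_nat_mul, Real.exp_nat_mul,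
              Real.exp_log (by exact_mod_cast hp.pos), Real.exp_log (by exact_mod_cast hq.pos)]
            have h2 : Real.exp (2 ^ t * Real.log u) = (u : ℝ) ^ 2 ^ t := by
              rw [show (2 : ℝ) ^ t = ((2 ^ t : ℕ) : ℝ) by push_cast; rfl, Real.exp_nat_mul,
                Real.exp_log (by exact_mod_cast hu)]
            rw [h2]
            unfold ww
            push_cast
            ring
          rw [h1]
          refine Real.exp_le_exp.2 (le_trans ?_ hΞ)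
          obtain ⟨i', j', k'⟩ := l
          unfold bx at hl
          simp only [mem_product, mem_range] at hl
          obtain ⟨hi', hj', hk'⟩ := hl
          have a1 : (i' : ℝ) ≤ 2 ^ t * m := by exact_mod_cast hi'.le
          have a2 : (j' : ℝ) ≤ 2 ^ t * m := by exact_mod_cast hj'.le
          have a3 : (k' : ℝ) ≤ C := by exact_mod_cast hk'.le
          have b1 : (i' : ℝ) * Real.log p ≤ 2 ^ t * m * Real.log p := mul_le_mul_of_nonneg_right a1 hlp
          have b2 : (j' : ℝ) * Real.log q ≤ 2 ^ t * m * Real.log q := mul_le_mul_of_nonneg_right a2 hlq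
          have b3 : (k' : ℝ) * (2 ^ t * Real.log u) ≤ C * (2 ^ t * (Real.log u + τ)) := by
            have : Real.log u ≤ Real.log u + τ := by linarith
            gcongr
          show (i' : ℝ) * Real.log p + j' * Real.log q + k' * (2 ^ t * Real.log u) ≤ _
          linarith
        calc (ww p q (u ^ 2 ^ t) l : ℝ) ^ (2 * r + 1) ≤ Real.exp Ξ ^ (2 * r + 1) :=
              pow_le_pow_left₀ (Nat.cast_nonneg _) hw _
          _ = Real.exp ((2 * r + 1 : ℕ) * Ξ) := by rw [Real.exp_nat_mul]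
          _ ≤ _ := by
              refine Real.exp_le_exp.2 (mul_le_mul_of_nonneg_right ?_ hΞ0)
              have : 2 * r + 1 ≤ 2 * R := by omega
              exact_mod_cast this)
  obtain ⟨c', ⟨l, hl, hcl⟩, hV'⟩ := descent p q n a u m C S S' R hp hq hpq hu hR τ X Ξ δ hτ0 hτ t
    ((((2 ^ t * m) * ((2 ^ t * m) * C) : ℕ) : ℝ) * (Z ^ (2 * (S + t * S')) * Real.exp (2 * R * Ξ))) Z
    (by positivity) hZ hZ1 hZ2 hδ (by
      rw [hX]
      refine le_of_eq ?_
      have : Z ^ (4 * (S + t * S')) = Z ^ (2 * (S + t * S')) * Z ^ (2 * (S + t * S')) := by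
        rw [← pow_add]; congr 1; ring
      rw [this]
      ring) hΞ hnum t le_rfl c hc0 hcH hV
  exact hcl (final p q n a u m C S R hp.pos hq.pos (by omega) (by omega) hmn hS hm2 c' hV' l hl)

end Pool.Agent.H24.Opn.Bak
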