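import Pool.Agent.H24.Opn.BakStep2

/-!
The auxiliary function (Siegel's lemma), the descent, and the contradiction at its end.
-/

namespace Pool.Agent.H24.Opn.Bak

open Finset Polynomial

attribute [local instance] Matrix.seminormedAddCommGroup

lemma card_bx (m C : ℕ) : (bx m C).card = m * (m * C) := by
  unfold bx; simp

/-- Siegel's lemma for our system -/
theorem siegel (p q N A v m C S R : ℕ) (hS : 0 < S) (hR : 0 < R)
    (hcard : 2 * (S * (S * R)) ≤ m * (m * C)) (M : ℝ)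
    (hM1 : 1 ≤ M)
    (hM : ∀ l ∈ bx m C, ∀ i < S, ∀ j < S, ∀ r < R,
      |((xi N l ^ i * yi A l ^ j * ((ww p q v l : ℕ) : ℤ) ^ (2 * r + 1) : ℤ) : ℝ)| ≤ M) :
    ∃ c : ℕ × ℕ × ℕ → ℤ, (∃ l ∈ bx m C, c l ≠ 0) ∧
      (∀ l ∈ bx m C, |(c l : ℝ)| ≤ (m * (m * C) : ℕ) * M) ∧ Van p q N A v m C S R c := by
  classical
  let α := Fin S × Fin S × Fin R
  let β := {l // l ∈ bx m C}
  let Mt : Matrix α β ℤ := fun e l => xi N l.1 ^ (e.1 : ℕ) * yi A l.1 ^ (e.2.1 : ℕ) *
    ((ww p q v l.1 : ℕ) : ℤ) ^ (2 * (e.2.2 : ℕ) + 1)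
  have hα : Fintype.card α = S * (S * R) := by simp [α]
  have hβ : Fintype.card β = m * (m * C) := by
    show Fintype.card {l // l ∈ bx m C} = _
    rw [Fintype.card_coe, card_bx]
  have hpos : 0 < S * (S * R) := by positivity
  obtain ⟨t, ht0, htA, htn⟩ := Int.Matrix.exists_ne_zero_int_vec_norm_le Mt (by rw [hα, hβ]; omega)
    (by rw [hα]; exact hpos)
  have hnM : ‖Mt‖ ≤ M := by
    rw [Matrix.norm_le_iff (by linarith)]
    intro e l
    rw [Int.norm_eq_abs]
    exact hM l.1 l.2 e.1 e.1.2 e.2.1 e.2.1.2 e.2.2 e.2.2.2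
  have hmax : max 1 ‖Mt‖ ≤ M := max_le hM1 hnM
  have hβpos : (1 : ℝ) ≤ Fintype.card β := by rw [hβ]; exact_mod_cast (by omega : 1 ≤ m * (m * C))
  have hbase : 1 ≤ (Fintype.card β : ℝ) * max 1 ‖Mt‖ := by
    have : (1 : ℝ) ≤ max 1 ‖Mt‖ := le_max_left _ _
    nlinarith
  have hexp : ((Fintype.card α : ℝ) / ((Fintype.card β : ℝ) - Fintype.card α)) ≤ 1 := by
    rw [hα, hβ]
    have h1 : (2 : ℝ) * ((S * (S * R) : ℕ) : ℝ) ≤ ((m * (m * C) : ℕ) : ℝ) := by exact_mod_cast hcard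
    have h2 : (0 : ℝ) < ((S * (S * R) : ℕ) : ℝ) := by exact_mod_cast hpos
    rw [div_le_one (by linarith)]
    linarith
  have htn' : ‖t‖ ≤ (m * (m * C) : ℕ) * M := by
    refine htn.trans ?_
    calc _ ≤ ((Fintype.card β : ℝ) * max 1 ‖Mt‖) ^ (1 : ℝ) := Real.rpow_le_rpow_of_exponent_le hbase hexp
      _ = (Fintype.card β : ℝ) * max 1 ‖Mt‖ := Real.rpow_one _
      _ ≤ _ := by
          rw [hβ]
          exact mul_le_mul_of_nonneg_left hmax (Nat.cast_nonneg _)
  refine ⟨fun l => if h : l ∈ bx m C then t ⟨l, h⟩ else 0, ?_, ?_, ?_⟩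
  · obtain ⟨b, hb⟩ := Function.ne_iff.1 ht0
    refine ⟨b.1, b.2, ?_⟩
    simp only [b.2, dif_pos]
    exact hb
  · intro l hl
    simp only [hl, dif_pos]
    have := norm_le_pi_norm t ⟨l, hl⟩
    rw [Int.norm_eq_abs] at this
    exact this.trans htn'
  · have hmono : ∀ i < S, ∀ j < S, ∀ r < R, ∑ l ∈ bx m C,
        (((if h : l ∈ bx m C then t ⟨l, h⟩ else 0 : ℤ)) : ℝ) * (xx N l ^ i * yy A l ^ j) *
          (ww p q v l : ℝ) ^ (2 * r + 1) = 0 := by
      intro i hi j hj r hr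
      have h1 := congrFun htA (⟨i, hi⟩, ⟨j, hj⟩, ⟨r, hr⟩)
      simp only [Matrix.mulVec, dotProduct, Mt, Pi.zero_apply] at h1
      have h2 : ((∑ x : β, xi N x.1 ^ i * yi A x.1 ^ j * ((ww p q v x.1 : ℕ) : ℤ) ^ (2 * r + 1) * t x : ℤ)
          : ℝ) = 0 := by exact_mod_cast h1
      push_cast at h2
      rw [← Finset.sum_attach]
      rw [show (univ : Finset β) = (bx m C).attach from rfl] at h2
      rw [← h2]
      refine Finset.sum_congr rfl fun l _ => ?_
      simp only [l.2, dif_pos]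
      rw [xi_cast, yi_cast]
      ring
    intro P Q hP hQ r hr
    exact poly_of_mono (bx m C) _ (xx N) (yy A) (fun l => (ww p q v l : ℝ) ^ (2 * r + 1)) S
      (fun i hi j hj => hmono i hi j hj r hr) P Q hP hQ

/-- the end of the descent -/
theorem final (p q n a u m C S R : ℕ) (hp : 0 < p) (hq : 0 < q) (hu : 0 < u) (hR : 0 < R)
    (hm : m ≤ n) (hS : m * C ≤ S) (hS2 : m ≤ S) (c : ℕ × ℕ × ℕ → ℤ)
    (h : Van p q n a u m C S R c) : ∀ l ∈ bx m C, c l = 0 := by
  classical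
  intro l₀ hl₀
  by_contra hc
  obtain ⟨i0, j0, k0⟩ := l₀
  have hl₀' := hl₀
  unfold bx at hl₀'
  simp only [mem_product, mem_range] at hl₀'
  obtain ⟨hi0, hj0, hk0⟩ := hl₀'
  set T : Finset ℝ := ((range m ×ˢ range C).image fun x : ℕ × ℕ => (x.1 : ℝ) + n * x.2).erase
    ((i0 : ℝ) + n * k0) with hT
  set T' : Finset ℝ := ((range m).image fun j : ℕ => (j : ℝ) - a * k0).erase ((j0 : ℝ) - a * k0) with hT'
  set P : ℝ[X] := ∏ t ∈ T, (X - Polynomial.C t) with hP
  set Q : ℝ[X] := ∏ t ∈ T', (X - Polynomial.C t) with hQ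
  have hTc : T.card < S := by
    have h1 : ((i0 : ℝ) + n * k0) ∈ (range m ×ˢ range C).image fun x : ℕ × ℕ => (x.1 : ℝ) + n * x.2 :=
      mem_image.2 ⟨(i0, k0), by simp [hi0, hk0], rfl⟩
    have h2 : T.card = _ - 1 := card_erase_of_mem h1
    have h3 : ((range m ×ˢ range C).image fun x : ℕ × ℕ => (x.1 : ℝ) + n * x.2).card ≤ m * C := by
      refine card_image_le.trans ?_
      simp
    have h4 : 0 < ((range m ×ˢ range C).image fun x : ℕ × ℕ => (x.1 : ℝ) + n * x.2).card :=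
      card_pos.2 ⟨_, h1⟩
    omega
  have hTc' : T'.card < S := by
    have h1 : ((j0 : ℝ) - a * k0) ∈ (range m).image fun j : ℕ => (j : ℝ) - a * k0 :=
      mem_image.2 ⟨j0, by simp [hj0], rfl⟩
    have h2 : T'.card = _ - 1 := card_erase_of_mem h1
    have h3 : ((range m).image fun j : ℕ => (j : ℝ) - a * k0).card ≤ m := by
      refine card_image_le.trans ?_
      simp
    have h4 : 0 < ((range m).image fun j : ℕ => (j : ℝ) - a * k0).card := card_pos.2 ⟨_, h1⟩
    omega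
  have hPd : P.natDegree < S := by
    rw [hP, natDegree_prod_of_monic _ _ fun t _ => monic_X_sub_C t]
    simpa using hTc
  have hQd : Q.natDegree < S := by
    rw [hQ, natDegree_prod_of_monic _ _ fun t _ => monic_X_sub_C t]
    simpa using hTc'
  have h1 := h P Q hPd hQd 0 hR
  rw [Finset.sum_eq_single (i0, j0, k0)] at h1
  · have hP0 : P.eval (xx n (i0, j0, k0)) ≠ 0 := by
      rw [hP, eval_prod]
      refine Finset.prod_ne_zero_iff.2 fun t ht => ?_
      simp only [eval_sub, eval_X, eval_C]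
      rw [hT, mem_erase] at ht
      unfold xx
      exact sub_ne_zero.2 (Ne.symm ht.1)
    have hQ0 : Q.eval (yy a (i0, j0, k0)) ≠ 0 := by
      rw [hQ, eval_prod]
      refine Finset.prod_ne_zero_iff.2 fun t ht => ?_
      simp only [eval_sub, eval_X, eval_C]
      rw [hT', mem_erase] at ht
      unfold yy
      exact sub_ne_zero.2 (Ne.symm ht.1)
    have hw : (ww p q u (i0, j0, k0) : ℝ) ^ (2 * 0 + 1) ≠ 0 := by
      unfold ww
      have hp' : (p : ℝ) ≠ 0 := by exact_mod_cast hp.ne'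
      have hq' : (q : ℝ) ≠ 0 := by exact_mod_cast hq.ne'
      have hu' : (u : ℝ) ≠ 0 := by exact_mod_cast hu.ne'
      push_cast
      positivity
    have hc' : ((c (i0, j0, k0) : ℤ) : ℝ) ≠ 0 := by exact_mod_cast hc
    exact mul_ne_zero (mul_ne_zero hc' (mul_ne_zero hP0 hQ0)) hw h1
  · rintro ⟨i, j, k⟩ hl hne
    unfold bx at hl
    simp only [mem_product, mem_range] at hl
    obtain ⟨hi, hj, hk⟩ := hl
    by_cases hx : (i : ℝ) + n * k = (i0 : ℝ) + n * k0
    · -- same first coordinate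
      have hx' : i + n * k = i0 + n * k0 := by exact_mod_cast hx
      have hn : 0 < n := by omega
      have e1 : k = k0 := by
        have h2 : (i + n * k) / n = k := by
          rw [Nat.add_mul_div_left _ _ hn, Nat.div_eq_of_lt (by omega), zero_add]
        have h3 : (i0 + n * k0) / n = k0 := by
          rw [Nat.add_mul_div_left _ _ hn, Nat.div_eq_of_lt (by omega), zero_add]
        rw [← h2, ← h3, hx']
      subst e1
      have e2 : i = i0 := by omega
      subst e2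
      have hj' : j ≠ j0 := fun hh => hne (by rw [hh])
      have hQ0 : Q.eval (yy a (i, j, k)) = 0 := by
        rw [hQ, eval_prod]
        refine Finset.prod_eq_zero (i := (j : ℝ) - a * k) ?_ ?_
        · rw [hT', mem_erase]
          refine ⟨?_, mem_image.2 ⟨j, by simp [hj], rfl⟩⟩
          intro hh
          have : (j : ℝ) = j0 := by linarith
          exact hj' (by exact_mod_cast this)
        · simp only [eval_sub, eval_X, eval_C, yy, sub_self]
      rw [hQ0]; ring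
    · have hP0 : P.eval (xx n (i, j, k)) = 0 := by
        rw [hP, eval_prod]
        refine Finset.prod_eq_zero (i := (i : ℝ) + n * k) ?_ ?_
        · rw [hT, mem_erase]
          exact ⟨hx, mem_image.2 ⟨(i, k), by simp [hi, hk], rfl⟩⟩
        · simp only [eval_sub, eval_X, eval_C, xx, sub_self]
      rw [hP0]; ring
  · intro hh
    exact absurd hl₀ hh

/-- the descent -/
theorem descent (p q n a u m C S S' R : ℕ) (hp : p.Prime) (hq : q.Prime) (hpq : p ≠ q) (hu : 1 ≤ u)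
    (hR : 1 ≤ R) (τ X Ξ δ : ℝ)
    (hτ0 : 0 ≤ τ) (hτ : (n : ℝ) * Real.log p - a * Real.log q = Real.log u + τ)
    (t : ℕ) (H Z : ℝ) (hH : 0 ≤ H) (hZ : 1 ≤ Z)
    (hZ1 : (2 : ℝ) ^ t * (m + n * C) ≤ Z) (hZ2 : (2 : ℝ) ^ t * (m + a * C) ≤ Z)
    (hδ : 2 ^ t * τ * C ≤ δ)
    (hX : ((2 ^ t * m * (2 ^ t * m * C) : ℕ) : ℝ) * (H * Z ^ (2 * (S + t * S'))) ≤ X)
    (hΞ : 2 ^ t * m * (Real.log p + Real.log q) + C * (2 ^ t * (Real.log u + τ)) ≤ Ξ)
    (hnum : (((8 * R) ^ (R * S') + 1) * (X * Real.exp ((2 * R + 1) * Ξ) * (2 * R * δ)) +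
        (1 / 8) ^ (R * S') * (X * Real.exp (34 * R * Ξ))) * (X * Real.exp (R * Ξ)) ^ 3 < 1)
    (r : ℕ) (hr : r ≤ t) (c : ℕ × ℕ × ℕ → ℤ) (hc0 : ∃ l ∈ bx (2 ^ r * m) C, c l ≠ 0)
    (hcH : ∀ l ∈ bx (2 ^ r * m) C, |(c l : ℝ)| ≤ H)
    (h : Van p q (2 ^ r * n) (2 ^ r * a) (u ^ 2 ^ r) (2 ^ r * m) C (S + r * S') R c) :
    ∃ c : ℕ × ℕ × ℕ → ℤ, (∃ l ∈ bx m C, c l ≠ 0) ∧ Van p q n a u m C S R c := by
  have hlp : 0 ≤ Real.log p := Real.log_nonneg (by exact_mod_cast hp.one_le)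
  have hlq : 0 ≤ Real.log q := Real.log_nonneg (by exact_mod_cast hq.one_le)
  have hlu : 0 ≤ Real.log u := Real.log_nonneg (by exact_mod_cast hu)
  have hX0 : 0 ≤ X := le_trans (by positivity) hX
  have hΞ0 : 0 ≤ Ξ := le_trans (by positivity) hΞ
  have hZ1' : (2 : ℝ) ^ t * m + 2 ^ t * (n * C) ≤ Z := by rw [← mul_add]; exact hZ1
  have hZ2' : (2 : ℝ) ^ t * m + 2 ^ t * (a * C) ≤ Z := by rw [← mul_add]; exact hZ2
  induction r generalizing c with
  | zero =>
    refine ⟨c, by simpa using hc0, ?_⟩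
    simpa using h
  | succ r ih =>
    have h2r : (2 : ℝ) ^ (r + 1) ≤ 2 ^ t := pow_le_pow_right₀ (by norm_num) hr
    have hS : S + (r + 1) * S' = (S + r * S') + S' := by ring
    have h' : Van p q (2 * (2 ^ r * n)) (2 * (2 ^ r * a)) ((u ^ 2 ^ r) ^ 2) (2 * (2 ^ r * m)) C
        ((S + r * S') + S') R c := by
      rw [← hS, ← mul_assoc, ← mul_assoc, ← mul_assoc, ← pow_mul,
        show 2 * 2 ^ r = 2 ^ (r + 1) by ring, show 2 ^ r * 2 = 2 ^ (r + 1) by ring]
      exact h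
    have hbox : 2 * (2 ^ r * m) = 2 ^ (r + 1) * m := by ring
    have hlx : ∀ l ∈ bx (2 ^ (r + 1) * m) C, |xx (2 * (2 ^ r * n)) l| ≤ Z ∧
        |yy (2 * (2 ^ r * a)) l| ≤ Z ∧
        xx (2 * (2 ^ r * n)) l * Real.log p + yy (2 * (2 ^ r * a)) l * Real.log q ≤ Ξ := by
      rintro ⟨i, j, k⟩ hl
      unfold bx at hl
      simp only [mem_product, mem_range] at hl
      obtain ⟨hi, hj, hk⟩ := hl
      have hi' : (i : ℝ) ≤ 2 ^ (r + 1) * m := by exact_mod_cast hi.le
      have hj' : (j : ℝ) ≤ 2 ^ (r + 1) * m := by exact_mod_cast hj.le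
      have hk' : (k : ℝ) ≤ C := by exact_mod_cast hk.le
      have hi'' : (i : ℝ) ≤ 2 ^ t * m := hi'.trans (mul_le_mul_of_nonneg_right h2r (Nat.cast_nonneg _))
      have hj'' : (j : ℝ) ≤ 2 ^ t * m := hj'.trans (mul_le_mul_of_nonneg_right h2r (Nat.cast_nonneg _))
      have e1 : xx (2 * (2 ^ r * n)) (i, j, k) = i + 2 ^ (r + 1) * (n * k) := by
        unfold xx; push_cast; ring
      have e2 : yy (2 * (2 ^ r * a)) (i, j, k) = j - 2 ^ (r + 1) * (a * k) := by
        unfold yy; push_cast; ring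
      have b1 : (2 : ℝ) ^ (r + 1) * (n * k) ≤ 2 ^ t * (n * C) := by gcongr
      have b2 : (2 : ℝ) ^ (r + 1) * (a * k) ≤ 2 ^ t * (a * C) := by gcongr
      have b3 : (0 : ℝ) ≤ 2 ^ (r + 1) * (n * k) := by positivity
      have b4 : (0 : ℝ) ≤ 2 ^ (r + 1) * (a * k) := by positivity
      have b5 : (0 : ℝ) ≤ (i : ℝ) := Nat.cast_nonneg _
      have b6 : (0 : ℝ) ≤ (j : ℝ) := Nat.cast_nonneg _
      refine ⟨?_, ?_, ?_⟩
      · rw [e1, abs_of_nonneg (add_nonneg b5 b3)]
        linarith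
      · rw [e2, abs_le]
        constructor
        · have : (0 : ℝ) ≤ 2 ^ t * m := by positivity
          linarith
        · have : (0 : ℝ) ≤ 2 ^ t * (a * C) := by positivity
          linarith
      · rw [e1, e2]
        have e3 : ((i : ℝ) + 2 ^ (r + 1) * (n * k)) * Real.log p + (j - 2 ^ (r + 1) * (a * k)) * Real.log q
            = i * Real.log p + j * Real.log q + k * (2 ^ (r + 1) * (Real.log u + τ)) := by
          linear_combination (2 ^ (r + 1) * (k : ℝ)) * hτ
        rw [e3]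
        refine le_trans ?_ hΞ
        have b7 : (i : ℝ) * Real.log p ≤ 2 ^ t * m * Real.log p := mul_le_mul_of_nonneg_right hi'' hlp
        have b8 : (j : ℝ) * Real.log q ≤ 2 ^ t * m * Real.log q := mul_le_mul_of_nonneg_right hj'' hlq
        have b9 : (k : ℝ) * (2 ^ (r + 1) * (Real.log u + τ)) ≤ C * (2 ^ t * (Real.log u + τ)) := by
          gcongr
        linarith
    have hstep : ∀ e1 < 2, ∀ e2 < 2, Van p q (2 ^ r * n) (2 ^ r * a) (u ^ 2 ^ r) (2 ^ r * m) C
        (S + r * S') R (fun l => c (sh e1 e2 l)) := by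
      intro e1 he1 e2 he2
      refine step p q (2 ^ r * n) (2 ^ r * a) (u ^ 2 ^ r) (2 ^ r * m) C (S + r * S') S' R hp hq hpq
        (Nat.one_le_pow _ _ hu) hR c h' (2 ^ r * τ) X Ξ δ (by positivity) ?_ ?_ hX0 hΞ0 ?_ ?_ hnum e1 e2 he1 he2
      · push_cast
        rw [Real.log_pow]
        push_cast
        linear_combination (2 : ℝ) ^ r * hτ
      · refine le_trans ?_ hδ
        have : 2 * (2 ^ r * τ) * C = 2 ^ (r + 1) * (τ * C) := by ring
        rw [this, mul_assoc]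
        exact mul_le_mul_of_nonneg_right h2r (by positivity)
      · intro m1 h1 m2 h2
        rw [hbox]
        refine le_trans ?_ hX
        calc ∑ l ∈ bx (2 ^ (r + 1) * m) C, |(c l : ℝ) * (xx (2 * (2 ^ r * n)) l ^ m1 *
              yy (2 * (2 ^ r * a)) l ^ m2)|
            ≤ ∑ l ∈ bx (2 ^ (r + 1) * m) C, H * Z ^ (2 * (S + t * S')) := by
              refine Finset.sum_le_sum fun l hl => ?_
              obtain ⟨z1, z2, -⟩ := hlx l hl
              rw [abs_mul, abs_mul, abs_pow, abs_pow]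
              refine mul_le_mul (hcH l hl) ?_ (by positivity) hH
              have hrt : r * S' ≤ t * S' := Nat.mul_le_mul_right _ (by omega)
              calc |xx (2 * (2 ^ r * n)) l| ^ m1 * |yy (2 * (2 ^ r * a)) l| ^ m2
                  ≤ Z ^ m1 * Z ^ m2 := mul_le_mul (pow_le_pow_left₀ (abs_nonneg _) z1 _)
                    (pow_le_pow_left₀ (abs_nonneg _) z2 _) (by positivity) (by positivity)
                _ = Z ^ (m1 + m2) := by rw [pow_add]
                _ ≤ Z ^ (2 * (S + t * S')) := pow_le_pow_right₀ hZ (by omega)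
          _ = ((bx (2 ^ (r + 1) * m) C).card : ℝ) * (H * Z ^ (2 * (S + t * S'))) := by
              rw [Finset.sum_const, nsmul_eq_mul]
          _ ≤ _ := by
              refine mul_le_mul_of_nonneg_right ?_ (by positivity)
              rw [card_bx]
              have : 2 ^ (r + 1) * m ≤ 2 ^ t * m := Nat.mul_le_mul_right _ (Nat.pow_le_pow_right (by norm_num) hr)
              exact_mod_cast Nat.mul_le_mul this (Nat.mul_le_mul_right _ this)
      · intro l hl
        rw [hbox] at hl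
        exact (hlx l hl).2.2
    -- a nonzero class
    obtain ⟨⟨i, j, k⟩, hl, hlc⟩ := hc0
    have hl' := hl
    unfold bx at hl'
    simp only [mem_product, mem_range] at hl'
    obtain ⟨hi, hj, hk⟩ := hl'
    have hib : i / 2 < 2 ^ r * m := by
      rw [Nat.div_lt_iff_lt_mul (by norm_num)]
      calc i < 2 ^ (r + 1) * m := hi
        _ = _ := by ring
    have hjb : j / 2 < 2 ^ r * m := by
      rw [Nat.div_lt_iff_lt_mul (by norm_num)]
      calc j < 2 ^ (r + 1) * m := hj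
        _ = _ := by ring
    refine ih (by omega) (fun l => c (sh (i % 2) (j % 2) l)) ⟨(i / 2, j / 2, k), ?_, ?_⟩ ?_
      (hstep _ (Nat.mod_lt _ (by norm_num)) _ (Nat.mod_lt _ (by norm_num)))
    · unfold bx
      simp only [mem_product, mem_range]
      exact ⟨hib, hjb, hk⟩
    · have : sh (i % 2) (j % 2) (i / 2, j / 2, k) = (i, j, k) := by
        unfold sh
        simp only [Prod.mk.injEq, and_true]
        exact ⟨Nat.div_add_mod i 2, Nat.div_add_mod j 2⟩
      rw [this]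
      exact hlc
    · rintro ⟨i', j', k'⟩ hl2
      refine hcH _ ?_
      unfold bx at hl2 ⊢
      simp only [mem_product, mem_range] at hl2
      obtain ⟨hi2, hj2, hk2⟩ := hl2
      have hm1 := Nat.mod_lt i (show 0 < 2 by norm_num)
      have hm2 := Nat.mod_lt j (show 0 < 2 by norm_num)
      simp only [sh, mem_product, mem_range]
      have e5 : 2 ^ (r + 1) * m = 2 * (2 ^ r * m) := by ring
      rw [e5]
      refine ⟨by omega, by omega, hk2⟩

end Pool.Agent.H24.Opn.Bak
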