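import Mathlib

/-!
A Liouville inequality for `a + b √p + c √q + d √p √q`.
-/

namespace Pool.Agent.H24.Opn.Liou

lemma ns (m : ℕ) (hm : ¬ IsSquare m) (x y : ℤ) (h : x ^ 2 = m * y ^ 2) : x = 0 ∧ y = 0 := by
  by_cases hy : y = 0
  · subst hy
    simp at h
    exact ⟨h, rfl⟩
  · exfalso
    have hirr : Irrational (√(m : ℝ)) := irrational_sqrt_natCast_iff.2 hm
    apply hirr
    refine ⟨|(x : ℚ) / y|, ?_⟩
    have hy' : (y : ℝ) ≠ 0 := by exact_mod_cast hy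
    have h1 : ((x : ℝ) / y) ^ 2 = m := by
      rw [div_pow, div_eq_iff (pow_ne_zero 2 hy')]
      exact_mod_cast h
    rw [← h1, Real.sqrt_sq_eq_abs]
    push_cast
    rfl

lemma prime_not_sq {p : ℕ} (hp : p.Prime) : ¬ IsSquare p := by
  intro h
  exact hp.prime.not_isSquare h

lemma prod_not_sq {p q : ℕ} (hp : p.Prime) (hq : q.Prime) (hpq : p ≠ q) : ¬ IsSquare (p * q) := by
  rintro ⟨r, hr⟩
  have h1 : p ∣ r * r := by rw [← hr]; exact dvd_mul_right _ _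
  have h2 : p ∣ r := by rcases hp.dvd_mul.1 h1 with h | h <;> exact h
  obtain ⟨s, rfl⟩ := h2
  have h3 : q = p * (s * s) := by
    have : p * q = p * (p * (s * s)) := by rw [hr]; ring
    exact Nat.eq_of_mul_eq_mul_left hp.pos this
  have h4 : p ∣ q := ⟨_, h3⟩
  exact hpq ((Nat.prime_dvd_prime_iff_eq hp hq).1 h4)

theorem liou (p q : ℕ) (hp : p.Prime) (hq : q.Prime) (hpq : p ≠ q) (a b c d : ℤ) (X : ℝ)
    (hX : |(a : ℝ)| + |(b : ℝ)| * √p + |(c : ℝ)| * √q + |(d : ℝ)| * (√p * √q) ≤ X)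
    (h : |(a : ℝ) + b * √p + c * √q + d * (√p * √q)| * X ^ 3 < 1) :
    a = 0 ∧ b = 0 ∧ c = 0 ∧ d = 0 := by
  set sp := √(p : ℝ) with hsp
  set sq := √(q : ℝ) with hsq
  have hsp2 : sp ^ 2 = p := Real.sq_sqrt (Nat.cast_nonneg _)
  have hsq2 : sq ^ 2 = q := Real.sq_sqrt (Nat.cast_nonneg _)
  have hsp0 : 0 ≤ sp := Real.sqrt_nonneg _
  have hsq0 : 0 ≤ sq := Real.sqrt_nonneg _
  have hX0 : 0 ≤ X := le_trans (by positivity) hX
  -- the four conjugates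
  have b1 : |(a : ℝ) - b * sp + c * sq - d * (sp * sq)| ≤ X := by
    refine le_trans ?_ hX
    have t1 : |(b : ℝ) * sp| = |(b : ℝ)| * sp := by rw [abs_mul, abs_of_nonneg hsp0]
    have t2 : |(c : ℝ) * sq| = |(c : ℝ)| * sq := by rw [abs_mul, abs_of_nonneg hsq0]
    have t3 : |(d : ℝ) * (sp * sq)| = |(d : ℝ)| * (sp * sq) := by
      rw [abs_mul, abs_of_nonneg (mul_nonneg hsp0 hsq0)]
    rw [← t1, ← t2, ← t3]
    have := abs_sub ((a : ℝ) - b * sp + c * sq) (d * (sp * sq))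
    have := abs_add_le ((a : ℝ) - b * sp) (c * sq)
    have := abs_sub (a : ℝ) (b * sp)
    linarith
  have b2 : |(a : ℝ) + b * sp - c * sq - d * (sp * sq)| ≤ X := by
    refine le_trans ?_ hX
    have t1 : |(b : ℝ) * sp| = |(b : ℝ)| * sp := by rw [abs_mul, abs_of_nonneg hsp0]
    have t2 : |(c : ℝ) * sq| = |(c : ℝ)| * sq := by rw [abs_mul, abs_of_nonneg hsq0]
    have t3 : |(d : ℝ) * (sp * sq)| = |(d : ℝ)| * (sp * sq) := by
      rw [abs_mul, abs_of_nonneg (mul_nonneg hsp0 hsq0)]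
    rw [← t1, ← t2, ← t3]
    have := abs_sub ((a : ℝ) + b * sp - c * sq) (d * (sp * sq))
    have := abs_sub ((a : ℝ) + b * sp) (c * sq)
    have := abs_add_le (a : ℝ) (b * sp)
    linarith
  have b3 : |(a : ℝ) - b * sp - c * sq + d * (sp * sq)| ≤ X := by
    refine le_trans ?_ hX
    have t1 : |(b : ℝ) * sp| = |(b : ℝ)| * sp := by rw [abs_mul, abs_of_nonneg hsp0]
    have t2 : |(c : ℝ) * sq| = |(c : ℝ)| * sq := by rw [abs_mul, abs_of_nonneg hsq0]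
    have t3 : |(d : ℝ) * (sp * sq)| = |(d : ℝ)| * (sp * sq) := by
      rw [abs_mul, abs_of_nonneg (mul_nonneg hsp0 hsq0)]
    rw [← t1, ← t2, ← t3]
    have := abs_add_le ((a : ℝ) - b * sp - c * sq) (d * (sp * sq))
    have := abs_sub ((a : ℝ) - b * sp) (c * sq)
    have := abs_sub (a : ℝ) (b * sp)
    linarith
  set U : ℤ := a ^ 2 + p * b ^ 2 - q * c ^ 2 - p * q * d ^ 2 with hU
  set V : ℤ := 2 * a * b - 2 * q * c * d with hV
  have hN : (((U ^ 2 - p * V ^ 2 : ℤ)) : ℝ) =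
      ((a : ℝ) + b * sp + c * sq + d * (sp * sq)) * (((a : ℝ) - b * sp + c * sq - d * (sp * sq)) *
      (((a : ℝ) + b * sp - c * sq - d * (sp * sq)) * ((a : ℝ) - b * sp - c * sq + d * (sp * sq)))) := by
    rw [hU, hV]
    push_cast
    rw [← hsp2, ← hsq2]
    ring
  have hlt : |(((U ^ 2 - p * V ^ 2 : ℤ)) : ℝ)| < 1 := by
    rw [hN, abs_mul, abs_mul, abs_mul]
    refine lt_of_le_of_lt ?_ h
    refine mul_le_mul_of_nonneg_left ?_ (abs_nonneg _)
    calc _ ≤ X * (X * X) := mul_le_mul b1 (mul_le_mul b2 b3 (abs_nonneg _) hX0)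
          (mul_nonneg (abs_nonneg _) (abs_nonneg _)) hX0
      _ = X ^ 3 := by ring
  have hN0 : U ^ 2 - p * V ^ 2 = 0 := by
    have : |U ^ 2 - p * V ^ 2| < 1 := by exact_mod_cast hlt
    exact Int.abs_lt_one_iff.1 this
  obtain ⟨hU0, hV0⟩ := ns p (prime_not_sq hp) U V (by linarith)
  have e1 : a ^ 2 + p * b ^ 2 = q * (c ^ 2 + p * d ^ 2) := by rw [hU] at hU0; linarith
  have e2 : a * b = q * (c * d) := by rw [hV] at hV0; linarith
  have e3 : (a ^ 2 - p * b ^ 2) ^ 2 = (q * (c ^ 2 - p * d ^ 2)) ^ 2 := by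
    have : (a ^ 2 - p * b ^ 2) ^ 2 = (a ^ 2 + p * b ^ 2) ^ 2 - 4 * p * (a * b) ^ 2 := by ring
    rw [this, e1, e2]; ring
  rcases sq_eq_sq_iff_eq_or_eq_neg.1 e3 with h4 | h4
  · have h5 : a ^ 2 = q * c ^ 2 := by linarith
    have h6 : (b ^ 2 : ℤ) = q * d ^ 2 := by
      have : (p : ℤ) * b ^ 2 = p * (q * d ^ 2) := by linarith
      exact mul_left_cancel₀ (by exact_mod_cast hp.ne_zero) this
    obtain ⟨r1, r2⟩ := ns q (prime_not_sq hq) a c h5
    obtain ⟨r3, r4⟩ := ns q (prime_not_sq hq) b d h6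
    exact ⟨r1, r3, r2, r4⟩
  · have h5 : a ^ 2 = ((p * q : ℕ) : ℤ) * d ^ 2 := by push_cast; linarith
    have h6 : ((p : ℤ) * b) ^ 2 = ((p * q : ℕ) : ℤ) * c ^ 2 := by
      push_cast
      have : (p : ℤ) * b ^ 2 = q * c ^ 2 := by linarith
      calc ((p : ℤ) * b) ^ 2 = p * (p * b ^ 2) := by ring
        _ = _ := by rw [this]; ring
    obtain ⟨r1, r2⟩ := ns _ (prod_not_sq hp hq hpq) a d h5
    obtain ⟨r3, r4⟩ := ns _ (prod_not_sq hp hq hpq) _ c h6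
    have r5 : b = 0 := by
      rcases mul_eq_zero.1 r3 with h | h
      · exact absurd (by exact_mod_cast h) hp.ne_zero
      · exact h
    exact ⟨r1, r5, r4, r2⟩

end Pool.Agent.H24.Opn.Liou
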