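import Pool.Agent.H24.Opn.Extr
import Pool.Agent.H24.Opn.Liou

/-!
One step of the descent: from vanishing at odd integers to vanishing at half odd integers,
and separation of the parities of the exponents of `p` and `q`.
-/

namespace Pool.Agent.H24.Opn.Bak

open Finset Polynomial

/-- the box -/
def bx (m C : ℕ) : Finset (ℕ × ℕ × ℕ) := range m ×ˢ (range m ×ˢ range C)

/-- first coordinate -/
noncomputable def xx (N : ℕ) (l : ℕ × ℕ × ℕ) : ℝ := l.1 + N * l.2.2

/-- second coordinate -/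
noncomputable def yy (A : ℕ) (l : ℕ × ℕ × ℕ) : ℝ := l.2.1 - A * l.2.2

/-- the number attached to an index -/
def ww (p q v : ℕ) (l : ℕ × ℕ × ℕ) : ℕ := p ^ l.1 * q ^ l.2.1 * v ^ l.2.2

/-- the vanishing condition -/
def Van (p q N A v m C S R : ℕ) (c : ℕ × ℕ × ℕ → ℤ) : Prop :=
  ∀ P Q : ℝ[X], P.natDegree < S → Q.natDegree < S → ∀ r < R,
    ∑ l ∈ bx m C, (c l : ℝ) * (P.eval (xx N l) * Q.eval (yy A l)) * (ww p q v l : ℝ) ^ (2 * r + 1) = 0

lemma poly_of_mono {ι : Type*} (T : Finset ι) (c x y w : ι → ℝ) (S : ℕ)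
    (h : ∀ i < S, ∀ j < S, ∑ l ∈ T, c l * (x l ^ i * y l ^ j) * w l = 0)
    (P Q : ℝ[X]) (hP : P.natDegree < S) (hQ : Q.natDegree < S) :
    ∑ l ∈ T, c l * (P.eval (x l) * Q.eval (y l)) * w l = 0 := by
  have e : ∀ l, c l * (P.eval (x l) * Q.eval (y l)) * w l =
      ∑ i ∈ range S, ∑ j ∈ range S, P.coeff i * Q.coeff j * (c l * (x l ^ i * y l ^ j) * w l) := by
    intro l
    rw [eval_eq_sum_range' hP, eval_eq_sum_range' hQ, Finset.sum_mul_sum, Finset.mul_sum,
      Finset.sum_mul]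
    refine Finset.sum_congr rfl fun i _ => ?_
    rw [Finset.mul_sum, Finset.sum_mul]
    refine Finset.sum_congr rfl fun j _ => ?_
    ring
  rw [Finset.sum_congr rfl fun l _ => e l, Finset.sum_comm]
  refine Finset.sum_eq_zero fun i hi => ?_
  rw [Finset.sum_comm]
  refine Finset.sum_eq_zero fun j hj => ?_
  rw [← Finset.mul_sum, h i (mem_range.1 hi) j (mem_range.1 hj), mul_zero]

lemma sum_range_two {β : Type*} [AddCommMonoid β] (m : ℕ) (F : ℕ → β) :
    ∑ i ∈ range (2 * m), F i = ∑ i ∈ range m, (F (2 * i) + F (2 * i + 1)) := by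
  induction m with
  | zero => simp
  | succ m ih =>
    rw [show 2 * (m + 1) = 2 * m + 1 + 1 by ring, sum_range_succ, sum_range_succ, ih, sum_range_succ,
      add_assoc]

lemma sum_box_two {β : Type*} [AddCommMonoid β] (m C : ℕ) (F : ℕ × ℕ × ℕ → β) :
    ∑ l ∈ bx (2 * m) C, F l = ∑ l ∈ bx m C, ((F (2 * l.1, 2 * l.2.1, l.2.2) +
      F (2 * l.1 + 1, 2 * l.2.1, l.2.2)) + (F (2 * l.1, 2 * l.2.1 + 1, l.2.2) +
      F (2 * l.1 + 1, 2 * l.2.1 + 1, l.2.2))) := by
  unfold bx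
  rw [sum_product, sum_product, sum_range_two]
  refine sum_congr rfl fun i _ => ?_
  rw [sum_product, sum_product, sum_product, sum_range_two, sum_range_two, ← sum_add_distrib]
  refine sum_congr rfl fun j _ => ?_
  simp only [← sum_add_distrib]
  refine sum_congr rfl fun k _ => ?_
  abel

lemma pow_binom_van (p q N A v m C S S' R : ℕ) (c : ℕ × ℕ × ℕ → ℤ)
    (h : Van p q N A v m C (S + S') R c) (α β : ℝ) (m1 m2 s r : ℕ) (h1 : m1 < S) (h2 : m2 < S)
    (hs : s < S') (hr : r < R) :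
    ∑ l ∈ bx m C, (c l : ℝ) * (xx N l ^ m1 * yy A l ^ m2) * (xx N l * α + yy A l * β) ^ s *
      (ww p q v l : ℝ) ^ (2 * r + 1) = 0 := by
  have e : ∀ l, (c l : ℝ) * (xx N l ^ m1 * yy A l ^ m2) * (xx N l * α + yy A l * β) ^ s *
      (ww p q v l : ℝ) ^ (2 * r + 1) =
      ∑ j ∈ range (s + 1), (α ^ j * β ^ (s - j) * (s.choose j)) *
        ((c l : ℝ) * ((X ^ (m1 + j) : ℝ[X]).eval (xx N l) * (X ^ (m2 + (s - j)) : ℝ[X]).eval (yy A l)) *
          (ww p q v l : ℝ) ^ (2 * r + 1)) := by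
    intro l
    rw [add_pow, Finset.mul_sum, Finset.sum_mul]
    refine Finset.sum_congr rfl fun j _ => ?_
    simp only [eval_pow, eval_X]
    rw [mul_pow, mul_pow, pow_add, pow_add]
    ring
  rw [Finset.sum_congr rfl fun l _ => e l, Finset.sum_comm]
  refine Finset.sum_eq_zero fun j hj => ?_
  have hj' := mem_range.1 hj
  rw [← Finset.mul_sum, h (X ^ (m1 + j)) (X ^ (m2 + (s - j))) ?_ ?_ r hr, mul_zero]
  · rw [natDegree_X_pow]; omega
  · rw [natDegree_X_pow]; omega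

/-- the analytic part of the step -/
theorem small_half (p q N A v m C S S' R : ℕ) (hp : p.Prime) (hq : q.Prime) (hv : 1 ≤ v) (hR : 1 ≤ R)
    (c : ℕ × ℕ × ℕ → ℤ) (h : Van p q N A v m C (S + S') R c) (τ X Ξ δ : ℝ)
    (hτ0 : 0 ≤ τ) (hτ : (N : ℝ) * Real.log p - A * Real.log q = Real.log v + τ)
    (hδ : τ * C ≤ δ) (hX0 : 0 ≤ X) (hΞ0 : 0 ≤ Ξ)
    (hX : ∀ m1 < S, ∀ m2 < S, ∑ l ∈ bx m C, |(c l : ℝ) * (xx N l ^ m1 * yy A l ^ m2)| ≤ X)
    (hΞ : ∀ l ∈ bx m C, xx N l * Real.log p + yy A l * Real.log q ≤ Ξ)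
    (m1 m2 r : ℕ) (h1 : m1 < S) (h2 : m2 < S) (hr : r < R) :
    |∑ l ∈ bx m C, (c l : ℝ) * (xx N l ^ m1 * yy A l ^ m2) * (√(ww p q v l : ℝ)) ^ (2 * r + 1)| ≤
      ((8 * R) ^ (R * S') + 1) * (X * Real.exp ((2 * R + 1) * Ξ) * (2 * R * δ)) +
        (1 / 8) ^ (R * S') * (X * Real.exp (34 * R * Ξ)) := by
  have hR' : (1 : ℝ) ≤ R := by exact_mod_cast hR
  have hδ0 : 0 ≤ δ := le_trans (by positivity) hδ
  set W : ℕ × ℕ × ℕ → ℝ := fun l => (c l : ℝ) * (xx N l ^ m1 * yy A l ^ m2) with hW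
  set ξ' : ℕ × ℕ × ℕ → ℝ := fun l => xx N l * Real.log p + yy A l * Real.log q with hξ'
  set ξ : ℕ × ℕ × ℕ → ℝ := fun l => l.1 * Real.log p + l.2.1 * Real.log q + l.2.2 * Real.log v with hξ
  have hlp : 0 ≤ Real.log p := Real.log_nonneg (by exact_mod_cast hp.one_le)
  have hlq : 0 ≤ Real.log q := Real.log_nonneg (by exact_mod_cast hq.one_le)
  have hlv : 0 ≤ Real.log v := Real.log_nonneg (by exact_mod_cast hv)
  have hξ0 : ∀ l, 0 ≤ ξ l := fun l => by rw [hξ]; positivity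
  have hdiff : ∀ l, ξ' l = ξ l + l.2.2 * τ := by
    intro l
    simp only [hξ', hξ, xx, yy]
    linear_combination (l.2.2 : ℝ) * hτ
  have hle : ∀ l, ξ l ≤ ξ' l := fun l => by rw [hdiff l]; have : 0 ≤ (l.2.2 : ℝ) * τ := by positivity
                                            linarith
  have hexp : ∀ l, Real.exp (ξ l) = (ww p q v l : ℝ) := by
    intro l
    simp only [hξ, ww]
    rw [Real.exp_add, Real.exp_add, Real.exp_nat_mul, Real.exp_nat_mul, Real.exp_nat_mul,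
      Real.exp_log (by exact_mod_cast hp.pos), Real.exp_log (by exact_mod_cast hq.pos),
      Real.exp_log (by exact_mod_cast hv)]
    push_cast
    ring
  have hdl : ∀ l ∈ bx m C, ξ' l - ξ l ≤ δ := by
    intro l hl
    rw [hdiff l]
    have hk : l.2.2 < C := by
      unfold bx at hl
      simp only [mem_product, mem_range] at hl
      exact hl.2.2
    have : (l.2.2 : ℝ) * τ ≤ C * τ := mul_le_mul_of_nonneg_right (by exact_mod_cast hk.le) hτ0
    linarith
  -- difference of exponentials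
  have hed : ∀ l ∈ bx m C, ∀ t : ℝ, 0 ≤ t → t ≤ 2 * R →
      |Real.exp (ξ' l * t) - Real.exp (ξ l * t)| ≤ Real.exp (2 * R * Ξ) * (2 * R * δ) := by
    intro l hl t ht0 ht
    have h3 : ξ l * t ≤ ξ' l * t := mul_le_mul_of_nonneg_right (hle l) ht0
    have h4 : 0 ≤ Real.exp (ξ' l * t) - Real.exp (ξ l * t) := by
      have := Real.exp_le_exp.2 h3
      linarith
    rw [abs_of_nonneg h4]
    have h5 : Real.exp (ξ l * t) = Real.exp (ξ' l * t) * Real.exp (-((ξ' l - ξ l) * t)) := by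
      rw [← Real.exp_add]; congr 1; ring
    have h6 := Real.add_one_le_exp (-((ξ' l - ξ l) * t))
    have h7 : Real.exp (ξ' l * t) - Real.exp (ξ l * t) ≤ Real.exp (ξ' l * t) * ((ξ' l - ξ l) * t) := by
      rw [h5]
      nlinarith [Real.exp_pos (ξ' l * t)]
    refine h7.trans ?_
    have h8 : ξ' l * t ≤ 2 * R * Ξ := by
      have := hΞ l hl
      calc ξ' l * t ≤ Ξ * t := mul_le_mul_of_nonneg_right this ht0
        _ ≤ Ξ * (2 * R) := mul_le_mul_of_nonneg_left ht hΞ0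
        _ = _ := by ring
    have h9 : (ξ' l - ξ l) * t ≤ 2 * R * δ := by
      have h10 : 0 ≤ ξ' l - ξ l := by linarith [hle l]
      calc (ξ' l - ξ l) * t ≤ δ * (2 * R) := mul_le_mul (hdl l hl) ht ht0 hδ0
        _ = _ := by ring
    exact mul_le_mul (Real.exp_le_exp.2 h8) h9 (mul_nonneg (by linarith [hle l]) ht0) (Real.exp_pos _).le
  set ε : ℝ := X * Real.exp ((2 * R + 1) * Ξ) * (2 * R * δ) with hε
  have hε0 : 0 ≤ ε := by positivity
  set f : ℂ → ℂ := fun z => ∑ l ∈ bx m C, ((W l : ℝ) : ℂ) * Complex.exp (((ξ' l : ℝ) : ℂ) * z) with hf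
  have hfd : Differentiable ℂ f := by rw [hf]; fun_prop
  have hWX : ∑ l ∈ bx m C, |W l| ≤ X := hX m1 h1 m2 h2
  -- bound on the circle
  have hB : ∀ z, ‖z‖ = 34 * (R : ℝ) → ‖f z‖ ≤ X * Real.exp (34 * R * Ξ) := by
    intro z hz
    rw [hf]
    refine (norm_sum_le _ _).trans ?_
    calc ∑ l ∈ bx m C, ‖((W l : ℝ) : ℂ) * Complex.exp (((ξ' l : ℝ) : ℂ) * z)‖
        ≤ ∑ l ∈ bx m C, |W l| * Real.exp (34 * R * Ξ) := by
          refine Finset.sum_le_sum fun l hl => ?_
          rw [norm_mul, Complex.norm_real, Real.norm_eq_abs, Complex.norm_exp]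
          refine mul_le_mul_of_nonneg_left (Real.exp_le_exp.2 ?_) (abs_nonneg _)
          rw [Complex.re_ofReal_mul]
          have h3 : z.re ≤ 34 * R := (Complex.re_le_norm z).trans hz.le
          calc ξ' l * z.re ≤ ξ' l * (34 * R) := mul_le_mul_of_nonneg_left h3 ((hξ0 l).trans (hle l))
            _ ≤ Ξ * (34 * R) := mul_le_mul_of_nonneg_right (hΞ l hl) (by positivity)
            _ = _ := by ring
      _ = (∑ l ∈ bx m C, |W l|) * Real.exp (34 * R * Ξ) := by rw [Finset.sum_mul]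
      _ ≤ _ := mul_le_mul_of_nonneg_right hWX (Real.exp_pos _).le
  -- the Taylor coefficients
  have htc : ∀ r' < R, ∀ s < (fun _ => S') r', ‖Extr.tc f (Extr.nd r') s‖ ≤ ε := by
    intro r' hr' s hs
    have h3 := Extr.tc_exp (bx m C) (fun l => ((W l : ℝ) : ℂ)) (fun l => ((ξ' l : ℝ) : ℂ))
      (Extr.nd r') s
    rw [← hf] at h3
    rw [h3]
    have h4 : ∑ l ∈ bx m C, W l * (ξ' l ^ s / (s.factorial : ℝ) * Real.exp (ξ l * (2 * r' + 1))) = 0 := by
      have h5 := pow_binom_van p q N A v m C S S' R c h (Real.log p) (Real.log q) m1 m2 s r' h1 h2 hs hr'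
      have h6 : ∑ l ∈ bx m C, W l * (ξ' l ^ s / (s.factorial : ℝ) * Real.exp (ξ l * (2 * r' + 1))) =
          (1 / (s.factorial : ℝ)) * ∑ l ∈ bx m C, (c l : ℝ) * (xx N l ^ m1 * yy A l ^ m2) *
            (xx N l * Real.log p + yy A l * Real.log q) ^ s * (ww p q v l : ℝ) ^ (2 * r' + 1) := by
        rw [Finset.mul_sum]
        refine Finset.sum_congr rfl fun l _ => ?_
        have h7 : Real.exp (ξ l * (2 * r' + 1)) = (ww p q v l : ℝ) ^ (2 * r' + 1) := by
          rw [← hexp l, ← Real.exp_nat_mul]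
          congr 1
          push_cast
          ring
        rw [h7]
        simp only [hW, hξ']
        ring
      rw [h6, h5, mul_zero]
    have h8 : ∑ l ∈ bx m C, ((W l : ℝ) : ℂ) * (((ξ' l : ℝ) : ℂ) ^ s / (s.factorial : ℂ) *
        Complex.exp (((ξ' l : ℝ) : ℂ) * Extr.nd r')) =
        ((∑ l ∈ bx m C, W l * (ξ' l ^ s / (s.factorial : ℝ) *
          (Real.exp (ξ' l * (2 * r' + 1)) - Real.exp (ξ l * (2 * r' + 1)))) : ℝ) : ℂ) := by
      have h9 : ∑ l ∈ bx m C, W l * (ξ' l ^ s / (s.factorial : ℝ) *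
          (Real.exp (ξ' l * (2 * r' + 1)) - Real.exp (ξ l * (2 * r' + 1)))) =
          ∑ l ∈ bx m C, W l * (ξ' l ^ s / (s.factorial : ℝ) * Real.exp (ξ' l * (2 * r' + 1))) := by
        rw [← sub_zero (∑ l ∈ bx m C, W l * (ξ' l ^ s / (s.factorial : ℝ) *
          Real.exp (ξ' l * (2 * r' + 1)))), ← h4, ← Finset.sum_sub_distrib]
        refine Finset.sum_congr rfl fun l _ => ?_
        ring
      rw [h9]
      push_cast
      refine Finset.sum_congr rfl fun l _ => ?_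
      simp only [Extr.nd]
    rw [h8, Complex.norm_real, Real.norm_eq_abs]
    refine (Finset.abs_sum_le_sum_abs _ _).trans ?_
    calc ∑ l ∈ bx m C, |W l * (ξ' l ^ s / (s.factorial : ℝ) *
          (Real.exp (ξ' l * (2 * r' + 1)) - Real.exp (ξ l * (2 * r' + 1))))|
        ≤ ∑ l ∈ bx m C, |W l| * (Real.exp Ξ * (Real.exp (2 * R * Ξ) * (2 * R * δ))) := by
          refine Finset.sum_le_sum fun l hl => ?_
          rw [abs_mul (W l), abs_mul (ξ' l ^ s / (s.factorial : ℝ))]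
          refine mul_le_mul_of_nonneg_left ?_ (abs_nonneg _)
          have hx0 : 0 ≤ ξ' l := (hξ0 l).trans (hle l)
          have h10 : |ξ' l ^ s / (s.factorial : ℝ)| ≤ Real.exp Ξ := by
            rw [abs_of_nonneg (by positivity)]
            exact (Real.pow_div_factorial_le_exp _ hx0 s).trans (Real.exp_le_exp.2 (hΞ l hl))
          have h11 : (2 * (r' : ℝ) + 1) ≤ 2 * R := by
            have : 2 * r' + 1 ≤ 2 * R := by omega
            exact_mod_cast this
          exact mul_le_mul h10 (hed l hl _ (by positivity) h11) (abs_nonneg _) (Real.exp_pos _).le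
      _ = (∑ l ∈ bx m C, |W l|) * (Real.exp Ξ * (Real.exp (2 * R * Ξ) * (2 * R * δ))) := by
          rw [Finset.sum_mul]
      _ ≤ X * (Real.exp Ξ * (Real.exp (2 * R * Ξ) * (2 * R * δ))) :=
          mul_le_mul_of_nonneg_right hWX (by positivity)
      _ = ε := by
          rw [hε, show ((2 * (R : ℝ) + 1) * Ξ) = Ξ + 2 * R * Ξ by ring, Real.exp_add]
          ring
  have hmain := Extr.extrap R hR (34 * R) le_rfl ε hε0 (R * S') (fun _ => S') (by simp) f hfd _ hB htc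
    (((2 * r + 1 : ℝ) / 2 : ℝ) : ℂ) (by
      rw [Complex.norm_real, Real.norm_eq_abs, abs_of_nonneg (by positivity)]
      have : 2 * (r : ℝ) + 1 ≤ 2 * R := by
        have : 2 * r + 1 ≤ 2 * R := by omega
        exact_mod_cast this
      linarith)
  -- compare with the sum of square roots
  have hcmp : ‖((∑ l ∈ bx m C, W l * (√(ww p q v l : ℝ)) ^ (2 * r + 1) : ℝ) : ℂ) -
      f (((2 * r + 1 : ℝ) / 2 : ℝ) : ℂ)‖ ≤ ε := by
    have h12 : ((∑ l ∈ bx m C, W l * (√(ww p q v l : ℝ)) ^ (2 * r + 1) : ℝ) : ℂ) -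
        f (((2 * r + 1 : ℝ) / 2 : ℝ) : ℂ) =
        ((∑ l ∈ bx m C, W l * (Real.exp (ξ l * ((2 * r + 1) / 2)) -
          Real.exp (ξ' l * ((2 * r + 1) / 2))) : ℝ) : ℂ) := by
      rw [hf]
      push_cast
      rw [← Finset.sum_sub_distrib]
      refine Finset.sum_congr rfl fun l _ => ?_
      have h13 : (√(ww p q v l : ℝ)) ^ (2 * r + 1) = Real.exp (ξ l * ((2 * r + 1) / 2)) := by
        rw [← hexp l, ← Real.exp_half, ← Real.exp_nat_mul]
        congr 1
        push_cast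
        ring
      have h14 : ((√(ww p q v l : ℝ) : ℝ) : ℂ) ^ (2 * r + 1) =
          Complex.exp (((ξ l : ℝ) : ℂ) * ((2 * (r : ℂ) + 1) / 2)) := by
        rw [← Complex.ofReal_pow, h13]
        push_cast
        rfl
      rw [h14]
      ring
    rw [h12, Complex.norm_real, Real.norm_eq_abs]
    refine (Finset.abs_sum_le_sum_abs _ _).trans ?_
    calc ∑ l ∈ bx m C, |W l * (Real.exp (ξ l * ((2 * r + 1) / 2)) -
          Real.exp (ξ' l * ((2 * r + 1) / 2)))|
        ≤ ∑ l ∈ bx m C, |W l| * (Real.exp (2 * R * Ξ) * (2 * R * δ)) := by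
          refine Finset.sum_le_sum fun l hl => ?_
          rw [abs_mul (W l), abs_sub_comm]
          refine mul_le_mul_of_nonneg_left ?_ (abs_nonneg _)
          refine hed l hl _ (by positivity) ?_
          have : 2 * (r : ℝ) + 1 ≤ 2 * R := by
            have : 2 * r + 1 ≤ 2 * R := by omega
            exact_mod_cast this
          linarith
      _ = (∑ l ∈ bx m C, |W l|) * (Real.exp (2 * R * Ξ) * (2 * R * δ)) := by rw [Finset.sum_mul]
      _ ≤ X * (Real.exp (2 * R * Ξ) * (2 * R * δ)) := mul_le_mul_of_nonneg_right hWX (by positivity)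
      _ ≤ X * (Real.exp ((2 * R + 1) * Ξ) * (2 * R * δ)) := by
          have : Real.exp (2 * R * Ξ) ≤ Real.exp ((2 * R + 1) * Ξ) := Real.exp_le_exp.2 (by nlinarith)
          gcongr
      _ = ε := by rw [hε]; ring
  have h15 : ‖((∑ l ∈ bx m C, W l * (√(ww p q v l : ℝ)) ^ (2 * r + 1) : ℝ) : ℂ)‖ ≤
      ε + ((8 * R) ^ (R * S') * ε + (1 / 8) ^ (R * S') * (X * Real.exp (34 * R * Ξ))) := by
    have := norm_sub_norm_le ((∑ l ∈ bx m C, W l * (√(ww p q v l : ℝ)) ^ (2 * r + 1) : ℝ) : ℂ)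
      (f (((2 * r + 1 : ℝ) / 2 : ℝ) : ℂ))
    linarith
  rw [Complex.norm_real, Real.norm_eq_abs] at h15
  refine h15.trans (le_of_eq ?_)
  ring

end Pool.Agent.H24.Opn.Bak
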