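import Pool.Agent.H24.Opn.BakStep

/-!
One step of the descent, arithmetic part.
-/

namespace Pool.Agent.H24.Opn.Bak

open Finset Polynomial

/-- integer coordinates -/
def xi (N : ℕ) (l : ℕ × ℕ × ℕ) : ℤ := l.1 + N * l.2.2

/-- integer coordinates -/
def yi (A : ℕ) (l : ℕ × ℕ × ℕ) : ℤ := l.2.1 - A * l.2.2

lemma xi_cast (N : ℕ) (l : ℕ × ℕ × ℕ) : ((xi N l : ℤ) : ℝ) = xx N l := by
  unfold xi xx; push_cast; ring

lemma yi_cast (A : ℕ) (l : ℕ × ℕ × ℕ) : ((yi A l : ℤ) : ℝ) = yy A l := by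
  unfold yi yy; push_cast; ring

/-- the four parity classes -/
def sh (e1 e2 : ℕ) (l : ℕ × ℕ × ℕ) : ℕ × ℕ × ℕ := (2 * l.1 + e1, 2 * l.2.1 + e2, l.2.2)

lemma sqrt_ww (p q v : ℕ) (e1 e2 : ℕ) (l : ℕ × ℕ × ℕ) (r : ℕ) :
    (√(ww p q (v ^ 2) (sh e1 e2 l) : ℝ)) ^ (2 * r + 1) =
      ((ww p q v l : ℝ) ^ (2 * r + 1) * ((p : ℝ) ^ (e1 * r) * (q : ℝ) ^ (e2 * r))) *
        (√(p : ℝ) ^ e1 * √(q : ℝ) ^ e2) := by
  have h1 : (ww p q (v ^ 2) (sh e1 e2 l) : ℝ) = ((ww p q v l : ℝ) * (√(p : ℝ) ^ e1 * √(q : ℝ) ^ e2)) ^ 2 := by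
    have hp : √(p : ℝ) ^ 2 = p := Real.sq_sqrt (Nat.cast_nonneg _)
    have hq : √(q : ℝ) ^ 2 = q := Real.sq_sqrt (Nat.cast_nonneg _)
    unfold ww sh
    push_cast
    have a1 : (√(p : ℝ) ^ e1) ^ 2 = (p : ℝ) ^ e1 := by rw [← pow_mul, mul_comm, pow_mul, hp]
    have a2 : (√(q : ℝ) ^ e2) ^ 2 = (q : ℝ) ^ e2 := by rw [← pow_mul, mul_comm, pow_mul, hq]
    rw [mul_pow, mul_pow (√(p : ℝ) ^ e1), a1, a2]
    ring
  rw [h1, Real.sqrt_sq (by positivity)]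
  have hp : √(p : ℝ) ^ 2 = p := Real.sq_sqrt (Nat.cast_nonneg _)
  have hq : √(q : ℝ) ^ 2 = q := Real.sq_sqrt (Nat.cast_nonneg _)
  have h2 : (√(p : ℝ) ^ e1) ^ (2 * r + 1) = (p : ℝ) ^ (e1 * r) * √(p : ℝ) ^ e1 := by
    rw [← pow_mul, show e1 * (2 * r + 1) = 2 * (e1 * r) + e1 by ring, pow_add, pow_mul, hp]
  have h3 : (√(q : ℝ) ^ e2) ^ (2 * r + 1) = (q : ℝ) ^ (e2 * r) * √(q : ℝ) ^ e2 := by
    rw [← pow_mul, show e2 * (2 * r + 1) = 2 * (e2 * r) + e2 by ring, pow_add, pow_mul, hq]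
  rw [mul_pow, mul_pow, h2, h3]
  ring

/-- the integer attached to a class -/
def In (p q N A v m C : ℕ) (c : ℕ × ℕ × ℕ → ℤ) (m1 m2 r e1 e2 : ℕ) : ℤ :=
  ∑ l ∈ bx m C, c (sh e1 e2 l) * (xi (2 * N) (sh e1 e2 l) ^ m1 * yi (2 * A) (sh e1 e2 l) ^ m2) *
    (((ww p q v l : ℕ) : ℤ) ^ (2 * r + 1) * ((p : ℤ) ^ (e1 * r) * (q : ℤ) ^ (e2 * r)))

lemma In_cast (p q N A v m C : ℕ) (c : ℕ × ℕ × ℕ → ℤ) (m1 m2 r e1 e2 : ℕ) :
    ((In p q N A v m C c m1 m2 r e1 e2 : ℤ) : ℝ) * (√(p : ℝ) ^ e1 * √(q : ℝ) ^ e2) =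
      ∑ l ∈ bx m C, (c (sh e1 e2 l) : ℝ) * (xx (2 * N) (sh e1 e2 l) ^ m1 *
        yy (2 * A) (sh e1 e2 l) ^ m2) * (√(ww p q (v ^ 2) (sh e1 e2 l) : ℝ)) ^ (2 * r + 1) := by
  unfold In
  push_cast
  rw [Finset.sum_mul]
  refine Finset.sum_congr rfl fun l _ => ?_
  rw [sqrt_ww, xi_cast, yi_cast]
  ring

lemma In_abs (p q N A v m C : ℕ) (c : ℕ × ℕ × ℕ → ℤ) (m1 m2 r e1 e2 : ℕ) :
    |((In p q N A v m C c m1 m2 r e1 e2 : ℤ) : ℝ)| * (√(p : ℝ) ^ e1 * √(q : ℝ) ^ e2) ≤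
      ∑ l ∈ bx m C, |(c (sh e1 e2 l) : ℝ) * (xx (2 * N) (sh e1 e2 l) ^ m1 *
        yy (2 * A) (sh e1 e2 l) ^ m2)| * (√(ww p q (v ^ 2) (sh e1 e2 l) : ℝ)) ^ (2 * r + 1) := by
  have h1 : |((In p q N A v m C c m1 m2 r e1 e2 : ℤ) : ℝ)| * (√(p : ℝ) ^ e1 * √(q : ℝ) ^ e2) =
      |((In p q N A v m C c m1 m2 r e1 e2 : ℤ) : ℝ) * (√(p : ℝ) ^ e1 * √(q : ℝ) ^ e2)| := by
    rw [abs_mul, abs_of_nonneg (show 0 ≤ √(p : ℝ) ^ e1 * √(q : ℝ) ^ e2 by positivity)]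
  rw [h1, In_cast]
  refine (Finset.abs_sum_le_sum_abs _ _).trans (Finset.sum_le_sum fun l _ => ?_)
  rw [abs_mul, abs_of_nonneg (show 0 ≤ (√(ww p q (v ^ 2) (sh e1 e2 l) : ℝ)) ^ (2 * r + 1) by positivity)]

theorem step (p q N A v m C S S' R : ℕ) (hp : p.Prime) (hq : q.Prime) (hpq : p ≠ q) (hv : 1 ≤ v)
    (hR : 1 ≤ R) (c : ℕ × ℕ × ℕ → ℤ)
    (h : Van p q (2 * N) (2 * A) (v ^ 2) (2 * m) C (S + S') R c) (τ X Ξ δ : ℝ)
    (hτ0 : 0 ≤ τ) (hτ : (N : ℝ) * Real.log p - A * Real.log q = Real.log v + τ)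
    (hδ : 2 * τ * C ≤ δ) (hX0 : 0 ≤ X) (hΞ0 : 0 ≤ Ξ)
    (hX : ∀ m1 < S, ∀ m2 < S, ∑ l ∈ bx (2 * m) C,
      |(c l : ℝ) * (xx (2 * N) l ^ m1 * yy (2 * A) l ^ m2)| ≤ X)
    (hΞ : ∀ l ∈ bx (2 * m) C, xx (2 * N) l * Real.log p + yy (2 * A) l * Real.log q ≤ Ξ)
    (hnum : (((8 * R) ^ (R * S') + 1) * (X * Real.exp ((2 * R + 1) * Ξ) * (2 * R * δ)) +
        (1 / 8) ^ (R * S') * (X * Real.exp (34 * R * Ξ))) * (X * Real.exp (R * Ξ)) ^ 3 < 1)
    (e1 e2 : ℕ) (he1 : e1 < 2) (he2 : e2 < 2) :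
    Van p q N A v m C S R (fun l => c (sh e1 e2 l)) := by
  have hτ' : ((2 * N : ℕ) : ℝ) * Real.log p - ((2 * A : ℕ) : ℝ) * Real.log q =
      Real.log ((v ^ 2 : ℕ) : ℝ) + 2 * τ := by
    push_cast
    rw [Real.log_pow]
    push_cast
    linarith
  -- weights are at most exp Ξ
  have hww : ∀ l ∈ bx (2 * m) C, (ww p q (v ^ 2) l : ℝ) ≤ Real.exp Ξ := by
    intro l hl
    have hle : xx (2 * N) l * Real.log p + yy (2 * A) l * Real.log q - l.2.2 * (2 * τ) ≤ Ξ :=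
      (sub_le_self _ (by positivity)).trans (hΞ l hl)
    refine le_trans (le_of_eq ?_) (Real.exp_le_exp.2 hle)
    · have : xx (2 * N) l * Real.log p + yy (2 * A) l * Real.log q - l.2.2 * (2 * τ) =
          l.1 * Real.log p + l.2.1 * Real.log q + l.2.2 * Real.log ((v ^ 2 : ℕ) : ℝ) := by
        unfold xx yy
        linear_combination (l.2.2 : ℝ) * hτ'
      rw [this, Real.exp_add, Real.exp_add, Real.exp_nat_mul, Real.exp_nat_mul, Real.exp_nat_mul,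
        Real.exp_log (by exact_mod_cast hp.pos), Real.exp_log (by exact_mod_cast hq.pos),
        Real.exp_log (by exact_mod_cast Nat.pos_of_ne_zero (by positivity))]
      unfold ww
      push_cast
      ring
  have hmono : ∀ m1 < S, ∀ m2 < S, ∀ r < R, In p q N A v m C c m1 m2 r e1 e2 = 0 := by
    intro m1 h1 m2 h2 r hr
    have hsm := small_half p q (2 * N) (2 * A) (v ^ 2) (2 * m) C S S' R hp hq
      (Nat.one_le_pow _ _ hv) hR c h (2 * τ) X Ξ δ (by linarith) hτ' hδ hX0 hΞ0 hX hΞ m1 m2 r h1 h2 hr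
    have hsq : ∀ l ∈ bx (2 * m) C, (√(ww p q (v ^ 2) l : ℝ)) ^ (2 * r + 1) ≤ Real.exp (R * Ξ) := by
      intro l hl
      have h3 : √(ww p q (v ^ 2) l : ℝ) ≤ Real.exp (Ξ / 2) := by
        rw [Real.exp_half]
        exact Real.sqrt_le_sqrt (hww l hl)
      calc (√(ww p q (v ^ 2) l : ℝ)) ^ (2 * r + 1) ≤ Real.exp (Ξ / 2) ^ (2 * r + 1) :=
            pow_le_pow_left₀ (Real.sqrt_nonneg _) h3 _
        _ = Real.exp ((2 * r + 1 : ℕ) * (Ξ / 2)) := by rw [Real.exp_nat_mul]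
        _ ≤ _ := by
            refine Real.exp_le_exp.2 ?_
            have : ((2 * r + 1 : ℕ) : ℝ) ≤ 2 * R := by
              have : 2 * r + 1 ≤ 2 * R := by omega
              exact_mod_cast this
            nlinarith
    -- decomposition
    have hdec : ∑ l ∈ bx (2 * m) C, (c l : ℝ) * (xx (2 * N) l ^ m1 * yy (2 * A) l ^ m2) *
        (√(ww p q (v ^ 2) l : ℝ)) ^ (2 * r + 1) =
        (In p q N A v m C c m1 m2 r 0 0 : ℝ) + (In p q N A v m C c m1 m2 r 1 0 : ℝ) * √p +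
        (In p q N A v m C c m1 m2 r 0 1 : ℝ) * √q + (In p q N A v m C c m1 m2 r 1 1 : ℝ) * (√p * √q) := by
      have i00 := In_cast p q N A v m C c m1 m2 r 0 0
      have i10 := In_cast p q N A v m C c m1 m2 r 1 0
      have i01 := In_cast p q N A v m C c m1 m2 r 0 1
      have i11 := In_cast p q N A v m C c m1 m2 r 1 1
      simp only [pow_zero, pow_one, mul_one, one_mul] at i00 i10 i01 i11
      rw [i00, i10, i01, i11, sum_box_two]
      simp only [← Finset.sum_add_distrib]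
      refine Finset.sum_congr rfl fun l _ => ?_
      simp only [sh, add_zero]
      ring
    have habs : |(In p q N A v m C c m1 m2 r 0 0 : ℝ)| + |(In p q N A v m C c m1 m2 r 1 0 : ℝ)| * √p +
        |(In p q N A v m C c m1 m2 r 0 1 : ℝ)| * √q +
        |(In p q N A v m C c m1 m2 r 1 1 : ℝ)| * (√p * √q) ≤ X * Real.exp (R * Ξ) := by
      have i00 := In_abs p q N A v m C c m1 m2 r 0 0
      have i10 := In_abs p q N A v m C c m1 m2 r 1 0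
      have i01 := In_abs p q N A v m C c m1 m2 r 0 1
      have i11 := In_abs p q N A v m C c m1 m2 r 1 1
      simp only [pow_zero, pow_one, mul_one, one_mul] at i00 i10 i01 i11
      have hall : ∑ l ∈ bx (2 * m) C, |(c l : ℝ) * (xx (2 * N) l ^ m1 * yy (2 * A) l ^ m2)| *
          (√(ww p q (v ^ 2) l : ℝ)) ^ (2 * r + 1) ≤ X * Real.exp (R * Ξ) := by
        calc _ ≤ ∑ l ∈ bx (2 * m) C, |(c l : ℝ) * (xx (2 * N) l ^ m1 * yy (2 * A) l ^ m2)| *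
              Real.exp (R * Ξ) := Finset.sum_le_sum fun l hl =>
                mul_le_mul_of_nonneg_left (hsq l hl) (abs_nonneg _)
          _ = (∑ l ∈ bx (2 * m) C, |(c l : ℝ) * (xx (2 * N) l ^ m1 * yy (2 * A) l ^ m2)|) *
              Real.exp (R * Ξ) := by rw [Finset.sum_mul]
          _ ≤ _ := mul_le_mul_of_nonneg_right (hX m1 h1 m2 h2) (Real.exp_pos _).le
      refine le_trans (add_le_add (add_le_add (add_le_add i00 i10) i01) i11) (le_trans (le_of_eq ?_) hall)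
      rw [sum_box_two]
      simp only [← Finset.sum_add_distrib]
      refine Finset.sum_congr rfl fun l _ => ?_
      simp only [sh, add_zero]
      ring
    have hl := Liou.liou p q hp hq hpq (In p q N A v m C c m1 m2 r 0 0) (In p q N A v m C c m1 m2 r 1 0)
      (In p q N A v m C c m1 m2 r 0 1) (In p q N A v m C c m1 m2 r 1 1) (X * Real.exp (R * Ξ)) habs (by
        rw [← hdec]
        refine lt_of_le_of_lt (mul_le_mul_of_nonneg_right hsm ?_) hnum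
        positivity)
    obtain ⟨z1, z2, z3, z4⟩ := hl
    interval_cases e1 <;> interval_cases e2 <;> assumption
  -- from monomials to polynomials
  intro P Q hP hQ r hr
  have hcan : ∀ i < S, ∀ j < S, ∑ l ∈ bx m C, (c (sh e1 e2 l) : ℝ) *
      (xx (2 * N) (sh e1 e2 l) ^ i * yy (2 * A) (sh e1 e2 l) ^ j) * (ww p q v l : ℝ) ^ (2 * r + 1) = 0 := by
    intro i hi j hj
    have h3 := hmono i hi j hj r hr
    have h4 : ((In p q N A v m C c i j r e1 e2 : ℤ) : ℝ) = (∑ l ∈ bx m C, (c (sh e1 e2 l) : ℝ) *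
        (xx (2 * N) (sh e1 e2 l) ^ i * yy (2 * A) (sh e1 e2 l) ^ j) *
        (ww p q v l : ℝ) ^ (2 * r + 1)) * ((p : ℝ) ^ (e1 * r) * (q : ℝ) ^ (e2 * r)) := by
      unfold In
      push_cast
      rw [Finset.sum_mul]
      refine Finset.sum_congr rfl fun l _ => ?_
      rw [xi_cast, yi_cast]
      ring
    rw [h3] at h4
    have h5 : (p : ℝ) ^ (e1 * r) * (q : ℝ) ^ (e2 * r) ≠ 0 := by
      have hp0 : (p : ℝ) ≠ 0 := by exact_mod_cast hp.ne_zero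
      have hq0 : (q : ℝ) ≠ 0 := by exact_mod_cast hq.ne_zero
      positivity
    have h6 := h4.symm
    push_cast at h6
    exact (mul_eq_zero.1 h6).resolve_right h5
  have hlin : ∀ e : ℕ, (Polynomial.C (1 / 2 : ℝ) * (Polynomial.X - Polynomial.C (e : ℝ)) : ℝ[X]).natDegree ≤ 1 := by
    intro e
    refine (natDegree_C_mul_le _ _).trans ?_
    exact (natDegree_X_sub_C _).le
  have h7 := poly_of_mono (bx m C) (fun l => (c (sh e1 e2 l) : ℝ)) (fun l => xx (2 * N) (sh e1 e2 l))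
    (fun l => yy (2 * A) (sh e1 e2 l)) (fun l => (ww p q v l : ℝ) ^ (2 * r + 1)) S hcan
    (P.comp (Polynomial.C (1 / 2 : ℝ) * (Polynomial.X - Polynomial.C (e1 : ℝ))))
    (Q.comp (Polynomial.C (1 / 2 : ℝ) * (Polynomial.X - Polynomial.C (e2 : ℝ))))
    (lt_of_le_of_lt (natDegree_comp_le.trans (by
      calc _ ≤ P.natDegree * 1 := Nat.mul_le_mul_left _ (hlin e1)
        _ = _ := mul_one _)) hP)
    (lt_of_le_of_lt (natDegree_comp_le.trans (by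
      calc _ ≤ Q.natDegree * 1 := Nat.mul_le_mul_left _ (hlin e2)
        _ = _ := mul_one _)) hQ)
  rw [← h7]
  refine Finset.sum_congr rfl fun l _ => ?_
  have e3 : (1 / 2 : ℝ) * (xx (2 * N) (sh e1 e2 l) - e1) = xx N l := by
    unfold xx sh; push_cast; ring
  have e4 : (1 / 2 : ℝ) * (yy (2 * A) (sh e1 e2 l) - e2) = yy A l := by
    unfold yy sh; push_cast; ring
  simp only [eval_comp, eval_mul, eval_C, eval_sub, eval_X, e3, e4]

end Pool.Agent.H24.Opn.Bak
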