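import Pool.Agent.H24.Opn.Rad

/-!
Bounds for the valuations of `p ^ n - 1`.
-/

namespace Pool.Agent.H24.Opn.Ent

open Finset

lemma pm_ne {p n : ℕ} (hp : p.Prime) (hn : n ≠ 0) : p ^ n - 1 ≠ 0 := by
  have := Nat.one_lt_pow hn hp.one_lt
  omega

lemma fact_mono {p m n : ℕ} (hp : p.Prime) (hn : n ≠ 0) (h : m ∣ n) (q : ℕ) :
    (p ^ m - 1).factorization q ≤ (p ^ n - 1).factorization q := by
  obtain ⟨k, rfl⟩ := h
  have hm : m ≠ 0 := by rintro rfl; simp at hn
  refine (Nat.factorization_le_iff_dvd (pm_ne hp hm) (pm_ne hp hn)).2 ?_ q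
  rw [pow_mul]
  simpa using Nat.sub_dvd_pow_sub_pow (p ^ m) 1 k

lemma sp_fact_le (p e q : ℕ) (hp : p.Prime) :
    (sp p e).factorization q ≤ (p ^ (e + 1) - 1).factorization q :=
  (Nat.factorization_le_iff_dvd (sp_pos p e).ne' (pm_ne hp (Nat.succ_ne_zero e))).2
    (Dvd.intro _ (sp_mul p e hp.pos)) q

lemma v_le_fermat {p q n : ℕ} (hp : p.Prime) (hq : q.Prime) (hq2 : q ≠ 2) (hpq : q ≠ p) (hn : n ≠ 0) :
    (p ^ n - 1).factorization q ≤ (p ^ (q - 1) - 1).factorization q + n.factorization q := by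
  have := Fact.mk hq
  have hodd : Odd q := hq.odd_of_ne_two hq2
  have hqp : ¬ q ∣ p := fun h => hpq ((Nat.prime_dvd_prime_iff_eq hq hp).1 h)
  have hq1 : q - 1 ≠ 0 := by have := hq.two_le; omega
  have hfer : q ∣ p ^ (q - 1) - 1 := by
    have : Nat.Coprime p q := (Nat.coprime_primes hp hq).2 (Ne.symm hpq)
    have := Nat.ModEq.pow_totient this
    rw [Nat.totient_prime hq] at this
    exact (Nat.modEq_iff_dvd' (Nat.one_le_pow _ _ hp.pos)).1 this.symm
  have h1 := padicValNat.pow_sub_pow (p := q) hodd (x := p ^ (q - 1)) (y := 1)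
    (Nat.one_lt_pow hq1 hp.one_lt) hfer (fun h => hqp (hq.dvd_of_dvd_pow h)) hn
  rw [one_pow, ← pow_mul] at h1
  have h2 := fact_mono hp (m := n) (n := (q - 1) * n) (by positivity) (dvd_mul_left _ _) q
  rw [Nat.factorization_def _ hq, Nat.factorization_def _ hq] at h2
  rw [Nat.factorization_def _ hq, Nat.factorization_def _ hq, Nat.factorization_def _ hq]
  omega

lemma v_two {p n : ℕ} (hp : p.Prime) (hn : n ≠ 0) :
    (p ^ n - 1).factorization 2 ≤ (p ^ 2 - 1).factorization 2 + n.factorization 2 := by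
  by_cases h2 : p = 2
  · subst h2
    have : (2 ^ n - 1).factorization 2 = 0 := by
      apply Nat.factorization_eq_zero_of_not_dvd
      intro h
      have h1 : 2 ∣ 2 ^ n := dvd_pow_self 2 hn
      have h3 : 1 ≤ 2 ^ n := Nat.one_le_two_pow
      omega
    omega
  · have hp2 : ¬ 2 ∣ p := fun h => h2 ((Nat.prime_dvd_prime_iff_eq Nat.prime_two hp).1 h).symm
    have h1 : 1 < p := hp.one_lt
    have e1 := padicValNat.pow_two_sub_one h1 hp2 (n := 2 * n) (by omega) ⟨n, by ring⟩
    have e2 := padicValNat.pow_two_sub_one h1 hp2 (n := 2) (by omega) ⟨1, by ring⟩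
    rw [padicValNat.mul (by norm_num) hn] at e1
    have h3 := fact_mono hp (m := n) (n := 2 * n) (by omega) (dvd_mul_left _ _) 2
    rw [Nat.factorization_def _ Nat.prime_two, Nat.factorization_def _ Nat.prime_two] at h3
    rw [Nat.factorization_def _ Nat.prime_two, Nat.factorization_def _ Nat.prime_two,
      Nat.factorization_def _ Nat.prime_two]
    omega

/-- valuation through the order -/
lemma v_le_ord {p q n : ℕ} (hp : p.Prime) (hq : q.Prime) (hq2 : q ≠ 2) (hn : n ≠ 0)
    (h : q ∣ p ^ n - 1) :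
    ∃ d, d ∣ n ∧ d ∣ q - 1 ∧ 0 < d ∧
      (p ^ n - 1).factorization q ≤ (p ^ d - 1).factorization q + n.factorization q := by
  have := Fact.mk hq
  have hodd : Odd q := hq.odd_of_ne_two hq2
  have hpn : 1 ≤ p ^ n := Nat.one_le_pow _ _ hp.pos
  have h1 : (p : ZMod q) ^ n = 1 := by
    have := (ZMod.natCast_eq_zero_iff (p ^ n - 1) q).2 h
    rw [Nat.cast_sub hpn] at this
    push_cast at this
    exact sub_eq_zero.1 this
  have hp0 : (p : ZMod q) ≠ 0 := by
    intro h0
    rw [h0, zero_pow hn] at h1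
    exact zero_ne_one h1
  have hqp : ¬ q ∣ p := fun hd => hp0 ((ZMod.natCast_eq_zero_iff p q).2 hd)
  set d := orderOf (p : ZMod q) with hd
  have hdn : d ∣ n := orderOf_dvd_of_pow_eq_one h1
  have hd0 : 0 < d := Nat.pos_of_dvd_of_pos hdn (Nat.pos_of_ne_zero hn)
  refine ⟨d, hdn, ZMod.orderOf_dvd_card_sub_one hp0, hd0, ?_⟩
  obtain ⟨k, hk⟩ := hdn
  have hk0 : k ≠ 0 := by rintro rfl; simp at hk; exact hn hk
  have hqd : q ∣ p ^ d - 1 := by
    have hpd : 1 ≤ p ^ d := Nat.one_le_pow _ _ hp.pos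
    rw [← ZMod.natCast_eq_zero_iff, Nat.cast_sub hpd]
    push_cast
    rw [hd, pow_orderOf_eq_one, sub_self]
  have h2 := padicValNat.pow_sub_pow (p := q) hodd (x := p ^ d) (y := 1)
    (Nat.one_lt_pow hd0.ne' hp.one_lt) hqd (fun h => hqp (hq.dvd_of_dvd_pow h)) hk0
  rw [one_pow, ← pow_mul, ← hk] at h2
  rw [Nat.factorization_def _ hq, Nat.factorization_def _ hq, Nat.factorization_def _ hq, h2]
  have h3 : padicValNat q k ≤ padicValNat q n := by
    rw [hk, padicValNat.mul hd0.ne' hk0]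
    omega
  omega

/-- sum of the `q`-parts -/
lemma sum_part_le (A : Finset ℕ) (hA : ∀ q ∈ A, q.Prime) {n : ℕ} (hn : n ≠ 0) :
    ∑ q ∈ A, (n.factorization q : ℝ) * Real.log q ≤ Real.log n := by
  have h1 := prod_part_le A hA hn
  have h2 : ∑ q ∈ A, (n.factorization q : ℝ) * Real.log q =
      Real.log ((∏ q ∈ A, q ^ n.factorization q : ℕ) : ℝ) := by
    push_cast
    rw [Real.log_prod]
    · refine Finset.sum_congr rfl fun q _ => ?_
      rw [Real.log_pow]
    · intro q hq
      have : (q : ℝ) ≠ 0 := by exact_mod_cast (hA q hq).ne_zero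
      positivity
  rw [h2]
  refine Real.log_le_log ?_ (by exact_mod_cast h1)
  have : 0 < ∏ q ∈ A, q ^ n.factorization q :=
    Finset.prod_pos fun q hq => pow_pos (hA q hq).pos _
  exact_mod_cast this

/-- the light part of a row -/
theorem rowlight (p e D y : ℕ) (hp : p.Prime) (hD : 1 ≤ D) (Q : Finset ℕ)
    (hQ : ∀ q ∈ Q, q.Prime ∧ q ≤ y) (X : ℝ) (hX0 : 0 ≤ X)
    (hX : ∀ q ∈ Q, q ≠ 2 → ((sp p e).factorization q : ℝ) * Real.log q ≤ X) :
    ∑ q ∈ Q, ((sp p e).factorization q : ℝ) * Real.log q ≤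
      (((e + 1).divisors.card : ℝ) * D + 2) * Real.log p + Real.log (e + 1) +
        X * (((e + 1).divisors.card : ℝ) * ((y : ℝ) / D)) := by
  classical
  set n := e + 1 with hn
  have hn0 : n ≠ 0 := Nat.succ_ne_zero e
  have hlq : ∀ q ∈ Q, 0 ≤ Real.log q := fun q hq => Real.log_nonneg (by exact_mod_cast (hQ q hq).1.one_le)
  -- the two classes
  set Qb := Q.filter (fun q => q ≠ 2 ∧ ∃ d, d ∣ n ∧ d ∣ q - 1 ∧ D < d) with hQb
  set Qs := Q.filter (fun q => ¬ (q ≠ 2 ∧ ∃ d, d ∣ n ∧ d ∣ q - 1 ∧ D < d)) with hQs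
  have hsplit : ∑ q ∈ Q, ((sp p e).factorization q : ℝ) * Real.log q =
      ∑ q ∈ Qb, ((sp p e).factorization q : ℝ) * Real.log q +
      ∑ q ∈ Qs, ((sp p e).factorization q : ℝ) * Real.log q :=
    (Finset.sum_filter_add_sum_filter_not Q _ _).symm
  -- the class of large orders
  have hb1 : ∑ q ∈ Qb, ((sp p e).factorization q : ℝ) * Real.log q ≤ X * Qb.card := by
    calc _ ≤ ∑ q ∈ Qb, X := Finset.sum_le_sum fun q hq => by
            have := Finset.mem_filter.1 hq
            exact hX q this.1 this.2.1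
      _ = _ := by rw [Finset.sum_const, nsmul_eq_mul, mul_comm]
  have hb2 : (Qb.card : ℝ) ≤ (n.divisors.card : ℝ) * ((y : ℝ) / D) := by
    have hsub : Qb ⊆ (n.divisors.filter (fun d => D < d)).biUnion
        (fun d => ((range y).filter (fun x => d ∣ x + 1)).image (fun x => x + 2)) := by
      intro q hq
      obtain ⟨hqQ, hq2, d, hdn, hdq, hDd⟩ := Finset.mem_filter.1 hq
      obtain ⟨hqp, hqy⟩ := hQ q hqQ
      rw [Finset.mem_biUnion]
      refine ⟨d, Finset.mem_filter.2 ⟨Nat.mem_divisors.2 ⟨hdn, hn0⟩, hDd⟩, ?_⟩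
      rw [Finset.mem_image]
      have := hqp.two_le
      refine ⟨q - 2, Finset.mem_filter.2 ⟨Finset.mem_range.2 (by omega), ?_⟩, by omega⟩
      rw [show q - 2 + 1 = q - 1 by omega]
      exact hdq
    have h1 : Qb.card ≤ ∑ d ∈ n.divisors.filter (fun d => D < d), y / d := by
      refine (Finset.card_le_card hsub).trans (Finset.card_biUnion_le.trans ?_)
      refine Finset.sum_le_sum fun d _ => ?_
      refine Finset.card_image_le.trans ?_
      rw [Nat.card_multiples]
    calc (Qb.card : ℝ) ≤ ((∑ d ∈ n.divisors.filter (fun d => D < d), y / d : ℕ) : ℝ) := by exact_mod_cast h1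
      _ ≤ ∑ d ∈ n.divisors.filter (fun d => D < d), (y : ℝ) / D := by
          push_cast
          refine Finset.sum_le_sum fun d hd => ?_
          have hDd := (Finset.mem_filter.1 hd).2
          refine (Nat.cast_div_le).trans ?_
          have h3 : (D : ℝ) ≤ d := by exact_mod_cast hDd.le
          have h4 : (0 : ℝ) < D := by exact_mod_cast hD
          exact div_le_div_of_nonneg_left (Nat.cast_nonneg _) h4 h3
      _ = ((n.divisors.filter (fun d => D < d)).card : ℝ) * ((y : ℝ) / D) := by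
          rw [Finset.sum_const, nsmul_eq_mul]
      _ ≤ _ := by
          refine mul_le_mul_of_nonneg_right ?_ (by positivity)
          exact_mod_cast Finset.card_filter_le _ _
  -- the class of small orders
  set Cs := insert 2 (n.divisors.filter (fun d => d ≤ D)) with hCs
  have hs1 : ∀ q ∈ Qs, ((sp p e).factorization q : ℝ) * Real.log q ≤
      ∑ c ∈ Cs, ((p ^ c - 1).factorization q : ℝ) * Real.log q + (n.factorization q : ℝ) * Real.log q := by
    intro q hq
    obtain ⟨hqQ, hqn⟩ := Finset.mem_filter.1 hq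
    obtain ⟨hqp, hqy⟩ := hQ q hqQ
    have hl := hlq q hqQ
    have hterm : ∀ c ∈ Cs, 0 ≤ ((p ^ c - 1).factorization q : ℝ) * Real.log q := fun c _ => by positivity
    have h0 : ((sp p e).factorization q : ℝ) ≤ ((p ^ n - 1).factorization q : ℝ) := by
      exact_mod_cast sp_fact_le p e q hp
    by_cases hq2 : q = 2
    · subst hq2
      have h1 : ((p ^ n - 1).factorization 2 : ℝ) ≤ ((p ^ 2 - 1).factorization 2 : ℝ) +
          (n.factorization 2 : ℝ) := by exact_mod_cast v_two hp hn0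
      have h2 := Finset.single_le_sum hterm (Finset.mem_insert_self 2 _)
      have h3 : ((sp p e).factorization 2 : ℝ) * Real.log (2 : ℕ) ≤
          (((p ^ 2 - 1).factorization 2 : ℝ) + (n.factorization 2 : ℝ)) * Real.log (2 : ℕ) :=
        mul_le_mul_of_nonneg_right (h0.trans h1) hl
      linarith
    · by_cases hdv : q ∣ p ^ n - 1
      · obtain ⟨d, hdn, hdq, hd0, hv⟩ := v_le_ord hp hqp hq2 hn0 hdv
        have hdD : d ≤ D := by
          by_contra hcon
          exact hqn ⟨hq2, d, hdn, hdq, by omega⟩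
        have h1 : ((p ^ n - 1).factorization q : ℝ) ≤ ((p ^ d - 1).factorization q : ℝ) +
            (n.factorization q : ℝ) := by exact_mod_cast hv
        have hmem : d ∈ Cs := Finset.mem_insert_of_mem
          (Finset.mem_filter.2 ⟨Nat.mem_divisors.2 ⟨hdn, hn0⟩, hdD⟩)
        have h2 := Finset.single_le_sum hterm hmem
        have h3 : ((sp p e).factorization q : ℝ) * Real.log q ≤
            (((p ^ d - 1).factorization q : ℝ) + (n.factorization q : ℝ)) * Real.log q :=
          mul_le_mul_of_nonneg_right (h0.trans h1) hl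
        linarith
      · have h1 : (p ^ n - 1).factorization q = 0 := Nat.factorization_eq_zero_of_not_dvd hdv
        rw [h1] at h0
        have h2 : ((sp p e).factorization q : ℝ) = 0 := le_antisymm (by simpa using h0) (Nat.cast_nonneg _)
        rw [h2, zero_mul]
        have h3 := Finset.sum_nonneg hterm
        positivity
  have hs2 : ∑ q ∈ Qs, ((sp p e).factorization q : ℝ) * Real.log q ≤
      ((n.divisors.card : ℝ) * D + 2) * Real.log p + Real.log n := by
    have hQsp : ∀ q ∈ Qs, q.Prime := fun q hq => (hQ q (Finset.mem_filter.1 hq).1).1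
    have hC0 : ∀ c ∈ Cs, c ≠ 0 := by
      intro c hc
      rcases Finset.mem_insert.1 hc with rfl | hc
      · norm_num
      · exact (Nat.pos_of_mem_divisors (Finset.mem_filter.1 hc).1).ne'
    have hlp : 0 ≤ Real.log p := Real.log_nonneg (by exact_mod_cast hp.one_le)
    calc ∑ q ∈ Qs, ((sp p e).factorization q : ℝ) * Real.log q
        ≤ ∑ q ∈ Qs, (∑ c ∈ Cs, ((p ^ c - 1).factorization q : ℝ) * Real.log q +
            (n.factorization q : ℝ) * Real.log q) := Finset.sum_le_sum hs1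
      _ = ∑ c ∈ Cs, ∑ q ∈ Qs, ((p ^ c - 1).factorization q : ℝ) * Real.log q +
            ∑ q ∈ Qs, (n.factorization q : ℝ) * Real.log q := by
          rw [Finset.sum_add_distrib, Finset.sum_comm]
      _ ≤ ∑ c ∈ Cs, (c : ℝ) * Real.log p + Real.log n := by
          refine add_le_add (Finset.sum_le_sum fun c hc => ?_) (sum_part_le Qs hQsp hn0)
          refine (sum_part_le Qs hQsp (pm_ne hp (hC0 c hc))).trans ?_
          rw [← Real.log_pow]
          refine Real.log_le_log ?_ ?_
          · have := pm_ne hp (hC0 c hc)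
            exact_mod_cast Nat.pos_of_ne_zero this
          · have : p ^ c - 1 ≤ p ^ c := Nat.sub_le _ _
            exact_mod_cast this
      _ ≤ ((n.divisors.card : ℝ) * D + 2) * Real.log p + Real.log n := by
          rw [← Finset.sum_mul]
          refine add_le_add (mul_le_mul_of_nonneg_right ?_ hlp) le_rfl
          calc ∑ c ∈ Cs, (c : ℝ) ≤ (2 : ℕ) + ∑ c ∈ n.divisors.filter (fun d => d ≤ D), (c : ℝ) := by
                rw [hCs]
                by_cases h2 : 2 ∈ n.divisors.filter (fun d => d ≤ D)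
                · rw [Finset.insert_eq_of_mem h2]
                  linarith [show (0 : ℝ) ≤ ((2 : ℕ) : ℝ) from Nat.cast_nonneg _]
                · rw [Finset.sum_insert h2]
            _ ≤ (2 : ℕ) + ∑ c ∈ n.divisors.filter (fun d => d ≤ D), (D : ℝ) := by
                refine add_le_add le_rfl (Finset.sum_le_sum fun c hc => ?_)
                exact_mod_cast (Finset.mem_filter.1 hc).2
            _ = (2 : ℕ) + ((n.divisors.filter (fun d => d ≤ D)).card : ℝ) * D := by
                rw [Finset.sum_const, nsmul_eq_mul]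
            _ ≤ _ := by
                have : ((n.divisors.filter (fun d => d ≤ D)).card : ℝ) ≤ n.divisors.card := by
                  exact_mod_cast Finset.card_filter_le _ _
                have h5 : ((n.divisors.filter (fun d => d ≤ D)).card : ℝ) * D ≤ n.divisors.card * D :=
                  mul_le_mul_of_nonneg_right this (Nat.cast_nonneg _)
                push_cast
                linarith
  have hcast : Real.log (n : ℝ) = Real.log ((e : ℝ) + 1) := by rw [hn]; push_cast; rfl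
  rw [hsplit]
  have h6 : X * Qb.card ≤ X * ((n.divisors.card : ℝ) * ((y : ℝ) / D)) := mul_le_mul_of_nonneg_left hb2 hX0
  rw [← hcast]
  linarith

/-- few primes `p` have a very large valuation at `q` -/
theorem mono (q V y I : ℕ) (P : Finset ℕ) (hq : q.Prime) (hq2 : q ≠ 2) (hV : V ≠ 0)
    (hP : ∀ p ∈ P, p.Prime ∧ p ≤ y ∧ q ^ V ∣ p ^ (q - 1) - 1) (hcard : q - 1 < (I + 1) ^ P.card) :
    q ^ V ≤ y ^ (I * P.card) := by
  classical
  have : NeZero (q ^ V) := ⟨pow_ne_zero _ hq.ne_zero⟩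
  have hcyc : IsCyclic (ZMod (q ^ V))ˣ := ZMod.isCyclic_units_of_prime_pow q hq hq2 V
  have hq1 : 0 < q - 1 := by have := hq.two_le; omega
  have hcop : ∀ p ∈ P, Nat.Coprime p (q ^ V) := by
    intro p hp
    obtain ⟨hpp, hpy, hdv⟩ := hP p hp
    refine Nat.Coprime.pow_right _ ?_
    rw [Nat.coprime_primes hpp hq]
    rintro rfl
    have h1 : p ∣ p ^ (p - 1) - 1 := (dvd_pow_self p hV).trans hdv
    have h2 : p ∣ p ^ (p - 1) := dvd_pow_self p hq1.ne'
    have h3 : 1 ≤ p ^ (p - 1) := Nat.one_le_pow _ _ hpp.pos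
    have h4 : p ∣ p ^ (p - 1) - (p ^ (p - 1) - 1) := Nat.dvd_sub h2 h1
    rw [Nat.sub_sub_self h3] at h4
    exact hpp.one_lt.ne' (Nat.dvd_one.1 h4)
  let un : {p // p ∈ P} → (ZMod (q ^ V))ˣ := fun p => ZMod.unitOfCoprime p.1 (hcop p.1 p.2)
  let φ : ({p // p ∈ P} → Fin (I + 1)) → (ZMod (q ^ V))ˣ := fun f => ∏ p, un p ^ (f p : ℕ)
  let Sol : Finset (ZMod (q ^ V))ˣ := Finset.univ.filter (fun x => x ^ (q - 1) = 1)
  have hun : ∀ p : {p // p ∈ P}, un p ^ (q - 1) = 1 := by
    intro p
    obtain ⟨hpp, hpy, hdv⟩ := hP p.1 p.2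
    ext
    rw [Units.val_pow_eq_pow_val, Units.val_one]
    show ((p.1 : ℕ) : ZMod (q ^ V)) ^ (q - 1) = 1
    have h1 := (ZMod.natCast_eq_zero_iff (p.1 ^ (q - 1) - 1) (q ^ V)).2 hdv
    rw [Nat.cast_sub (Nat.one_le_pow _ _ hpp.pos)] at h1
    push_cast at h1
    exact sub_eq_zero.1 h1
  have hmaps : ∀ f ∈ (Finset.univ : Finset ({p // p ∈ P} → Fin (I + 1))), φ f ∈ Sol := by
    intro f _
    refine Finset.mem_filter.2 ⟨Finset.mem_univ _, ?_⟩
    show (∏ p, un p ^ (f p : ℕ)) ^ (q - 1) = 1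
    rw [← Finset.prod_pow]
    refine Finset.prod_eq_one fun p _ => ?_
    rw [← pow_mul, mul_comm, pow_mul, hun p, one_pow]
  have hSol : Sol.card ≤ q - 1 := IsCyclic.card_pow_eq_one_le hq1
  obtain ⟨f, -, g, -, hfg, heq⟩ := Finset.exists_ne_map_eq_of_card_lt_of_maps_to (by
    rw [Finset.card_univ, Fintype.card_fun, Fintype.card_fin, Fintype.card_coe]
    exact lt_of_le_of_lt hSol hcard) hmaps
  set A : ({p // p ∈ P} → Fin (I + 1)) → ℕ := fun f => ∏ p : {p // p ∈ P}, (p.1 : ℕ) ^ (f p : ℕ) with hA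
  have hcast : ∀ f, ((A f : ℕ) : ZMod (q ^ V)) = (φ f : ZMod (q ^ V)) := by
    intro f
    show ((∏ p : {p // p ∈ P}, (p.1 : ℕ) ^ (f p : ℕ) : ℕ) : ZMod (q ^ V)) =
      ((∏ p, un p ^ (f p : ℕ) : (ZMod (q ^ V))ˣ) : ZMod (q ^ V))
    rw [Units.coe_prod]
    push_cast
    rfl
  have hle : ∀ f, A f ≤ y ^ (I * P.card) := by
    intro f
    calc A f ≤ ∏ _p : {p // p ∈ P}, y ^ I := by
          refine Finset.prod_le_prod' fun p _ => ?_
          have h1 := (hP p.1 p.2).2.1
          have h2 := (hP p.1 p.2).1.pos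
          calc (p.1 : ℕ) ^ (f p : ℕ) ≤ y ^ (f p : ℕ) := Nat.pow_le_pow_left h1 _
            _ ≤ y ^ I := Nat.pow_le_pow_right (by omega) (by have := (f p).2; omega)
      _ = y ^ (I * P.card) := by
          rw [Finset.prod_const, Finset.card_univ, Fintype.card_coe, ← pow_mul]
  have hinj : A f ≠ A g := by
    intro hAB
    apply hfg
    funext p
    have key : ∀ f, (A f).factorization p.1 = (f p : ℕ) := by
      intro f
      show (∏ p : {p // p ∈ P}, (p.1 : ℕ) ^ (f p : ℕ)).factorization p.1 = _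
      rw [Nat.factorization_prod (fun r _ => pow_ne_zero _ (hP r.1 r.2).1.ne_zero)]
      rw [Finsupp.finsetSum_apply]
      rw [Finset.sum_eq_single p]
      · rw [(hP p.1 p.2).1.factorization_pow, Finsupp.single_eq_same]
      · intro r _ hr
        rw [(hP r.1 r.2).1.factorization_pow, Finsupp.single_eq_of_ne]
        intro h
        exact hr (Subtype.ext h.symm)
      · intro h; exact absurd (Finset.mem_univ _) h
    have h1 := key f
    rw [hAB, key g] at h1
    exact Fin.ext h1.symm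
  have hmod : (A f) ≡ (A g) [MOD q ^ V] := by
    rw [← ZMod.natCast_eq_natCast_iff, hcast, hcast, heq]
  by_contra hcon
  push Not at hcon
  have h1 : A f < q ^ V := lt_of_le_of_lt (hle f) hcon
  have h2 : A g < q ^ V := lt_of_le_of_lt (hle g) hcon
  exact hinj (Nat.ModEq.eq_of_lt_of_lt hmod h1 h2)

end Pool.Agent.H24.Opn.Ent
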