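import Pool.Agent.H24.Opn.Rad

/-!
Odd perfect numbers `q ^ 5 * n ^ 2`: the index `σ(n ^ 2) / q ^ 5` is at least `q / 24`.
-/

namespace Pool.Agent.H24.Opn.EulerFive

open Finset

lemma pp_split {p w A B : ℕ} (hp : p.Prime) (h : p ^ w ∣ A * B) (hn : ¬ (p ∣ A ∧ p ∣ B)) :
    p ^ w ∣ A ∨ p ^ w ∣ B := by
  by_cases hA : p ∣ A
  · have hB : ¬ p ∣ B := fun hB => hn ⟨hA, hB⟩
    left
    exact (Nat.Coprime.pow_left w ((Nat.Prime.coprime_iff_not_dvd hp).2 hB)).dvd_of_dvd_mul_right h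
  · right
    exact (Nat.Coprime.pow_left w ((Nat.Prime.coprime_iff_not_dvd hp).2 hA)).dvd_of_dvd_mul_left h

lemma nat_dvd {m Y : ℕ} (h : (m : ℤ) ∣ ((Y : ℤ) + 1) ^ 6 - 1) :
    m ∣ (Y * (Y + 2)) * ((Y ^ 2 + 3 * Y + 3) * (Y ^ 2 + Y + 1)) := by
  have h1 : ((Y : ℤ) + 1) ^ 6 - 1 =
      (((Y * (Y + 2)) * ((Y ^ 2 + 3 * Y + 3) * (Y ^ 2 + Y + 1)) : ℕ) : ℤ) := by
    push_cast
    ring
  rw [h1] at h
  exact_mod_cast h

lemma bound_five {p w Y : ℕ} (hp : p.Prime) (hp5 : 5 ≤ p) (hY : 1 ≤ Y)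
    (h : p ^ w ∣ (Y * (Y + 2)) * ((Y ^ 2 + 3 * Y + 3) * (Y ^ 2 + Y + 1))) :
    p ^ w ≤ (Y + 2) ^ 2 := by
  have n1 : ¬ (p ∣ Y * (Y + 2) ∧ p ∣ (Y ^ 2 + 3 * Y + 3) * (Y ^ 2 + Y + 1)) := by
    rintro ⟨h1, h2⟩
    have h3 : (Y ^ 2 + 3 * Y + 3) * (Y ^ 2 + Y + 1) =
        (Y * (Y + 2)) * (Y * (Y + 2)) + 3 * (Y * (Y + 2)) + 3 := by ring
    rw [h3] at h2
    have h4 : p ∣ (Y * (Y + 2)) * (Y * (Y + 2)) + 3 * (Y * (Y + 2)) :=
      Dvd.dvd.add (h1.mul_right _) (h1.mul_left _)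
    have h5 : p ∣ 3 := (Nat.dvd_add_right h4).1 h2
    have := Nat.le_of_dvd (by norm_num) h5
    omega
  have n2 : ¬ (p ∣ Y ∧ p ∣ Y + 2) := by
    rintro ⟨h1, h2⟩
    have h5 : p ∣ 2 := (Nat.dvd_add_right h1).1 h2
    have := Nat.le_of_dvd (by norm_num) h5
    omega
  have n3 : ¬ (p ∣ Y ^ 2 + 3 * Y + 3 ∧ p ∣ Y ^ 2 + Y + 1) := by
    rintro ⟨h1, h2⟩
    have h3 : Y ^ 2 + 3 * Y + 3 = (Y ^ 2 + Y + 1) + 2 * (Y + 1) := by ring
    rw [h3] at h1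
    have h4 : p ∣ 2 * (Y + 1) := (Nat.dvd_add_right h2).1 h1
    rcases hp.dvd_mul.1 h4 with h5 | h5
    · have := Nat.le_of_dvd (by norm_num) h5
      omega
    · have h6 : Y ^ 2 + Y + 1 = Y * (Y + 1) + 1 := by ring
      rw [h6] at h2
      have h7 : p ∣ 1 := (Nat.dvd_add_right (h5.mul_left Y)).1 h2
      have := Nat.le_of_dvd (by norm_num) h7
      omega
  have hle : ∀ B : ℕ, 0 < B → B ≤ (Y + 2) ^ 2 → p ^ w ∣ B → p ^ w ≤ (Y + 2) ^ 2 :=
    fun B h0 hB hd => (Nat.le_of_dvd h0 hd).trans hB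
  rcases pp_split hp h n1 with h1 | h1
  · rcases pp_split hp h1 n2 with h2 | h2
    · exact hle _ (by omega) (by nlinarith) h2
    · exact hle _ (by omega) (by nlinarith) h2
  · rcases pp_split hp h1 n3 with h2 | h2
    · exact hle _ (by positivity) (by nlinarith) h2
    · exact hle _ (by positivity) (by nlinarith) h2

lemma bound_three {w Y : ℕ} (h3 : ¬ 3 ∣ Y + 1)
    (h : 3 ^ w ∣ (Y * (Y + 2)) * ((Y ^ 2 + 3 * Y + 3) * (Y ^ 2 + Y + 1))) :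
    3 ^ w ≤ 3 * (Y + 2) ∨ Y = 0 := by
  rcases Nat.eq_zero_or_pos Y with hY | hY
  · exact Or.inr hY
  left
  obtain ⟨t, ht⟩ : 3 ∣ Y * (Y + 2) := by
    have h1 : Y % 3 = 0 ∨ Y % 3 = 1 := by omega
    rcases h1 with h1 | h1
    · exact (Nat.dvd_of_mod_eq_zero h1).mul_right _
    · exact Dvd.dvd.mul_left (Nat.dvd_of_mod_eq_zero (by omega)) _
  have h4 : (Y ^ 2 + 3 * Y + 3) * (Y ^ 2 + Y + 1) = 3 * (3 * (t * t + t) + 1) := by
    have : (Y ^ 2 + 3 * Y + 3) * (Y ^ 2 + Y + 1) =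
        (Y * (Y + 2)) * (Y * (Y + 2)) + 3 * (Y * (Y + 2)) + 3 := by ring
    rw [this, ht]
    ring
  rw [h4] at h
  have h5 : 3 ^ w ∣ (3 * (Y * (Y + 2))) * (3 * (t * t + t) + 1) := by
    have : Y * (Y + 2) * (3 * (3 * (t * t + t) + 1)) =
        (3 * (Y * (Y + 2))) * (3 * (t * t + t) + 1) := by ring
    rwa [this] at h
  have h6 : Nat.Coprime (3 ^ w) (3 * (t * t + t) + 1) := by
    apply Nat.Coprime.pow_left
    rw [Nat.Prime.coprime_iff_not_dvd Nat.prime_three]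
    omega
  have h7 : 3 ^ w ∣ 3 * (Y * (Y + 2)) := h6.dvd_of_dvd_mul_right h5
  rcases Nat.eq_zero_or_pos w with hw | hw
  · subst hw
    simp
    omega
  obtain ⟨w', rfl⟩ : ∃ w', w = w' + 1 := ⟨w - 1, by omega⟩
  rw [pow_succ, mul_comm] at h7
  have h8 : 3 ^ w' ∣ Y * (Y + 2) := Nat.dvd_of_mul_dvd_mul_left (by norm_num) h7
  have h9 : 3 ^ w' ≤ Y + 2 := by
    rcases pp_split Nat.prime_three h8 (by rintro ⟨a1, a2⟩; omega) with h9 | h9
    · exact (Nat.le_of_dvd hY h9).trans (by omega)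
    · exact Nat.le_of_dvd (by omega) h9
  rw [pow_succ]
  omega

/-- If `p ^ w` divides `(u (p - 1)) ^ 6 - 1`, then `p ^ w ≤ (u p) ^ 2`. -/
lemma pw_le {p w u : ℕ} (hp : p.Prime) (hp3 : 3 ≤ p) (hu : 1 ≤ u)
    (h : ((p ^ w : ℕ) : ℤ) ∣ ((u : ℤ) * (p - 1)) ^ 6 - 1) : p ^ w ≤ (u * p) ^ 2 := by
  obtain ⟨Y, hY⟩ : ∃ Y, u * (p - 1) = Y + 1 := ⟨u * (p - 1) - 1, by
    have : 1 ≤ u * (p - 1) := Nat.mul_pos hu (by omega)
    omega⟩
  have hYz : (u : ℤ) * (p - 1) = (Y : ℤ) + 1 := by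
    have h1 : ((u * (p - 1) : ℕ) : ℤ) = ((Y + 1 : ℕ) : ℤ) := by rw [hY]
    rw [Nat.cast_mul, Nat.cast_sub (by omega)] at h1
    push_cast at h1
    exact h1
  rw [hYz] at h
  have h' := nat_dvd h
  have hY1 : 1 ≤ Y := by
    have : 1 * 2 ≤ u * (p - 1) := Nat.mul_le_mul hu (by omega)
    omega
  have hup : Y + 2 ≤ u * p := by
    have h1 : u * p = u * (p - 1) + u := by
      obtain ⟨m, rfl⟩ : ∃ m, p = m + 1 := ⟨p - 1, by omega⟩
      simp
      ring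
    omega
  rcases Nat.lt_or_ge p 5 with hlt | hge
  · have hp3' : p = 3 := by
      interval_cases p
      · rfl
      · exact absurd hp (by norm_num)
    subst hp3'
    rcases Nat.eq_zero_or_pos w with hw | hw
    · subst hw
      have : 1 ≤ (u * 3) ^ 2 := Nat.one_le_pow _ _ (by omega)
      rwa [pow_zero]
    have h3 : ¬ 3 ∣ Y + 1 := by
      intro h3
      have h4 : (3 : ℤ) ∣ ((Y : ℤ) + 1) ^ 6 - 1 := by
        refine dvd_trans ?_ h
        have : (3 : ℕ) ∣ 3 ^ w := dvd_pow_self 3 (by omega)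
        exact_mod_cast this
      have h5 : (3 : ℤ) ∣ ((Y : ℤ) + 1) ^ 6 := dvd_pow (by exact_mod_cast h3) (by norm_num)
      have h6 : (3 : ℤ) ∣ 1 := by
        have := dvd_sub h5 h4
        simpa using this
      norm_num at h6
    rcases bound_three h3 h' with h4 | h4
    · calc 3 ^ w ≤ 3 * (Y + 2) := h4
        _ ≤ 3 * (u * 3) := Nat.mul_le_mul_left _ hup
        _ ≤ (u * 3) ^ 2 := by nlinarith
    · omega
  · exact (bound_five hp hge hY1 h').trans (Nat.pow_le_pow_left hup 2)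

/-- If `p ^ w` divides `(u (p - 1)) ^ 6 - 1` and `w ≥ 2`, then `p ≤ (u + 1) ^ 2`. -/
lemma p_le {p w u : ℕ} (hp : p.Prime) (hp3 : 3 ≤ p) (hu : 1 ≤ u) (hw : 2 ≤ w)
    (h : ((p ^ w : ℕ) : ℤ) ∣ ((u : ℤ) * (p - 1)) ^ 6 - 1) : p ≤ (u + 1) ^ 2 := by
  rcases Nat.lt_or_ge p 5 with hlt | hge
  · have : 4 ≤ (u + 1) ^ 2 := by nlinarith
    omega
  have hp2 : ((p : ℤ)) ^ 2 ∣ ((u : ℤ) * (p - 1)) ^ 6 - 1 := by
    refine dvd_trans ?_ h
    have : p ^ 2 ∣ p ^ w := pow_dvd_pow p hw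
    exact_mod_cast this
  rcases Nat.lt_or_ge u 2 with hu2 | hu2
  · -- `u = 1`
    have hu1 : u = 1 := by omega
    subst hu1
    exfalso
    have h1 : (p : ℤ) ^ 2 ∣ 6 * p := by
      have h2 : (6 : ℤ) * p = p ^ 2 * (15 - 20 * p + 15 * p ^ 2 - 6 * p ^ 3 + p ^ 4) -
          ((((1 : ℕ) : ℤ) * (p - 1)) ^ 6 - 1) := by
        push_cast
        ring
      rw [h2]
      exact dvd_sub (Dvd.intro _ rfl) hp2
    have h3 : p ^ 2 ∣ 6 * p := by exact_mod_cast h1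
    have h4 : p ∣ 6 := by
      rw [pow_two] at h3
      exact Nat.dvd_of_mul_dvd_mul_right hp.pos h3
    have h5 : p ≤ 6 := Nat.le_of_dvd (by norm_num) h4
    have h6 : p = 5 ∨ p = 6 := by omega
    rcases h6 with rfl | rfl
    · norm_num at h4
    · exact absurd hp (by norm_num)
  · have h1 : (p : ℤ) ∣ (u : ℤ) ^ 6 - 1 := by
      have h2 : (p : ℤ) ∣ ((u : ℤ) * (p - 1)) ^ 6 - 1 := (Dvd.intro_left _ (by ring)).trans hp2
      have h3 : (u : ℤ) ^ 6 - 1 = (((u : ℤ) * (p - 1)) ^ 6 - 1) -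
          p * ((u : ℤ) ^ 6 * (p ^ 5 - 6 * p ^ 4 + 15 * p ^ 3 - 20 * p ^ 2 + 15 * p - 6)) := by ring
      rw [h3]
      exact dvd_sub h2 (Dvd.intro _ rfl)
    obtain ⟨y, rfl⟩ : ∃ y, u = y + 1 := ⟨u - 1, by omega⟩
    have hy : 1 ≤ y := by omega
    have h4 : p ∣ (y * (y + 2)) * ((y ^ 2 + 3 * y + 3) * (y ^ 2 + y + 1)) := by
      apply nat_dvd
      have h5 : ((y + 1 : ℕ) : ℤ) = (y : ℤ) + 1 := by push_cast; rfl
      rwa [h5] at h1
    have hle : ∀ B : ℕ, 0 < B → B ≤ (y + 1 + 1) ^ 2 → p ∣ B → p ≤ (y + 1 + 1) ^ 2 :=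
      fun B h0 hB hd => (Nat.le_of_dvd h0 hd).trans hB
    rcases hp.dvd_mul.1 h4 with h5 | h5
    · rcases hp.dvd_mul.1 h5 with h6 | h6
      · exact hle _ (by omega) (by nlinarith) h6
      · exact hle _ (by omega) (by nlinarith) h6
    · rcases hp.dvd_mul.1 h5 with h6 | h6
      · exact hle _ (by positivity) (by nlinarith) h6
      · exact hle _ (by positivity) (by nlinarith) h6

/-- The local inequality. -/
lemma local_le {p q f v w c u S : ℕ} (hp : p.Prime) (hp3 : 3 ≤ p) (hq : 1 ≤ q) (hf : v + w = f)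
    (hev : Even f) (hu : 1 ≤ u) (hS : S = q ^ c * u) (hSp : S * (p - 1) + 1 = p ^ (f + 1))
    (hpw : ((p ^ w : ℕ) : ℤ) ∣ (q : ℤ) ^ 6 - 1) :
    q ^ c ≤ 24 * (p ^ v) ^ 2 * u ^ 3 := by
  -- `p ^ w ∣ X ^ 6 - 1`
  have hX : ((p ^ w : ℕ) : ℤ) ∣ ((u : ℤ) * (p - 1)) ^ 6 - 1 := by
    have h1 : (q : ℤ) ^ 6 ≡ 1 [ZMOD ((p ^ w : ℕ) : ℤ)] := ((Int.modEq_iff_dvd).2 hpw).symm
    have h2 : (q : ℤ) ^ c * ((u : ℤ) * (p - 1)) ≡ -1 [ZMOD ((p ^ w : ℕ) : ℤ)] := by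
      rw [Int.modEq_iff_dvd]
      have h3 : (-1 : ℤ) - (q : ℤ) ^ c * ((u : ℤ) * (p - 1)) = -((p : ℤ) ^ (f + 1)) := by
        have h4 : ((S * (p - 1) + 1 : ℕ) : ℤ) = ((p ^ (f + 1) : ℕ) : ℤ) := by rw [hSp]
        rw [hS] at h4
        push_cast [Nat.cast_sub (show 1 ≤ p by omega)] at h4
        linarith
      rw [h3, dvd_neg]
      have : p ^ w ∣ p ^ (f + 1) := pow_dvd_pow p (by omega)
      exact_mod_cast this
    have h3 : ((q : ℤ) ^ c * ((u : ℤ) * (p - 1))) ^ 6 ≡ 1 [ZMOD ((p ^ w : ℕ) : ℤ)] := by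
      have := h2.pow 6
      simpa using this
    have h4 : ((q : ℤ) ^ c) ^ 6 ≡ 1 [ZMOD ((p ^ w : ℕ) : ℤ)] := by
      have := h1.pow c
      rw [one_pow, ← pow_mul, mul_comm 6 c, pow_mul] at this
      exact this
    have h5 : ((u : ℤ) * (p - 1)) ^ 6 ≡ 1 [ZMOD ((p ^ w : ℕ) : ℤ)] := by
      have h6 : ((q : ℤ) ^ c * ((u : ℤ) * (p - 1))) ^ 6 = ((q : ℤ) ^ c) ^ 6 * ((u : ℤ) * (p - 1)) ^ 6 :=
        mul_pow _ _ _
      rw [h6] at h3
      have h7 := h4.mul_right (((u : ℤ) * (p - 1)) ^ 6)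
      rw [one_mul] at h7
      exact h7.symm.trans h3
    exact (Int.modEq_iff_dvd).1 h5.symm
  have hA := pw_le hp hp3 hu hX
  -- `2 S ≤ 3 p ^ f`
  have hP : p ^ f = p ^ v * p ^ w := by rw [← hf, pow_add]
  have h2S : 2 * S ≤ 3 * p ^ f := by
    by_contra hcon
    push Not at hcon
    obtain ⟨m, rfl⟩ : ∃ m, p = m + 3 := ⟨p - 3, by omega⟩
    have h1 : m + 3 - 1 = m + 2 := by omega
    rw [h1, pow_succ] at hSp
    nlinarith [Nat.zero_le (m * (m + 3) ^ f)]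
  have hpv : 1 ≤ p ^ v := Nat.one_le_pow _ _ hp.pos
  have key : 2 * (q ^ c * u) ≤ 3 * (p ^ v * p ^ w) := by rw [← hS, ← hP]; exact h2S
  have fin : ∀ Z : ℕ, p ^ v * p ^ w ≤ 16 * (p ^ v) ^ 2 * (u ^ 3 * u) →
      q ^ c ≤ 24 * (p ^ v) ^ 2 * u ^ 3 := by
    intro _ h1
    have h2 : 2 * (q ^ c * u) ≤ 2 * ((24 * (p ^ v) ^ 2 * u ^ 3) * u) := by
      calc 2 * (q ^ c * u) ≤ 3 * (p ^ v * p ^ w) := key
        _ ≤ 3 * (16 * (p ^ v) ^ 2 * (u ^ 3 * u)) := Nat.mul_le_mul_left _ h1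
        _ = _ := by ring
    have h3 : q ^ c * u ≤ (24 * (p ^ v) ^ 2 * u ^ 3) * u := by omega
    exact Nat.le_of_mul_le_mul_right h3 hu
  apply fin 0
  have hvv : p ^ v ≤ (p ^ v) ^ 2 := by rw [pow_two]; exact Nat.le_mul_of_pos_left _ hpv
  have huu : 1 ≤ u ^ 3 * u := Nat.mul_pos (Nat.pow_pos hu) hu
  have hodd : w = 1 ∨ w = 3 → p ≤ p ^ v := by
    intro hw
    have hv1 : 1 ≤ v := by
      rcases Nat.eq_zero_or_pos v with h0 | h0
      · exfalso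
        rcases hev with ⟨r, hr⟩
        omega
      · exact h0
    calc p = p ^ 1 := (pow_one p).symm
      _ ≤ p ^ v := Nat.pow_le_pow_right hp.pos hv1
  rcases (show w = 0 ∨ w = 1 ∨ w = 2 ∨ w = 3 ∨ 4 ≤ w by omega) with hw | hw | hw | hw | hw
  · rw [hw, pow_zero, mul_one]
    calc p ^ v ≤ (p ^ v) ^ 2 := hvv
      _ = 1 * (p ^ v) ^ 2 * 1 := by ring
      _ ≤ 16 * (p ^ v) ^ 2 * (u ^ 3 * u) := by gcongr; norm_num
  · have h1 := hodd (Or.inl hw)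
    rw [hw, pow_one]
    calc p ^ v * p ≤ p ^ v * p ^ v := Nat.mul_le_mul_left _ h1
      _ = 1 * (p ^ v) ^ 2 * 1 := by ring
      _ ≤ 16 * (p ^ v) ^ 2 * (u ^ 3 * u) := by gcongr; norm_num
  · have h1 := p_le hp hp3 hu hw.ge hX
    rw [hw]
    have h2 : (u + 1) ^ 2 ≤ 4 * u ^ 2 := by nlinarith
    calc p ^ v * p ^ 2 ≤ (p ^ v) ^ 2 * (4 * u ^ 2) ^ 2 := by
          gcongr
          exact h1.trans h2
      _ = 16 * (p ^ v) ^ 2 * (u ^ 3 * u) := by ring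
  · have h1 := hodd (Or.inr hw)
    rw [hw] at hA ⊢
    have h2 : p ≤ u ^ 2 := by
      have h3 : p ^ 2 * p ≤ p ^ 2 * u ^ 2 := by
        calc p ^ 2 * p = p ^ 3 := by ring
          _ ≤ (u * p) ^ 2 := hA
          _ = _ := by ring
      exact Nat.le_of_mul_le_mul_left h3 (Nat.pow_pos hp.pos)
    calc p ^ v * p ^ 3 = p ^ v * p * p ^ 2 := by ring
      _ ≤ p ^ v * p ^ v * (u ^ 2) ^ 2 := by gcongr
      _ = 1 * (p ^ v) ^ 2 * (u ^ 3 * u) := by ring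
      _ ≤ 16 * (p ^ v) ^ 2 * (u ^ 3 * u) := by gcongr; norm_num
  · obtain ⟨r, rfl⟩ : ∃ r, w = r + 4 := ⟨w - 4, by omega⟩
    have h1 : p ^ (r + 2) ≤ u ^ 2 := by
      have h3 : p ^ 2 * p ^ (r + 2) ≤ p ^ 2 * u ^ 2 := by
        calc p ^ 2 * p ^ (r + 2) = p ^ (r + 4) := by ring
          _ ≤ (u * p) ^ 2 := hA
          _ = _ := by ring
      exact Nat.le_of_mul_le_mul_left h3 (Nat.pow_pos hp.pos)
    have h2 : p ^ 2 ≤ u ^ 2 := (Nat.pow_le_pow_right hp.pos (by omega)).trans h1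
    calc p ^ v * p ^ (r + 4) = p ^ v * (p ^ (r + 2) * p ^ 2) := by ring
      _ ≤ (p ^ v) ^ 2 * (u ^ 2 * u ^ 2) := by gcongr
      _ = 1 * (p ^ v) ^ 2 * (u ^ 3 * u) := by ring
      _ ≤ 16 * (p ^ v) ^ 2 * (u ^ 3 * u) := by gcongr; norm_num

lemma not_dvd_sp {q : ℕ} (hq : q.Prime) (k : ℕ) : ¬ q ∣ sp q k := by
  unfold sp
  rw [Finset.sum_range_succ']
  intro h
  have h2 : q ∣ ∑ i ∈ range k, q ^ (i + 1) :=
    Finset.dvd_sum fun i _ => dvd_pow_self q (Nat.succ_ne_zero i)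
  have h3 := (Nat.dvd_add_right h2).1 h
  simp only [pow_zero, Nat.dvd_one] at h3
  exact hq.one_lt.ne' h3

lemma setup {q k n : ℕ} (hq : q.Prime) (hqn : Nat.Coprime q n)
    (h : ∑ d ∈ (q ^ k * n ^ 2).divisors, d = 2 * (q ^ k * n ^ 2)) :
    ∃ s, ∑ d ∈ (n ^ 2).divisors, d = q ^ k * s ∧ sp q k * s = 2 * n ^ 2 := by
  have hcop : Nat.Coprime (q ^ k) (n ^ 2) := Nat.Coprime.pow _ _ hqn
  have hsp : ∑ d ∈ (q ^ k).divisors, d = sp q k := by
    rw [Nat.sum_divisors_prime_pow hq]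
    rfl
  rw [Nat.Coprime.sum_divisors_mul hcop, hsp] at h
  have h1 : q ^ k ∣ sp q k * ∑ d ∈ (n ^ 2).divisors, d := ⟨2 * n ^ 2, by rw [h]; ring⟩
  have h2 : Nat.Coprime (q ^ k) (sp q k) :=
    Nat.Coprime.pow_left k ((Nat.Prime.coprime_iff_not_dvd hq).2 (not_dvd_sp hq k))
  obtain ⟨s, hs⟩ := h2.dvd_of_dvd_mul_left h1
  refine ⟨s, hs, ?_⟩
  rw [hs] at h
  have h3 : q ^ k * (sp q k * s) = q ^ k * (2 * n ^ 2) := by
    calc q ^ k * (sp q k * s) = sp q k * (q ^ k * s) := by ring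
      _ = 2 * (q ^ k * n ^ 2) := h
      _ = _ := by ring
  exact Nat.eq_of_mul_eq_mul_left (Nat.pow_pos hq.pos) h3

/-- The index of an odd perfect number `q ^ 5 * n ^ 2` is at least `q / 24`. -/
theorem five {q n s : ℕ} (hq : q.Prime) (hn : Odd n) (hqn : Nat.Coprime q n)
    (hq2 : q ≠ 2) (h1 : ∑ d ∈ (n ^ 2).divisors, d = q ^ 5 * s) (h2 : sp q 5 * s = 2 * n ^ 2) :
    q ≤ 24 * s := by
  have hn0 : n ≠ 0 := by
    rintro rfl
    simp at hn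
  have hM0 : n ^ 2 ≠ 0 := pow_ne_zero 2 hn0
  have hs0 : s ≠ 0 := by
    rintro rfl
    rw [mul_zero] at h2
    have : 0 < 2 * n ^ 2 := by positivity
    omega
  have hqs : ¬ q ∣ s := by
    intro h
    have h3 : q ∣ 2 * n ^ 2 := by
      rw [← h2]
      exact h.mul_left _
    rcases hq.dvd_mul.1 h3 with h4 | h4
    · exact hq2 ((Nat.prime_dvd_prime_iff_eq hq Nat.prime_two).1 h4)
    · exact (Nat.Prime.coprime_iff_not_dvd hq).1 hqn (hq.dvd_of_dvd_pow h4)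
  set F := (n ^ 2).primeFactors with hF
  set f : ℕ → ℕ := fun p => (n ^ 2).factorization p with hf
  set S : ℕ → ℕ := fun p => sp p (f p) with hS
  set c : ℕ → ℕ := fun p => (S p).factorization q with hc
  set u : ℕ → ℕ := fun p => S p / q ^ c p with hu
  set v : ℕ → ℕ := fun p => s.factorization p with hv
  set w : ℕ → ℕ := fun p => (sp q 5).factorization p with hw
  have hFp : ∀ p ∈ F, p.Prime := fun p hp => Nat.prime_of_mem_primeFactors hp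
  have hF3 : ∀ p ∈ F, 3 ≤ p := by
    intro p hp
    have hp2 := (hFp p hp).two_le
    rcases Nat.lt_or_ge 2 p with h3 | h3
    · exact h3
    · exfalso
      have h4 : p = 2 := by omega
      subst h4
      have h5 : 2 ∣ n := Nat.prime_two.dvd_of_dvd_pow (Nat.dvd_of_mem_primeFactors hp)
      exact (Nat.not_even_iff_odd.2 hn) (even_iff_two_dvd.2 h5)
  have hSpos : ∀ p, 0 < S p := fun p => sp_pos p (f p)
  have hcu : ∀ p, S p = q ^ c p * u p := fun p => (Nat.ordProj_mul_ordCompl_eq_self (S p) q).symm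
  have hu1 : ∀ p, 1 ≤ u p := fun p => Nat.ordCompl_pos q (hSpos p).ne'
  have hprod : ∏ p ∈ F, S p = q ^ 5 * s := by
    rw [← h1, sum_div_eq hM0]
  have hsumc : ∑ p ∈ F, c p = 5 := by
    have h3 : (∏ p ∈ F, S p).factorization q = ∑ p ∈ F, c p := by
      rw [Nat.factorization_prod (fun p _ => (hSpos p).ne')]
      simp [Finset.sum_apply', hc]
    rw [← h3, hprod, Nat.factorization_mul (pow_ne_zero 5 hq.ne_zero) hs0]
    simp [Nat.Prime.factorization_self hq, Nat.factorization_eq_zero_of_not_dvd hqs]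
  have hprodu : ∏ p ∈ F, u p = s := by
    have h3 : ∏ p ∈ F, S p = q ^ 5 * ∏ p ∈ F, u p := by
      calc ∏ p ∈ F, S p = ∏ p ∈ F, (q ^ c p * u p) := Finset.prod_congr rfl fun p _ => hcu p
        _ = (∏ p ∈ F, q ^ c p) * ∏ p ∈ F, u p := Finset.prod_mul_distrib
        _ = _ := by rw [Finset.prod_pow_eq_pow_sum, hsumc]
    rw [hprod] at h3
    exact (Nat.eq_of_mul_eq_mul_left (Nat.pow_pos hq.pos) h3).symm
  have hvw : ∀ p ∈ F, v p + w p = f p := by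
    intro p hp
    have h3 : (sp q 5 * s).factorization p = (2 * n ^ 2).factorization p := by rw [h2]
    rw [Nat.factorization_mul (sp_pos q 5).ne' hs0, Nat.factorization_mul (by norm_num) hM0] at h3
    have h4 : (Nat.factorization 2) p = 0 := by
      apply Nat.factorization_eq_zero_of_not_dvd
      intro h5
      have := Nat.le_of_dvd (by norm_num) h5
      have := hF3 p hp
      omega
    simp only [Finsupp.add_apply, h4, zero_add] at h3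
    show s.factorization p + (sp q 5).factorization p = (n ^ 2).factorization p
    rw [← h3, add_comm]
  have hev : ∀ p, Even (f p) := by
    intro p
    show Even ((n ^ 2).factorization p)
    rw [Nat.factorization_pow]
    simp
  have hlocal : ∀ p ∈ F, q ^ c p ≤ 24 * (p ^ v p) ^ 2 * u p ^ 3 := by
    intro p hp
    refine local_le (hFp p hp) (hF3 p hp) hq.one_le (hvw p hp) (hev p) (hu1 p) (hcu p) ?_ ?_
    · have h3 := sp_mul p (f p) (hFp p hp).pos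
      have h4 : 1 ≤ p ^ (f p + 1) := Nat.one_le_pow _ _ (hFp p hp).pos
      show sp p (f p) * (p - 1) + 1 = _
      omega
    · have h3 : p ^ w p ∣ q ^ 6 - 1 :=
        (Nat.ordProj_dvd _ _).trans (Dvd.intro _ (sp_mul q 5 hq.pos))
      have h4 : ((q ^ 6 - 1 : ℕ) : ℤ) = (q : ℤ) ^ 6 - 1 := by
        rw [Nat.cast_sub (Nat.one_le_pow _ _ hq.pos)]
        push_cast
        ring
      rw [← h4]
      exact_mod_cast h3
  set T := F.filter (fun p => c p ≠ 0) with hT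
  have hsumT : ∑ p ∈ T, c p = 5 := by rw [hT, Finset.sum_filter_ne_zero, hsumc]
  have hcardT : T.card ≤ 5 := by
    calc T.card = ∑ _p ∈ T, 1 := by simp
      _ ≤ ∑ p ∈ T, c p := Finset.sum_le_sum fun p hp =>
          Nat.one_le_iff_ne_zero.2 (Finset.mem_filter.1 hp).2
      _ = 5 := hsumT
  have hTv : ∏ p ∈ T, p ^ v p ≤ s :=
    prod_part_le T (fun p hp => hFp p (Finset.mem_filter.1 hp).1) hs0
  have hTu : ∏ p ∈ T, u p ≤ s := by
    rw [← hprodu]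
    exact Finset.prod_le_prod_of_subset_of_one_le' (Finset.filter_subset _ _) fun p _ _ => hu1 p
  have hfin : q ^ 5 ≤ (24 * s) ^ 5 := by
    calc q ^ 5 = ∏ p ∈ T, q ^ c p := by rw [Finset.prod_pow_eq_pow_sum, hsumT]
      _ ≤ ∏ p ∈ T, (24 * (p ^ v p) ^ 2 * u p ^ 3) :=
          Finset.prod_le_prod' fun p hp => hlocal p (Finset.mem_filter.1 hp).1
      _ = 24 ^ T.card * (∏ p ∈ T, p ^ v p) ^ 2 * (∏ p ∈ T, u p) ^ 3 := by
          rw [Finset.prod_mul_distrib, Finset.prod_mul_distrib, Finset.prod_const,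
            Finset.prod_pow, Finset.prod_pow]
      _ ≤ 24 ^ 5 * s ^ 2 * s ^ 3 := by
          gcongr
          norm_num
      _ = (24 * s) ^ 5 := by ring
  exact (Nat.pow_le_pow_iff_left (by norm_num)).1 hfin

theorem main {N q k n : ℕ} (hodd : Odd N) (hperf : Nat.Perfect N) (hq : q.Prime)
    (hk : k % 4 = 1) (hqn : Nat.Coprime q n) (hN : N = q ^ k * n ^ 2) (hk1 : 1 < k) :
    q ^ 6 < 48 * n ^ 2 := by
  subst hN
  have hpos : 0 < q ^ k * n ^ 2 := hperf.2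
  have hsum := (Nat.perfect_iff_sum_divisors_eq_two_mul hpos).1 hperf
  have hq2 : q ≠ 2 := by
    rintro rfl
    have h1 : 2 ∣ 2 ^ k * n ^ 2 := (dvd_pow_self 2 (by omega)).mul_right _
    exact (Nat.not_even_iff_odd.2 hodd) (even_iff_two_dvd.2 h1)
  have hn : Odd n := by
    have h1 : Odd (n ^ 2) := (Nat.odd_mul.1 hodd).2
    exact (Nat.odd_pow_iff (by norm_num)).1 h1
  obtain ⟨s, hs1, hs2⟩ := setup hq hqn hsum
  have hs0 : 0 < s := by
    rcases Nat.eq_zero_or_pos s with h0 | h0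
    · exfalso
      rw [h0, mul_zero] at hs2
      have h1 : 0 < n ^ 2 := Nat.pos_of_mul_pos_left hpos |> fun h => by
        rcases Nat.eq_zero_or_pos (n ^ 2) with h2 | h2
        · rw [h2, mul_zero] at hpos
          exact absurd hpos (lt_irrefl _)
        · exact h2
      omega
    · exact h0
  have hsp : q ^ k < sp q k := by
    unfold sp
    rw [Finset.sum_range_succ]
    have h1 : 0 < ∑ i ∈ range k, q ^ i :=
      Finset.sum_pos (fun i _ => Nat.pow_pos hq.pos) ⟨0, Finset.mem_range.2 (by omega)⟩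
    omega
  rcases Nat.lt_or_ge k 6 with hk6 | hk6
  · have hk5 : k = 5 := by omega
    subst hk5
    have h24 := five hq hn hqn hq2 hs1 hs2
    calc q ^ 6 = q ^ 5 * q := by ring
      _ ≤ q ^ 5 * (24 * s) := Nat.mul_le_mul_left _ h24
      _ = 24 * (q ^ 5 * s) := by ring
      _ < 24 * (sp q 5 * s) := by
          have := Nat.mul_lt_mul_of_pos_right hsp hs0
          omega
      _ = 48 * n ^ 2 := by rw [hs2]; ring
  · calc q ^ 6 ≤ q ^ k := Nat.pow_le_pow_right hq.pos hk6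
      _ < sp q k := hsp
      _ ≤ sp q k * s := Nat.le_mul_of_pos_right _ hs0
      _ = 2 * n ^ 2 := hs2
      _ ≤ 48 * n ^ 2 := by omega

end Pool.Agent.H24.Opn.EulerFive
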