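import Mathlib

/-!
Extrapolation: an entire function with many small Taylor coefficients at the odd integers
`1, 3, …, 2 R - 1` is small on the disc of radius `2 R`.
-/

namespace Pool.Agent.H24.Opn.Extr

open Complex

/-- the Taylor coefficient of order `s` at `l`, as the value of the iterated slope -/
noncomputable def tc (f : ℂ → ℂ) (l : ℂ) (s : ℕ) : ℂ := ((Function.swap dslope l)^[s] f) l

lemma tc_zero (f : ℂ → ℂ) (l : ℂ) : tc f l 0 = f l := rfl

lemma tc_succ (f : ℂ → ℂ) (l : ℂ) (s : ℕ) : tc f l (s + 1) = tc (dslope f l) l s := by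
  unfold tc
  rw [Function.iterate_succ_apply]

lemma diff_dslope {f : ℂ → ℂ} (hf : Differentiable ℂ f) (l : ℂ) : Differentiable ℂ (dslope f l) := by
  rw [← differentiableOn_univ] at hf ⊢
  exact (Complex.differentiableOn_dslope Filter.univ_mem).2 hf

/-- slopes of `c + (z - l₀) g` at another point -/
lemma dslope_prod {g : ℂ → ℂ} (hg : Differentiable ℂ g) (c l₀ l : ℂ) :
    dslope (fun z => c + (z - l₀) * g z) l = fun z => g z + (l - l₀) * dslope g l z := by
  funext z
  rcases eq_or_ne z l with rfl | hne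
  · rw [dslope_same, dslope_same]
    have h1 : HasDerivAt (fun w => c + (w - l₀) * g w) (1 * g z + (z - l₀) * deriv g z) z :=
      ((((hasDerivAt_id z).sub_const l₀).mul (hg z).hasDerivAt)).const_add c
    rw [h1.deriv]; ring
  · rw [dslope_of_ne _ hne, dslope_of_ne _ hne, slope_def_field, slope_def_field]
    have : z - l ≠ 0 := sub_ne_zero.2 hne
    field_simp
    ring

lemma dslope_comb {g h : ℂ → ℂ} (hg : Differentiable ℂ g) (hh : Differentiable ℂ h) (c l : ℂ) :
    dslope (fun z => g z + c * h z) l = fun z => dslope g l z + c * dslope h l z := by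
  funext z
  rcases eq_or_ne z l with rfl | hne
  · rw [dslope_same, dslope_same, dslope_same]
    have h1 : HasDerivAt (fun w => g w + c * h w) (deriv g z + c * deriv h z) z :=
      (hg z).hasDerivAt.add ((hh z).hasDerivAt.const_mul c)
    rw [h1.deriv]
  · rw [dslope_of_ne _ hne, dslope_of_ne _ hne, dslope_of_ne _ hne, slope_def_field,
      slope_def_field, slope_def_field]
    have : z - l ≠ 0 := sub_ne_zero.2 hne
    field_simp
    ring

lemma iter_diff {f : ℂ → ℂ} (hf : Differentiable ℂ f) (l : ℂ) (s : ℕ) :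
    Differentiable ℂ ((Function.swap dslope l)^[s] f) := by
  induction s generalizing f with
  | zero => exact hf
  | succ s ih => rw [Function.iterate_succ_apply]; exact ih (diff_dslope hf l)

lemma iter_comb {g h : ℂ → ℂ} (hg : Differentiable ℂ g) (hh : Differentiable ℂ h) (c l : ℂ) (s : ℕ) :
    (Function.swap dslope l)^[s] (fun z => g z + c * h z) =
      fun z => ((Function.swap dslope l)^[s] g) z + c * ((Function.swap dslope l)^[s] h) z := by
  induction s generalizing g h with
  | zero => rfl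
  | succ s ih =>
    rw [Function.iterate_succ_apply, Function.iterate_succ_apply, Function.iterate_succ_apply]
    show (Function.swap dslope l)^[s] (dslope _ l) = _
    rw [dslope_comb hg hh, ih (diff_dslope hg l) (diff_dslope hh l)]

/-- the relation between Taylor coefficients of `f` and of its slope at another node -/
lemma tc_rel {f : ℂ → ℂ} (hf : Differentiable ℂ f) (l₀ l : ℂ) (s : ℕ) :
    tc f l (s + 1) = tc (dslope f l₀) l s + (l - l₀) * tc (dslope f l₀) l (s + 1) := by
  set g := dslope f l₀ with hg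
  have hgd : Differentiable ℂ g := diff_dslope hf l₀
  have hfg : f = fun z => f l₀ + (z - l₀) * g z := by
    funext z
    have := sub_smul_dslope f l₀ z
    rw [smul_eq_mul] at this
    rw [hg, this]; ring
  have h1 : dslope f l = fun z => g z + (l - l₀) * dslope g l z := by
    conv_lhs => rw [hfg]
    exact dslope_prod hgd _ _ _
  rw [tc_succ, tc_succ, h1]
  unfold tc
  rw [iter_comb hgd (diff_dslope hgd l)]

lemma tc_rel0 (f : ℂ → ℂ) (l₀ l : ℂ) : tc f l 0 = f l₀ + (l - l₀) * tc (dslope f l₀) l 0 := by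
  have := sub_smul_dslope f l₀ l
  rw [smul_eq_mul] at this
  rw [tc_zero, tc_zero, this]; ring

/-- the nodes -/
noncomputable def nd (r : ℕ) : ℂ := 2 * (r : ℂ) + 1

lemma nd_dist {r r' : ℕ} (h : r ≠ r') : 2 ≤ ‖nd r - nd r'‖ := by
  have e : nd r - nd r' = ((2 * ((r : ℤ) - (r' : ℤ)) : ℤ) : ℂ) := by
    unfold nd; push_cast; ring
  rw [e, Complex.norm_intCast]
  have h1 : (1 : ℤ) ≤ |(r : ℤ) - r'| := Int.one_le_abs (by omega)
  have h2 : |((2 * ((r : ℤ) - (r' : ℤ)) : ℤ) : ℝ)| = 2 * ((|(r : ℤ) - r'| : ℤ) : ℝ) := by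
    push_cast; rw [abs_mul]; norm_num
  rw [h2]
  have h3 : (1 : ℝ) ≤ ((|(r : ℤ) - r'| : ℤ) : ℝ) := by exact_mod_cast h1
  linarith

lemma nd_norm {r R : ℕ} (h : r < R) : ‖nd r‖ ≤ 2 * R := by
  have e : nd r = ((2 * r + 1 : ℕ) : ℂ) := by unfold nd; push_cast; ring
  rw [e, Complex.norm_natCast]
  have : 2 * r + 1 ≤ 2 * R := by omega
  exact_mod_cast this

/-- maximum modulus -/
lemma maxmod {f : ℂ → ℂ} (hf : Differentiable ℂ f) {ρ B : ℝ} (hB : ∀ z, ‖z‖ = ρ → ‖f z‖ ≤ B)
    (hρ : 0 < ρ) {z : ℂ} (hz : ‖z‖ ≤ ρ) : ‖f z‖ ≤ B := by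
  have h1 : DiffContOnCl ℂ f (Metric.ball 0 ρ) := hf.diffContOnCl
  refine Complex.norm_le_of_forall_mem_frontier_norm_le (U := Metric.ball 0 ρ) Metric.isBounded_ball h1
    (fun w hw => hB w ?_) ?_
  · rw [frontier_ball _ hρ.ne'] at hw
    simpa using hw
  · rw [closure_ball _ hρ.ne']
    simpa using hz

/-- the extrapolation lemma -/
theorem extrap (R : ℕ) (hR : 1 ≤ R) (ρ : ℝ) (hρ : 34 * (R : ℝ) ≤ ρ) (ε : ℝ) (hε : 0 ≤ ε) :
    ∀ (M : ℕ) (μ : ℕ → ℕ), ∑ r ∈ Finset.range R, μ r = M → ∀ (f : ℂ → ℂ), Differentiable ℂ f →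
      ∀ B : ℝ, (∀ z, ‖z‖ = ρ → ‖f z‖ ≤ B) →
      (∀ r < R, ∀ s < μ r, ‖tc f (nd r) s‖ ≤ ε) →
      ∀ z, ‖z‖ ≤ 2 * R → ‖f z‖ ≤ (8 * R) ^ M * ε + (1 / 8) ^ M * B := by
  have hR' : (1 : ℝ) ≤ R := by exact_mod_cast hR
  intro M
  induction M with
  | zero =>
    intro μ _ f hf B hB _ z hz
    have h1 := maxmod hf hB (by linarith) (z := z) (by linarith)
    simp only [pow_zero, one_mul]
    linarith
  | succ M ih =>
    intro μ hμ f hf B hB htc z hz
    obtain ⟨r₀, hr₀, hμ₀⟩ : ∃ r ∈ Finset.range R, 0 < μ r := by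
      by_contra hcon
      push Not at hcon
      have : ∑ r ∈ Finset.range R, μ r = 0 := Finset.sum_eq_zero fun r hr => by
        have := hcon r hr; omega
      omega
    have hr₀' := Finset.mem_range.1 hr₀
    set g := dslope f (nd r₀) with hg
    have hgd : Differentiable ℂ g := diff_dslope hf _
    have hf0 : ‖f (nd r₀)‖ ≤ ε := by
      have := htc r₀ hr₀' 0 hμ₀
      rwa [tc_zero] at this
    have key : ∀ w, f w = f (nd r₀) + (w - nd r₀) * g w := by
      intro w
      have := sub_smul_dslope f (nd r₀) w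
      rw [smul_eq_mul] at this
      rw [hg, this]; ring
    have hgB : ∀ w, ‖w‖ = ρ → ‖g w‖ ≤ (B + ε) / (32 * R) := by
      intro w hw
      have h1 : 32 * (R : ℝ) ≤ ‖w - nd r₀‖ := by
        have h2 := norm_sub_norm_le w (nd r₀)
        have h3 := nd_norm hr₀'
        linarith
      have h4 : ‖w - nd r₀‖ * ‖g w‖ ≤ B + ε := by
        rw [← norm_mul]
        have : (w - nd r₀) * g w = f w - f (nd r₀) := by rw [key w]; ring
        rw [this]
        exact (norm_sub_le _ _).trans (add_le_add (hB w hw) hf0)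
      rw [le_div_iff₀ (by linarith)]
      calc ‖g w‖ * (32 * R) ≤ ‖g w‖ * ‖w - nd r₀‖ := by gcongr
        _ ≤ B + ε := by rw [mul_comm]; exact h4
    have htcg : ∀ r < R, ∀ s < (Function.update μ r₀ (μ r₀ - 1)) r, ‖tc g (nd r) s‖ ≤ ε := by
      intro r hr s hs
      by_cases h : r = r₀
      · subst h
        rw [Function.update_self] at hs
        rw [hg, ← tc_succ]
        exact htc r hr (s + 1) (by omega)
      · rw [Function.update_of_ne h] at hs
        have hd := nd_dist h
        have hpos : 0 < ‖nd r - nd r₀‖ := by linarith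
        clear ih
        induction s with
        | zero =>
          have h1 := tc_rel0 f (nd r₀) (nd r)
          have h2 : (nd r - nd r₀) * tc g (nd r) 0 = tc f (nd r) 0 - f (nd r₀) := by
            rw [h1]; ring
          have h3 : ‖nd r - nd r₀‖ * ‖tc g (nd r) 0‖ ≤ ε + ε := by
            rw [← norm_mul, h2]
            exact (norm_sub_le _ _).trans (add_le_add (htc r hr 0 hs) hf0)
          nlinarith [norm_nonneg (tc g (nd r) 0)]
        | succ s ihs =>
          have h0 := ihs (by omega)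
          have h1 := tc_rel hf (nd r₀) (nd r) s
          have h2 : (nd r - nd r₀) * tc g (nd r) (s + 1) = tc f (nd r) (s + 1) - tc g (nd r) s := by
            rw [h1]; ring
          have h3 : ‖nd r - nd r₀‖ * ‖tc g (nd r) (s + 1)‖ ≤ ε + ε := by
            rw [← norm_mul, h2]
            exact (norm_sub_le _ _).trans (add_le_add (htc r hr (s + 1) hs) h0)
          nlinarith [norm_nonneg (tc g (nd r) (s + 1))]
    have hsum : ∑ r ∈ Finset.range R, (Function.update μ r₀ (μ r₀ - 1)) r = M := by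
      rw [Finset.sum_update_of_mem hr₀]
      have h1 : ∑ r ∈ Finset.range R, μ r = μ r₀ + ∑ r ∈ Finset.range R \ {r₀}, μ r := by
        rw [← Finset.add_sum_erase _ _ hr₀, Finset.sdiff_singleton_eq_erase]
      omega
    have h5 := ih _ hsum g hgd _ hgB htcg z hz
    have h6 : ‖z - nd r₀‖ ≤ 4 * R := by
      have := norm_sub_le z (nd r₀)
      have := nd_norm hr₀'
      linarith
    have h7 : ‖f z‖ ≤ ε + 4 * R * ((8 * R) ^ M * ε + (1 / 8) ^ M * ((B + ε) / (32 * R))) := by
      rw [key z]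
      refine (norm_add_le _ _).trans (add_le_add hf0 ?_)
      rw [norm_mul]
      have hnn : 0 ≤ (8 * (R : ℝ)) ^ M * ε + (1 / 8) ^ M * ((B + ε) / (32 * R)) := le_trans (norm_nonneg _) h5
      exact mul_le_mul h6 h5 (norm_nonneg _) (by positivity)
    refine h7.trans ?_
    have h8 : 4 * (R : ℝ) * ((1 / 8) ^ M * ((B + ε) / (32 * R))) = (1 / 8) ^ (M + 1) * (B + ε) := by
      field_simp
      ring
    have h9 : ((1 : ℝ) / 8) ^ (M + 1) ≤ 1 := pow_le_one₀ (by norm_num) (by norm_num)
    have h10 : (1 : ℝ) ≤ (8 * R) ^ M := one_le_pow₀ (by linarith)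
    have h11 : ε + 4 * R * ((8 * R) ^ M * ε) + (1 / 8) ^ (M + 1) * ε ≤ (8 * R) ^ (M + 1) * ε := by
      have : 1 + 4 * (R : ℝ) * (8 * R) ^ M + (1 / 8) ^ (M + 1) ≤ (8 * R) ^ (M + 1) := by
        have e : (8 * (R : ℝ)) ^ (M + 1) = (8 * R) ^ M * (8 * R) := pow_succ _ _
        rw [e]
        nlinarith
      nlinarith
    calc ε + 4 * R * ((8 * R) ^ M * ε + (1 / 8) ^ M * ((B + ε) / (32 * R)))
        = ε + 4 * R * ((8 * R) ^ M * ε) + (1 / 8) ^ (M + 1) * (B + ε) := by rw [mul_add, h8]; ring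
      _ = (ε + 4 * R * ((8 * R) ^ M * ε) + (1 / 8) ^ (M + 1) * ε) + (1 / 8) ^ (M + 1) * B := by ring
      _ ≤ _ := by linarith

/-- Taylor coefficients of an exponential sum -/
lemma tc_exp {ι : Type*} (T : Finset ι) (a ξ : ι → ℂ) (l : ℂ) (s : ℕ) :
    tc (fun z => ∑ i ∈ T, a i * Complex.exp (ξ i * z)) l s =
      ∑ i ∈ T, a i * (ξ i ^ s / (s.factorial : ℂ) * Complex.exp (ξ i * l)) := by
  set f : ℂ → ℂ := fun z => ∑ i ∈ T, a i * Complex.exp (ξ i * z) with hf
  have hd : Differentiable ℂ f := by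
    rw [hf]; fun_prop
  have ha : AnalyticAt ℂ f l := hd.analyticAt l
  have hp := ha.hasFPowerSeriesAt
  have h1 := HasFPowerSeriesAt.has_fpower_series_iterate_dslope_fslope s hp
  have h2 := h1.coeff_zero 1
  have h3 : tc f l s = iteratedDeriv s f l / (s.factorial : ℂ) := by
    unfold tc
    rw [← h2, ← FormalMultilinearSeries.coeff, FormalMultilinearSeries.coeff_iterate_fslope, zero_add,
      FormalMultilinearSeries.coeff_ofScalars]
  rw [h3]
  have h4 : ∀ n : ℕ, iteratedDeriv n f = fun z => ∑ i ∈ T, a i * (ξ i ^ n * Complex.exp (ξ i * z)) := by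
    intro n
    induction n with
    | zero => simp [hf]
    | succ n ih =>
      rw [iteratedDeriv_succ, ih]
      funext z
      have : HasDerivAt (fun z => ∑ i ∈ T, a i * (ξ i ^ n * Complex.exp (ξ i * z)))
          (∑ i ∈ T, a i * (ξ i ^ n * (Complex.exp (ξ i * z) * (ξ i * 1)))) z := by
        refine HasDerivAt.fun_sum fun i _ => ?_
        exact (((hasDerivAt_id z).const_mul (ξ i)).cexp.const_mul _).const_mul _
      rw [this.deriv]
      refine Finset.sum_congr rfl fun i _ => ?_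
      ring
  rw [h4 s, Finset.sum_div]
  refine Finset.sum_congr rfl fun i _ => ?_
  ring

end Pool.Agent.H24.Opn.Extr
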