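import Pool.Agent.H24.Opn.Ent

/-!
Few large entries in a column; the matrix of `σ(N)`; a polynomial bound for the exponents.
-/

namespace Pool.Agent.H24.Opn.Few

open Finset

/-- the entries -/
noncomputable def ent (e : ℕ → ℕ) (p q : ℕ) : ℝ := ((sp p (e p)).factorization q : ℝ) * Real.log q

lemma ent_nonneg (e : ℕ → ℕ) (p q : ℕ) : 0 ≤ ent e p q := by
  unfold ent
  rcases Nat.eq_zero_or_pos q with rfl | hq
  · simp
  · have : 0 ≤ Real.log (q : ℝ) := Real.log_nonneg (by exact_mod_cast hq)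
    positivity

lemma ent_self {q : ℕ} (hq : q.Prime) (e : ℕ → ℕ) : ent e q q = 0 := by
  unfold ent
  have h0 : (sp q (e q)).factorization q = 0 := by
    apply Nat.factorization_eq_zero_of_not_dvd
    unfold sp
    rw [Finset.sum_range_succ']
    intro h
    have h2 : q ∣ ∑ k ∈ range (e q), q ^ (k + 1) :=
      Finset.dvd_sum fun i _ => dvd_pow_self q (Nat.succ_ne_zero i)
    have h3 := (Nat.dvd_add_right h2).1 h
    simp only [pow_zero, Nat.dvd_one] at h3
    exact hq.one_lt.ne' h3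
  rw [h0]; simp

/-- few large entries in a column -/
theorem few (q y m : ℕ) (hm : 1 ≤ m) (hq : q.Prime) (hq2 : q ≠ 2) (hqy : q ≤ y) (P : Finset ℕ)
    (hPc : P.card = m) (e : ℕ → ℕ) (hP : ∀ p ∈ P, p.Prime ∧ p ≤ y)
    (he : ∀ p ∈ P, Real.log (e p + 1) ≤ 3 * Real.log y) (X : ℝ)
    (hX : ∀ p ∈ P, X < ent e p q) :
    X < m * (y : ℝ) ^ (1 / (m : ℝ)) * Real.log y + 4 * Real.log y := by
  have hqr : (2 : ℝ) ≤ q := by exact_mod_cast hq.two_le
  have hyr : (2 : ℝ) ≤ y := hqr.trans (by exact_mod_cast hqy)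
  have hlq : 0 < Real.log q := Real.log_pos (by linarith)
  have hly : 0 < Real.log y := Real.log_pos (by linarith)
  have hlqy : Real.log q ≤ Real.log y := Real.log_le_log (by linarith) (by exact_mod_cast hqy)
  have hmr : (0 : ℝ) < m := by exact_mod_cast hm
  have hym : 0 < (y : ℝ) ^ (1 / (m : ℝ)) := Real.rpow_pos_of_pos (by linarith) _
  by_cases hX0 : X < 0
  · have : 0 ≤ m * (y : ℝ) ^ (1 / (m : ℝ)) * Real.log y + 4 * Real.log y := by positivity
    linarith
  push Not at hX0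
  by_cases hX4 : X < 4 * Real.log y
  · have : 0 ≤ m * (y : ℝ) ^ (1 / (m : ℝ)) * Real.log y := by positivity
    linarith
  push Not at hX4
  set V := ⌊(X - 3 * Real.log y) / Real.log q⌋₊ with hV
  have hquot : 0 ≤ (X - 3 * Real.log y) / Real.log q := div_nonneg (by linarith) hlq.le
  have hV1 : (V : ℝ) ≤ (X - 3 * Real.log y) / Real.log q := Nat.floor_le hquot
  have hV2 : (X - 3 * Real.log y) / Real.log q < V + 1 := Nat.lt_floor_add_one _
  have hV0 : V ≠ 0 := by
    have h1 : (1 : ℝ) ≤ (X - 3 * Real.log y) / Real.log q := by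
      rw [le_div_iff₀ hlq]; linarith
    have := Nat.le_floor (n := 1) (by exact_mod_cast h1 : ((1 : ℕ) : ℝ) ≤ _)
    omega
  -- divisibility
  have hdiv : ∀ p ∈ P, p.Prime ∧ p ≤ y ∧ q ^ V ∣ p ^ (q - 1) - 1 := by
    intro p hp
    obtain ⟨hpp, hpy⟩ := hP p hp
    refine ⟨hpp, hpy, ?_⟩
    have hpq : q ≠ p := by
      rintro rfl
      have := hX q hp
      rw [ent_self hq] at this
      linarith
    have h1 := Ent.sp_fact_le p (e p) q hpp
    have h2 := Ent.v_le_fermat hpp hq hq2 hpq (Nat.succ_ne_zero (e p))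
    have h3 : ((sp p (e p)).factorization q : ℝ) ≤
        ((p ^ (q - 1) - 1).factorization q : ℝ) + ((e p + 1).factorization q : ℝ) := by
      exact_mod_cast h1.trans h2
    have h4 : ((e p + 1).factorization q : ℝ) * Real.log q ≤ Real.log (e p + 1) := by
      have := Ent.sum_part_le {q} (fun r hr => by rw [Finset.mem_singleton.1 hr]; exact hq)
        (Nat.succ_ne_zero (e p))
      rw [Finset.sum_singleton] at this
      push_cast at this
      exact this
    have h5 := hX p hp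
    unfold ent at h5
    have h6 : (V : ℝ) * Real.log q ≤ ((p ^ (q - 1) - 1).factorization q : ℝ) * Real.log q := by
      have h7 : (V : ℝ) * Real.log q ≤ X - 3 * Real.log y := (le_div_iff₀ hlq).1 hV1
      have h8 := mul_le_mul_of_nonneg_right h3 hlq.le
      have h9 := he p hp
      linarith
    have h10 : (V : ℝ) ≤ ((p ^ (q - 1) - 1).factorization q : ℝ) := le_of_mul_le_mul_right h6 hlq
    have h11 : V ≤ (p ^ (q - 1) - 1).factorization q := by exact_mod_cast h10
    exact (pow_dvd_pow q h11).trans (Nat.ordProj_dvd _ _)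
  set I := ⌊(q : ℝ) ^ (1 / (m : ℝ))⌋₊ with hI
  have hqm0 : 0 ≤ (q : ℝ) ^ (1 / (m : ℝ)) := by positivity
  have hI1 : (I : ℝ) ≤ (q : ℝ) ^ (1 / (m : ℝ)) := Nat.floor_le hqm0
  have hI2 : (q : ℝ) ^ (1 / (m : ℝ)) < I + 1 := Nat.lt_floor_add_one _
  have hcard : q - 1 < (I + 1) ^ P.card := by
    rw [hPc]
    have h1 : (q : ℝ) < ((I : ℝ) + 1) ^ m := by
      calc (q : ℝ) = ((q : ℝ) ^ (1 / (m : ℝ))) ^ (m : ℝ) := by
            rw [← Real.rpow_mul (by linarith), one_div_mul_cancel hmr.ne', Real.rpow_one]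
        _ = ((q : ℝ) ^ (1 / (m : ℝ))) ^ m := Real.rpow_natCast _ _
        _ < ((I : ℝ) + 1) ^ m := pow_lt_pow_left₀ hI2 hqm0 (by omega)
    have h2 : q < (I + 1) ^ m := by exact_mod_cast h1
    omega
  have hmain := Ent.mono q V y I P hq hq2 hV0 hdiv hcard
  rw [hPc] at hmain
  have hlog : (V : ℝ) * Real.log q ≤ (I * m : ℕ) * Real.log y := by
    have h1 : Real.log ((q : ℝ) ^ V) ≤ Real.log ((y : ℝ) ^ (I * m)) :=
      Real.log_le_log (by positivity) (by exact_mod_cast hmain)
    rwa [Real.log_pow, Real.log_pow] at h1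
  have h2 : (X - 3 * Real.log y) < (V + 1) * Real.log q := (div_lt_iff₀ hlq).1 hV2
  have h3 : ((I * m : ℕ) : ℝ) * Real.log y ≤ m * (y : ℝ) ^ (1 / (m : ℝ)) * Real.log y := by
    push_cast
    refine mul_le_mul_of_nonneg_right ?_ hly.le
    rw [mul_comm]
    refine mul_le_mul_of_nonneg_left (hI1.trans ?_) hmr.le
    exact Real.rpow_le_rpow (by linarith) (by exact_mod_cast hqy) (by positivity)
  linarith

/-- row sums -/
lemma row_le (e : ℕ → ℕ) (p : ℕ) (hp : p.Prime) (A : Finset ℕ) (hA : ∀ q ∈ A, q.Prime) :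
    ∑ q ∈ A, ent e p q ≤ (e p : ℝ) * Real.log p + Real.log 2 := by
  unfold ent
  refine (Ent.sum_part_le A hA (sp_pos p (e p)).ne').trans ?_
  have h1 : sp p (e p) ≤ 2 * p ^ e p := by
    have h2 := sp_mul p (e p) hp.pos
    have h3 : sp p (e p) * (p - 1) ≤ (2 * p ^ e p) * (p - 1) := by
      rw [h2, pow_succ]
      have h4 := hp.two_le
      have h5 : p ≤ 2 * (p - 1) := by omega
      calc p ^ e p * p - 1 ≤ p ^ e p * p := Nat.sub_le _ _
        _ ≤ p ^ e p * (2 * (p - 1)) := Nat.mul_le_mul_left _ h5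
        _ = _ := by ring
    exact Nat.le_of_mul_le_mul_right h3 (by have := hp.two_le; omega)
  have hp0 : (0 : ℝ) < p := by exact_mod_cast hp.pos
  calc Real.log (sp p (e p) : ℝ) ≤ Real.log (2 * (p : ℝ) ^ e p) :=
        Real.log_le_log (by exact_mod_cast sp_pos p (e p)) (by exact_mod_cast h1)
    _ = _ := by
        rw [Real.log_mul (by norm_num) (by positivity), Real.log_pow]; ring

/-- column sums -/
lemma col_le {a b N : ℕ} (hb : 0 < b) (hN : 0 < N) (h : b * ∑ d ∈ N.divisors, d = a * N) (q : ℕ)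
    (hq : q.Prime) :
    (N.factorization q : ℝ) * Real.log q ≤
      ∑ p ∈ N.primeFactors, ent N.factorization p q + (b.factorization q : ℝ) * Real.log q := by
  have hS : ∏ p ∈ N.primeFactors, sp p (N.factorization p) ≠ 0 :=
    Finset.prod_ne_zero_iff.2 fun p _ => (sp_pos _ _).ne'
  rw [sum_div_eq hN.ne'] at h
  have ha : a ≠ 0 := by
    rintro rfl
    rw [zero_mul] at h
    exact (Nat.mul_pos hb (Nat.pos_of_ne_zero hS)).ne' h
  have h1 : N.factorization q ≤ (a * N).factorization q := by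
    rw [Nat.factorization_mul ha hN.ne']
    simp
  rw [← h, Nat.factorization_mul hb.ne' hS, Nat.factorization_prod
    (fun p _ => (sp_pos _ _).ne')] at h1
  have h2 : N.factorization q ≤ b.factorization q +
      ∑ p ∈ N.primeFactors, (sp p (N.factorization p)).factorization q := by
    simpa [Finset.sum_apply'] using h1
  have h3 : (N.factorization q : ℝ) ≤ (b.factorization q : ℝ) +
      ∑ p ∈ N.primeFactors, ((sp p (N.factorization p)).factorization q : ℝ) := by exact_mod_cast h2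
  have hlq : 0 ≤ Real.log (q : ℝ) := Real.log_nonneg (by exact_mod_cast hq.one_le)
  have h4 := mul_le_mul_of_nonneg_right h3 hlq
  unfold ent
  rw [← Finset.sum_mul]
  linarith

/-- a polynomial bound for the exponents -/
lemma exp_le {a b N : ℕ} (hb : 0 < b) (hN : 0 < N) (h : b * ∑ d ∈ N.divisors, d = a * N) (y : ℕ)
    (hy : ∀ q ∈ N.primeFactors, q ≤ y) (hay : a ≤ y) (p : ℕ) (hp : p ∈ N.primeFactors) :
    N.factorization p ≤ 2 * y ^ 2 + 8 := by
  have hpp := Nat.prime_of_mem_primeFactors hp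
  have hS : ∏ p ∈ N.primeFactors, sp p (N.factorization p) ≠ 0 :=
    Finset.prod_ne_zero_iff.2 fun p _ => (sp_pos _ _).ne'
  have h' := h
  rw [sum_div_eq hN.ne'] at h'
  have ha : a ≠ 0 := by
    rintro rfl
    rw [zero_mul] at h'
    exact (Nat.mul_pos hb (Nat.pos_of_ne_zero hS)).ne' h'
  set e := N.factorization p with he
  set A := (sp p e).primeFactors with hA
  have hAy : ∀ q ∈ A, q ≤ y := by
    intro q hq
    have hqp := Nat.prime_of_mem_primeFactors hq
    have hqd := Nat.dvd_of_mem_primeFactors hq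
    have h1 : q ∣ a * N := by
      rw [← h']
      exact Dvd.dvd.mul_left (hqd.trans (Finset.dvd_prod_of_mem (fun p => sp p (N.factorization p)) hp)) _
    rcases hqp.dvd_mul.1 h1 with h2 | h2
    · exact (Nat.le_of_dvd (Nat.pos_of_ne_zero ha) h2).trans hay
    · exact hy q (Nat.mem_primeFactors.2 ⟨hqp, h2, hN.ne'⟩)
  have h1 := part_prod_le (p := p) (e := e) A (fun q hq => Nat.prime_of_mem_primeFactors hq) hpp
  have h2 : ∏ q ∈ A, q ^ (sp p e).factorization q = sp p e := Nat.prod_factorization_pow_eq_self (sp_pos p e).ne'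
  rw [h2] at h1
  have h3 : ∑ q ∈ A, q ≤ y ^ 2 := by
    have hsub : A ⊆ Finset.Icc 1 y := fun q hq =>
      Finset.mem_Icc.2 ⟨(Nat.prime_of_mem_primeFactors hq).one_le, hAy q hq⟩
    calc ∑ q ∈ A, q ≤ ∑ _q ∈ A, y := Finset.sum_le_sum hAy
      _ = A.card * y := by rw [Finset.sum_const, smul_eq_mul]
      _ ≤ y * y := Nat.mul_le_mul_right _ ((Finset.card_le_card hsub).trans (by simp))
      _ = y ^ 2 := by ring
  have h4 : p ^ e ≤ p ^ (y ^ 2) * (e + 1) :=
    (pow_le_sp p e).trans (h1.trans (Nat.mul_le_mul_right _ (Nat.pow_le_pow_right hpp.pos h3)))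
  by_contra hcon
  push Not at hcon
  -- e > 2 y^2 + 8
  have h5 : p ^ (e - y ^ 2) ≤ e + 1 := by
    have h6 : p ^ e = p ^ (y ^ 2) * p ^ (e - y ^ 2) := by rw [← pow_add]; congr 1; omega
    rw [h6] at h4
    exact Nat.le_of_mul_le_mul_left h4 (pow_pos hpp.pos _)
  have h7 : e + 1 < 2 ^ (e - y ^ 2) := by
    obtain ⟨d, hd⟩ : ∃ d, e = y ^ 2 + d := ⟨e - y ^ 2, by omega⟩
    have hd8 : y ^ 2 + 8 < d := by omega
    rw [hd, Nat.add_sub_cancel_left]
    have h8 : ∀ d : ℕ, 5 ≤ d → 2 * d + 1 < 2 ^ d := by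
      intro d hd5
      induction d, hd5 using Nat.le_induction with
      | base => norm_num
      | succ d hd5 ih => rw [pow_succ]; omega
    have := h8 d (by omega)
    omega
  have h9 : 2 ^ (e - y ^ 2) ≤ p ^ (e - y ^ 2) := Nat.pow_le_pow_left hpp.two_le _
  omega

end Pool.Agent.H24.Opn.Few
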