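import Pool.Agent.H24.Opn.Asm
import Pool.Agent.H24.Opn.Div

/-!
The asymptotic statement.
-/

namespace Pool.Agent.H24.Opn.Fin

open Finset Filter

lemma tendsto_rpow_div {s : ℝ} (hs : 0 < s) : Tendsto (fun y : ℕ => (y : ℝ) ^ s) atTop atTop :=
  (tendsto_rpow_atTop hs).comp tendsto_natCast_atTop_atTop

lemma log_le_rpow {s c : ℝ} (hs : 0 < s) (hc : 0 < c) :
    ∀ᶠ y : ℕ in atTop, Real.log y ≤ c * (y : ℝ) ^ s := by
  have h := (isLittleO_log_rpow_atTop hs).bound hc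
  filter_upwards [tendsto_natCast_atTop_atTop.eventually h, eventually_ge_atTop 1] with y hy hy1
  have hy1' : (1 : ℝ) ≤ y := by exact_mod_cast hy1
  rw [Real.norm_of_nonneg (Real.log_nonneg hy1'), Real.norm_of_nonneg (by positivity)] at hy
  exact hy

theorem fin (a b : ℕ) (hb : 0 < b) (ε : ℝ) (hε : 0 < ε) :
    ∃ N₀ : ℕ, ∀ N : ℕ, N₀ ≤ N → b * ∑ d ∈ N.divisors, d = a * N →
      ∃ p ∈ N.primeFactors, Real.log N ≤ N.primeFactors.card * (p : ℝ) ^ (1 / 2 + ε) ∧
        Real.log N ^ (2 / 3 - ε) ≤ p := by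
  obtain ⟨Y0, hY0⟩ := Bak.bakerB
  set s := ε / 20 with hs
  have hs0 : 0 < s := by positivity
  have hδ0 : 0 < s / 3 := by positivity
  obtain ⟨Cδ, hC1, hC⟩ := Div.card_divisors_le_rpow (s / 3) hδ0
  set m := ⌈1 / s⌉₊ with hm
  have hm1 : 1 ≤ m := Nat.one_le_ceil_iff.2 (by positivity)
  have hms : 1 / (m : ℝ) ≤ s := by
    rw [div_le_comm₀ (by exact_mod_cast hm1) hs0]
    exact Nat.le_ceil _
  have ev : ∀ᶠ y : ℕ in atTop, Real.log y ≤ (y : ℝ) ^ s ∧ 100 ≤ (y : ℝ) ^ s ∧ (m : ℝ) ≤ (y : ℝ) ^ s ∧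
      Cδ ≤ (y : ℝ) ^ s ∧ Real.log b + 1 ≤ (y : ℝ) ^ s ∧
      ((⌈3 * Real.log y⌉₊ : ℕ) : ℝ) ^ 22 ≤ (y : ℝ) ^ s ∧ Y0 ≤ ⌈3 * Real.log y⌉₊ ∧
      2 * y ^ 2 + 9 ≤ y ^ 3 ∧ 4 ≤ y ∧ a ≤ y := by
    have t1 := tendsto_rpow_div hs0
    have e1 := log_le_rpow hs0 one_pos
    have e6 := log_le_rpow (s := s / 22) (c := 1 / 4) (by positivity) (by norm_num)
    have e7 : ∀ᶠ y : ℕ in atTop, (Y0 : ℝ) + 3 ≤ Real.log y :=
      (Real.tendsto_log_atTop.comp tendsto_natCast_atTop_atTop).eventually (eventually_ge_atTop _)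
    filter_upwards [e1, t1.eventually (eventually_ge_atTop 100), t1.eventually (eventually_ge_atTop (m : ℝ)),
      t1.eventually (eventually_ge_atTop Cδ), t1.eventually (eventually_ge_atTop (Real.log b + 1)), e6, e7,
      eventually_ge_atTop 4, eventually_ge_atTop a] with y h1 h2 h3 h4 h5 h6 h7 h8 h9
    have hyr : (4 : ℝ) ≤ y := by exact_mod_cast h8
    refine ⟨by linarith, h2, h3, h4, h5, ?_, ?_, ?_, h8, h9⟩
    · have hl : 0 ≤ Real.log y := Real.log_nonneg (by linarith)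
      have h10 : ((⌈3 * Real.log y⌉₊ : ℕ) : ℝ) ≤ 4 * Real.log y := by
        have := Nat.ceil_lt_add_one (show 0 ≤ 3 * Real.log y by positivity)
        have h11 : (3 : ℝ) ≤ Real.log y := by
          have : (0 : ℝ) ≤ Y0 := Nat.cast_nonneg _
          linarith
        linarith
      calc ((⌈3 * Real.log y⌉₊ : ℕ) : ℝ) ^ 22 ≤ ((y : ℝ) ^ (s / 22)) ^ 22 :=
            pow_le_pow_left₀ (Nat.cast_nonneg _) (by linarith) 22
        _ = (y : ℝ) ^ s := by
            rw [← Real.rpow_natCast, ← Real.rpow_mul (by linarith)]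
            congr 1
            push_cast
            ring
    · have h10 : (Y0 : ℝ) ≤ ((⌈3 * Real.log y⌉₊ : ℕ) : ℝ) := by
        have := Nat.le_ceil (3 * Real.log y)
        have : (0 : ℝ) ≤ Y0 := Nat.cast_nonneg _
        linarith
      exact_mod_cast h10
    · have h10 : 16 ≤ y ^ 2 := by nlinarith
      have h11 : 4 * y ^ 2 ≤ y ^ 3 := by
        calc 4 * y ^ 2 ≤ y * y ^ 2 := Nat.mul_le_mul_right _ h8
          _ = y ^ 3 := by ring
      omega
  obtain ⟨y1, hy1⟩ := ev.exists_forall_of_atTop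
  set Z := max (max y1 a) 1 with hZ
  refine ⟨(Z ^ (2 * Z ^ 2 + 8)) ^ Z + 3, fun N hN h => ?_⟩
  have hN1 : 1 < N := by omega
  have hN0 : 0 < N := by omega
  have hFne : N.primeFactors.Nonempty := Nat.nonempty_primeFactors.2 hN1
  set P := N.primeFactors.max' hFne with hP
  have hPmem : P ∈ N.primeFactors := Finset.max'_mem _ _
  have hPmax : ∀ q ∈ N.primeFactors, q ≤ P := fun q hq => Finset.le_max' _ q hq
  have hPy : y1 ≤ P := by
    by_contra hlt
    push Not at hlt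
    have hqZ : ∀ q ∈ N.primeFactors, q ≤ Z := fun q hq => by
      have := hPmax q hq
      have : y1 ≤ Z := (le_max_left _ _).trans (le_max_left _ _)
      omega
    have haZ : a ≤ Z := (le_max_right _ _).trans (le_max_left _ _)
    have hZ1 : 1 ≤ Z := le_max_right _ _
    have hNle : N ≤ (Z ^ (2 * Z ^ 2 + 8)) ^ Z := by
      conv_lhs => rw [← Nat.prod_factorization_pow_eq_self hN0.ne']
      rw [Finsupp.prod, Nat.support_factorization]
      calc ∏ p ∈ N.primeFactors, p ^ N.factorization p ≤ ∏ _p ∈ N.primeFactors, Z ^ (2 * Z ^ 2 + 8) := by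
            refine Finset.prod_le_prod' fun p hp => ?_
            calc p ^ N.factorization p ≤ Z ^ N.factorization p := Nat.pow_le_pow_left (hqZ p hp) _
              _ ≤ Z ^ (2 * Z ^ 2 + 8) :=
                Nat.pow_le_pow_right hZ1 (Few.exp_le hb hN0 h Z hqZ haZ p hp)
        _ = (Z ^ (2 * Z ^ 2 + 8)) ^ N.primeFactors.card := by rw [Finset.prod_const]
        _ ≤ _ := by
            refine Nat.pow_le_pow_right (Nat.one_le_pow _ _ hZ1) ?_
            have hsub : N.primeFactors ⊆ Finset.Icc 1 Z := fun q hq =>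
              Finset.mem_Icc.2 ⟨(Nat.prime_of_mem_primeFactors hq).one_le, hqZ q hq⟩
            exact (Finset.card_le_card hsub).trans (by simp)
    omega
  obtain ⟨c1, c2, c3, c4, c5, c6, c7, c8, c9, c10⟩ := hy1 P hPy
  have hmain := Asm.asm Y0 hY0 a b N hb hN1 h P hPmax c10 c9 s (s / 3) Cδ hs0 hδ0 hC (by linarith)
    (by linarith) m hm1 hms c1 c2 c3 c4 c5 c6 c7 c8
  have h20 : 20 * s = ε := by rw [hs]; ring
  rw [h20] at hmain
  refine ⟨P, hPmem, hmain, ?_⟩
  have hPr : (4 : ℝ) ≤ P := by exact_mod_cast c9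
  have hcard : (N.primeFactors.card : ℝ) ≤ P := by
    have hsub : N.primeFactors ⊆ Finset.Icc 1 P := fun q hq =>
      Finset.mem_Icc.2 ⟨(Nat.prime_of_mem_primeFactors hq).one_le, hPmax q hq⟩
    exact_mod_cast (Finset.card_le_card hsub).trans (by simp)
  have hlogN : Real.log N ≤ (P : ℝ) ^ (3 / 2 + ε) := by
    refine hmain.trans ?_
    calc (N.primeFactors.card : ℝ) * (P : ℝ) ^ (1 / 2 + ε) ≤ (P : ℝ) ^ (1 : ℝ) * (P : ℝ) ^ (1 / 2 + ε) := by
          rw [Real.rpow_one]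
          exact mul_le_mul_of_nonneg_right hcard (by positivity)
      _ = (P : ℝ) ^ (3 / 2 + ε) := by
          rw [← Real.rpow_add (by linarith)]
          congr 1
          ring
  have hN3 : (3 : ℝ) ≤ N := by
    have : 3 ≤ N := by omega
    exact_mod_cast this
  have hlog1 : 1 ≤ Real.log N := by
    rw [Real.le_log_iff_exp_le (by linarith)]
    have := Real.exp_one_lt_d9
    linarith
  by_cases hc : 0 ≤ 2 / 3 - ε
  · calc Real.log N ^ (2 / 3 - ε) ≤ ((P : ℝ) ^ (3 / 2 + ε)) ^ (2 / 3 - ε) :=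
          Real.rpow_le_rpow (by linarith) hlogN hc
      _ = (P : ℝ) ^ ((3 / 2 + ε) * (2 / 3 - ε)) := by rw [← Real.rpow_mul (by linarith)]
      _ ≤ (P : ℝ) ^ (1 : ℝ) := Real.rpow_le_rpow_of_exponent_le (by linarith) (by nlinarith)
      _ = P := Real.rpow_one _
  · push Not at hc
    exact (Real.rpow_le_one_of_one_le_of_nonpos hlog1 hc.le).trans (by linarith)

end Pool.Agent.H24.Opn.Fin
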