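import Pool.Agent.H24.Opn.Fin

/-!
The largest component of a solution of `b σ(N) = a N`.
-/

namespace Pool.Agent.H24.Opn.MaxExp

open Finset Few

/-- All entries of a column but the largest one are small. -/
lemma tail (q y : ℕ) (hq : q.Prime) (hq2 : q ≠ 2) (hqy : q ≤ y) (F : Finset ℕ) (e : ℕ → ℕ)
    (hF : ∀ p ∈ F, p.Prime ∧ p ≤ y) (he : ∀ p ∈ F, Real.log (e p + 1) ≤ 3 * Real.log y)
    (p0 : ℕ) (hp0 : p0 ∈ F) (hmax : ∀ p ∈ F, ent e p q ≤ ent e p0 q) (hL : 1 ≤ Real.log y)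
    (R : ℕ) (hR : (F.filter (fun p => q ∣ sp p (e p))).card ≤ R) :
    ∑ p ∈ F.erase p0, ent e p q ≤ 12 * Real.log y ^ 2 * (Real.sqrt y + R) := by
  set L := Real.log y with hLdef
  have hqr : (2 : ℝ) ≤ q := by exact_mod_cast hq.two_le
  have hyr : (2 : ℝ) ≤ y := hqr.trans (by exact_mod_cast hqy)
  have hy0 : (0 : ℝ) < y := by linarith
  have hs1 : 1 ≤ Real.sqrt y := by
    rw [Real.one_le_sqrt]; linarith
  set h0 : ℝ := ((2 : ℕ) : ℝ) * (y : ℝ) ^ (1 / ((2 : ℕ) : ℝ)) * L + 4 * L with hh0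
  have hr2 : (y : ℝ) ^ (1 / ((2 : ℕ) : ℝ)) = Real.sqrt y := by
    rw [Real.sqrt_eq_rpow]; norm_num
  have hh0' : h0 ≤ 6 * Real.sqrt y * L := by
    rw [hh0, hr2]
    push_cast
    nlinarith
  have hh00 : 0 ≤ h0 := by rw [hh0, hr2]; positivity
  set m := ⌈L⌉₊ with hm
  have hm1 : 1 ≤ m := Nat.one_le_ceil_iff.2 (by linarith)
  have hmL : L ≤ m := Nat.le_ceil L
  have hm2 : (m : ℝ) ≤ 2 * L := by
    have := Nat.ceil_lt_add_one (show 0 ≤ L by linarith)
    linarith
  set X1 : ℝ := (m : ℝ) * (y : ℝ) ^ (1 / (m : ℝ)) * L + 4 * L with hX1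
  have hmr : (0 : ℝ) < m := by exact_mod_cast hm1
  have hpow : (y : ℝ) ^ (1 / (m : ℝ)) ≤ 3 := by
    rw [Real.rpow_def_of_pos hy0]
    have h1 : Real.log y * (1 / (m : ℝ)) ≤ 1 := by
      rw [mul_one_div, div_le_one hmr]
      exact hmL
    have h2 := Real.exp_le_exp.2 h1
    have := Real.exp_one_lt_d9
    linarith
  have hX10 : 0 ≤ X1 := by
    have : 0 ≤ (y : ℝ) ^ (1 / (m : ℝ)) := by positivity
    rw [hX1]; positivity
  have hX1' : X1 ≤ 10 * L ^ 2 := by
    have h0 : 0 ≤ (y : ℝ) ^ (1 / (m : ℝ)) := by positivity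
    have h1 : (m : ℝ) * (y : ℝ) ^ (1 / (m : ℝ)) ≤ (2 * L) * 3 := mul_le_mul hm2 hpow h0 (by linarith)
    have h2 : (m : ℝ) * (y : ℝ) ^ (1 / (m : ℝ)) * L ≤ ((2 * L) * 3) * L :=
      mul_le_mul_of_nonneg_right h1 (by linarith)
    rw [hX1]
    nlinarith
  -- all entries but the largest are at most `h0`
  have hle : ∀ p ∈ F.erase p0, ent e p q ≤ h0 := by
    intro p hp
    obtain ⟨hne, hpF⟩ := Finset.mem_erase.1 hp
    by_contra hlt
    push Not at hlt
    have := few q y 2 (by norm_num) hq hq2 hqy {p, p0} (Finset.card_pair hne) e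
      (by
        intro x hx
        rcases Finset.mem_insert.1 hx with rfl | hx
        · exact hF _ hpF
        · rw [Finset.mem_singleton.1 hx]; exact hF _ hp0)
      (by
        intro x hx
        rcases Finset.mem_insert.1 hx with rfl | hx
        · exact he _ hpF
        · rw [Finset.mem_singleton.1 hx]; exact he _ hp0) h0
      (by
        intro x hx
        rcases Finset.mem_insert.1 hx with rfl | hx
        · exact hlt
        · rw [Finset.mem_singleton.1 hx]; exact hlt.trans_le (hmax p hpF))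
    exact lt_irrefl _ this
  have hcard : ((F.erase p0).filter (fun p => X1 < ent e p q)).card < m := by
    by_contra hge
    push Not at hge
    obtain ⟨P, hPs, hPc⟩ := Finset.exists_subset_card_eq hge
    have hPF : ∀ x ∈ P, x ∈ F := fun x hx =>
      Finset.mem_of_mem_erase (Finset.mem_filter.1 (hPs hx)).1
    have := few q y m hm1 hq hq2 hqy P hPc e (fun x hx => hF x (hPF x hx))
      (fun x hx => he x (hPF x hx)) X1 (fun x hx => (Finset.mem_filter.1 (hPs hx)).2)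
    exact lt_irrefl _ this
  have hsplit : ∑ p ∈ F.erase p0, ent e p q =
      ∑ p ∈ (F.erase p0).filter (fun p => X1 < ent e p q), ent e p q +
        ∑ p ∈ (F.erase p0).filter (fun p => ¬ X1 < ent e p q), ent e p q :=
    (Finset.sum_filter_add_sum_filter_not _ _ _).symm
  have hA : ∑ p ∈ (F.erase p0).filter (fun p => X1 < ent e p q), ent e p q ≤ m * h0 := by
    calc _ ≤ ∑ _p ∈ (F.erase p0).filter (fun p => X1 < ent e p q), h0 :=
          Finset.sum_le_sum fun p hp => hle p (Finset.mem_filter.1 hp).1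
      _ = (((F.erase p0).filter (fun p => X1 < ent e p q)).card : ℝ) * h0 := by
          rw [Finset.sum_const, nsmul_eq_mul]
      _ ≤ _ := mul_le_mul_of_nonneg_right (by exact_mod_cast hcard.le) hh00
  have hB : ∑ p ∈ (F.erase p0).filter (fun p => ¬ X1 < ent e p q), ent e p q ≤ R * X1 := by
    calc _ ≤ ∑ p ∈ (F.erase p0).filter (fun p => ¬ X1 < ent e p q),
            (if q ∣ sp p (e p) then X1 else 0) := by
          refine Finset.sum_le_sum fun p hp => ?_
          split_ifs with hd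
          · exact not_lt.1 (Finset.mem_filter.1 hp).2
          · unfold ent
            rw [Nat.factorization_eq_zero_of_not_dvd hd]
            simp
      _ ≤ ∑ p ∈ F, (if q ∣ sp p (e p) then X1 else 0) := by
          refine Finset.sum_le_sum_of_subset_of_nonneg
            ((Finset.filter_subset _ _).trans (Finset.erase_subset _ _)) fun p _ _ => ?_
          split_ifs
          · exact hX10
          · exact le_rfl
      _ = ((F.filter (fun p => q ∣ sp p (e p))).card : ℝ) * X1 := by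
          rw [← Finset.sum_filter, Finset.sum_const, nsmul_eq_mul]
      _ ≤ _ := mul_le_mul_of_nonneg_right (by exact_mod_cast hR) hX10
  rw [hsplit]
  have h1 : (m : ℝ) * h0 ≤ (2 * L) * (6 * Real.sqrt y * L) := mul_le_mul hm2 hh0' hh00 (by linarith)
  have h2 : (R : ℝ) * X1 ≤ R * (10 * L ^ 2) :=
    mul_le_mul_of_nonneg_left hX1' (Nat.cast_nonneg _)
  have h3 : 0 ≤ (R : ℝ) * L ^ 2 := by positivity
  calc _ ≤ (m : ℝ) * h0 + R * X1 := add_le_add hA hB
    _ ≤ (2 * L) * (6 * Real.sqrt y * L) + R * (10 * L ^ 2) := add_le_add h1 h2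
    _ ≤ 12 * L ^ 2 * (Real.sqrt y + R) := by nlinarith

/-- The bound for all components, for explicit parameters. -/
theorem core (Y0 : ℕ) (hY0 : ∀ Y : ℕ, Y0 ≤ Y → ∀ p q n a u : ℕ, p.Prime → q.Prime → p ≠ q → 1 ≤ u →
    p ^ n = u * q ^ a + 1 → 1 ≤ n → Real.log p ≤ Y → Real.log q ≤ Y → Real.log n ≤ Y →
    (n : ℝ) < (Y : ℝ) ^ 22 * (Real.log u + 2))
    (a b N : ℕ) (hb : 0 < b) (hN : 1 < N) (hodd : Odd N) (h : b * ∑ d ∈ N.divisors, d = a * N)
    (y : ℕ) (hy : ∀ q ∈ N.primeFactors, q ≤ y) (hay : a ≤ y) (hy4 : 4 ≤ y)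
    (c5 : Real.log b ≤ Real.log y) (c7 : Y0 ≤ ⌈3 * Real.log y⌉₊) (c8 : 2 * y ^ 2 + 9 ≤ y ^ 3)
    (R : ℕ) (hR : ∀ q ∈ N.primeFactors,
      (N.primeFactors.filter (fun p => q ∣ sp p (N.factorization p))).card ≤ R) :
    ∀ q ∈ N.primeFactors, (N.factorization q : ℝ) * Real.log q ≤
      ((4 : ℝ) ^ 22 * 14 + 13) * Real.log y ^ 25 * (Real.sqrt y + R) := by
  set L := Real.log y with hL
  have hyr : (4 : ℝ) ≤ y := by exact_mod_cast hy4
  have hL1 : 1 ≤ L := by
    have h1 : Real.log 4 ≤ L := Real.log_le_log (by norm_num) hyr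
    have h2 : Real.log 4 = 2 * Real.log 2 := by
      rw [show (4 : ℝ) = 2 ^ 2 by norm_num, Real.log_pow]; norm_num
    have := Real.log_two_gt_d9
    linarith
  set F := N.primeFactors with hF
  set e : ℕ → ℕ := fun p => N.factorization p with he
  have hN0 : N ≠ 0 := by omega
  have hFne : F.Nonempty := Nat.nonempty_primeFactors.2 hN
  have hFp : ∀ p ∈ F, p.Prime := fun p hp => Nat.prime_of_mem_primeFactors hp
  have hlp0 : ∀ p ∈ F, 0 ≤ Real.log p := fun p hp =>
    Real.log_nonneg (by exact_mod_cast (hFp p hp).one_le)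
  have hlpL : ∀ p ∈ F, Real.log p ≤ L := fun p hp =>
    Real.log_le_log (by exact_mod_cast (hFp p hp).pos) (by exact_mod_cast hy p hp)
  have hey : ∀ p ∈ F, e p + 1 ≤ y ^ 3 := by
    intro p hp
    have := exp_le hb (by omega) h y hy hay p hp
    have h1 : e p ≤ 2 * y ^ 2 + 8 := this
    omega
  have he3 : ∀ p ∈ F, Real.log ((e p : ℝ) + 1) ≤ 3 * L := by
    intro p hp
    have h1 : ((e p : ℝ) + 1) ≤ (y : ℝ) ^ 3 := by exact_mod_cast hey p hp
    calc Real.log ((e p : ℝ) + 1) ≤ Real.log ((y : ℝ) ^ 3) := Real.log_le_log (by positivity) h1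
      _ = 3 * L := by rw [Real.log_pow, hL]; norm_num
  have hs1 : 2 ≤ Real.sqrt y := by
    rw [Real.le_sqrt (by norm_num) (by linarith)]; linarith
  set S := Real.sqrt y + (R : ℝ) with hS
  have hS2 : 2 ≤ S := by
    have : (0 : ℝ) ≤ R := Nat.cast_nonneg _
    rw [hS]; linarith
  obtain ⟨q, hq, hqmax⟩ := Finset.exists_max_image F (fun p => (e p : ℝ) * Real.log p) hFne
  obtain ⟨p, hp, hpmax⟩ := Finset.exists_max_image F (fun p => ent e p q) hFne
  have hqp := hFp q hq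
  have hpp := hFp p hp
  have hq2 : q ≠ 2 := by
    rintro rfl
    exact (Nat.not_even_iff_odd.2 hodd) (even_iff_two_dvd.2 (Nat.dvd_of_mem_primeFactors hq))
  suffices hmain : (e q : ℝ) * Real.log q ≤ ((4 : ℝ) ^ 22 * 14 + 13) * L ^ 25 * S by
    intro r hr
    exact (hqmax r hr).trans hmain
  set Δ : ℝ := 12 * L ^ 2 * S with hΔ
  have htail := tail q y hqp hq2 (hy q hq) F e (fun x hx => ⟨hFp x hx, hy x hx⟩) he3 p hp hpmax hL1
    R (hR q hq)
  have hbq : (b.factorization q : ℝ) * Real.log q ≤ L := by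
    have h1 := Ent.sum_part_le {q} (fun x hx => by rw [Finset.mem_singleton.1 hx]; exact hqp) hb.ne'
    rw [Finset.sum_singleton] at h1
    exact h1.trans c5
  have hcol : (e q : ℝ) * Real.log q ≤ ent e p q + Δ + L := by
    have h1 := col_le hb (by omega) h q hqp
    have h2 : ∑ x ∈ F, ent e x q = ent e p q + ∑ x ∈ F.erase p, ent e x q :=
      (Finset.add_sum_erase F _ hp).symm
    have h3 : (e q : ℝ) * Real.log q ≤ ∑ x ∈ F, ent e x q + (b.factorization q : ℝ) * Real.log q := h1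
    have h4 : ∑ x ∈ F.erase p, ent e x q ≤ Δ := htail
    linarith
  have hL2 : 1 ≤ L ^ 2 := one_le_pow₀ hL1
  have hLS : L ≤ L ^ 2 * S := by nlinarith
  have hpow : ∀ k l : ℕ, k ≤ l → L ^ k ≤ L ^ l := fun k l hkl => pow_le_pow_right₀ hL1 hkl
  have hfin : ∀ t : ℝ, 0 ≤ t → t ≤ (4 : ℝ) ^ 22 * 14 * (L ^ 25 * S) →
      t + Δ + L ≤ ((4 : ℝ) ^ 22 * 14 + 13) * L ^ 25 * S := by
    intro t _ ht
    have h1 : Δ + L ≤ 13 * (L ^ 25 * S) := by
      have h2 : L ^ 2 * S ≤ L ^ 25 * S := mul_le_mul_of_nonneg_right (hpow 2 25 (by norm_num)) (by linarith)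
      have h3 : Δ = 12 * (L ^ 2 * S) := by rw [hΔ]; ring
      linarith
    have h3 : ((4 : ℝ) ^ 22 * 14 + 13) * L ^ 25 * S =
        (4 : ℝ) ^ 22 * 14 * (L ^ 25 * S) + 13 * (L ^ 25 * S) := by ring
    linarith
  rcases eq_or_ne p q with rfl | hne
  · have h1 : ent e p p = 0 := ent_self hpp e
    rw [h1] at hcol
    exact hcol.trans (hfin 0 le_rfl (by positivity))
  set n := e p + 1 with hn
  set a' := (sp p (e p)).factorization q with ha'
  have hdvd : q ^ a' ∣ p ^ n - 1 :=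
    (Nat.ordProj_dvd _ _).trans (Dvd.intro _ (sp_mul p (e p) hpp.pos))
  obtain ⟨u, hu⟩ := hdvd
  have hpn1 : 1 < p ^ n := Nat.one_lt_pow (Nat.succ_ne_zero _) hpp.one_lt
  have hu1 : 1 ≤ u := by
    rcases Nat.eq_zero_or_pos u with h0' | h0'
    · rw [h0', mul_zero] at hu; omega
    · exact h0'
  have hpneq : p ^ n = u * q ^ a' + 1 := by rw [mul_comm u]; omega
  have hnr : (n : ℝ) = (e p : ℝ) + 1 := by rw [hn]; push_cast; rfl
  have hY : 3 * L ≤ ((⌈3 * L⌉₊ : ℕ) : ℝ) := Nat.le_ceil _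
  have hY4 : ((⌈3 * L⌉₊ : ℕ) : ℝ) ≤ 4 * L := by
    have := Nat.ceil_lt_add_one (show 0 ≤ 3 * L by linarith)
    linarith
  have hbak := hY0 ⌈3 * L⌉₊ c7 p q n a' u hpp hqp hne hu1 hpneq (Nat.succ_le_succ (Nat.zero_le _))
    (by linarith [hlpL p hp]) (by linarith [hlpL q hq]) (by rw [hnr]; linarith [he3 p hp])
  have hu0 : (0 : ℝ) < u := by exact_mod_cast hu1
  have hq0 : (0 : ℝ) < q := by exact_mod_cast hqp.pos
  have hlog : Real.log u + (a' : ℝ) * Real.log q ≤ (n : ℝ) * Real.log p := by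
    have h1 : (u : ℝ) * (q : ℝ) ^ a' ≤ (p : ℝ) ^ n := by
      have : u * q ^ a' ≤ p ^ n := by omega
      exact_mod_cast this
    have h2 := Real.log_le_log (by positivity) h1
    rwa [Real.log_mul hu0.ne' (by positivity), Real.log_pow, Real.log_pow] at h2
  have hlu0 : 0 ≤ Real.log (u : ℝ) := Real.log_nonneg (by exact_mod_cast hu1)
  have hent : ent e p q = (a' : ℝ) * Real.log q := rfl
  have hEp : (e p : ℝ) * Real.log p ≤ (e q : ℝ) * Real.log q := hqmax p hp
  have hlogu : Real.log u ≤ 2 * L + Δ := by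
    have h1 : (n : ℝ) * Real.log p = (e p : ℝ) * Real.log p + Real.log p := by rw [hnr]; ring
    have h2 := hlpL p hp
    rw [hent] at hcol
    linarith
  have hn1 : (n : ℝ) ≤ (4 : ℝ) ^ 22 * 14 * (L ^ 24 * S) := by
    have h1 : ((⌈3 * L⌉₊ : ℕ) : ℝ) ^ 22 ≤ (4 * L) ^ 22 := pow_le_pow_left₀ (Nat.cast_nonneg _) hY4 22
    have h2 : Real.log u + 2 ≤ 14 * (L ^ 2 * S) := by
      have h3 : Δ = 12 * (L ^ 2 * S) := by rw [hΔ]; ring
      have h4 : 2 * L + 2 ≤ 2 * (L ^ 2 * S) := by nlinarith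
      linarith
    calc (n : ℝ) ≤ ((⌈3 * L⌉₊ : ℕ) : ℝ) ^ 22 * (Real.log u + 2) := hbak.le
      _ ≤ (4 * L) ^ 22 * (14 * (L ^ 2 * S)) := mul_le_mul h1 h2 (by linarith) (by positivity)
      _ = _ := by ring
  have hent2 : ent e p q ≤ (4 : ℝ) ^ 22 * 14 * (L ^ 25 * S) := by
    rw [hent]
    calc (a' : ℝ) * Real.log q ≤ (n : ℝ) * Real.log p := by linarith
      _ ≤ ((4 : ℝ) ^ 22 * 14 * (L ^ 24 * S)) * L := mul_le_mul hn1 (hlpL p hp) (hlp0 p hp) (by positivity)
      _ = _ := by ring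
  exact hcol.trans (hfin _ (ent_nonneg e p q) hent2)

lemma sum_divisors_eq (p k : ℕ) (hp : p.Prime) : ∑ d ∈ (p ^ k).divisors, d = sp p k := by
  rw [Nat.sum_divisors_prime_pow hp]
  rfl

theorem main (a b : ℕ) (hb : 0 < b) :
    ∃ C : ℝ, ∀ N : ℕ, Odd N → b * ∑ d ∈ N.divisors, d = a * N →
      ∀ P R : ℕ, (∀ q ∈ N.primeFactors, q ≤ P) →
        (∀ q ∈ N.primeFactors,
          {p ∈ N.primeFactors | q ∣ ∑ d ∈ (p ^ N.factorization p).divisors, d}.card ≤ R) →
        ∀ q ∈ N.primeFactors, (N.factorization q : ℝ) * Real.log q ≤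
          C * Real.log P ^ 25 * (Real.sqrt P + R) := by
  obtain ⟨Y0, hY0⟩ := Bak.bakerB
  have ev : ∀ᶠ y : ℕ in Filter.atTop, Y0 ≤ ⌈3 * Real.log y⌉₊ ∧ 2 * y ^ 2 + 9 ≤ y ^ 3 ∧ 4 ≤ y ∧ a ≤ y ∧
      b ≤ y := by
    have e7 : ∀ᶠ y : ℕ in Filter.atTop, (Y0 : ℝ) ≤ Real.log y :=
      (Real.tendsto_log_atTop.comp tendsto_natCast_atTop_atTop).eventually
        (Filter.eventually_ge_atTop _)
    filter_upwards [e7, Filter.eventually_ge_atTop 4, Filter.eventually_ge_atTop a,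
      Filter.eventually_ge_atTop b] with y h7 h8 h9 h10
    have hyr : (4 : ℝ) ≤ y := by exact_mod_cast h8
    refine ⟨?_, ?_, h8, h9, h10⟩
    · have h10 : (Y0 : ℝ) ≤ ((⌈3 * Real.log y⌉₊ : ℕ) : ℝ) := by
        have := Nat.le_ceil (3 * Real.log y)
        have : (0 : ℝ) ≤ Y0 := Nat.cast_nonneg _
        linarith
      exact_mod_cast h10
    · have h10 : 16 ≤ y ^ 2 := by nlinarith
      have h11 : 4 * y ^ 2 ≤ y ^ 3 := by
        calc 4 * y ^ 2 ≤ y * y ^ 2 := Nat.mul_le_mul_right _ h8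
          _ = y ^ 3 := by ring
      omega
  obtain ⟨y1, hy1⟩ := ev.exists_forall_of_atTop
  set Z := max y1 a with hZ
  set C : ℝ := ((4 : ℝ) ^ 22 * 14 + 13) + (2 * (Z : ℝ) ^ 2 + 8) * Z with hC
  have hZ0 : (0 : ℝ) ≤ Z := Nat.cast_nonneg _
  refine ⟨C, fun N hodd h P R hP hR q hq => ?_⟩
  have hqp := Nat.prime_of_mem_primeFactors hq
  have hN0 : N ≠ 0 := by
    rintro rfl
    simp at hq
  have hN1 : 1 < N := by
    rcases Nat.lt_or_ge 1 N with h1 | h1
    · exact h1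
    · exfalso
      have : N = 1 := by omega
      subst this
      simp at hq
  have hq3 : 3 ≤ q := by
    have h2 := hqp.two_le
    rcases Nat.lt_or_ge 2 q with h3 | h3
    · exact h3
    · exfalso
      have : q = 2 := by omega
      subst this
      exact (Nat.not_even_iff_odd.2 hodd) (even_iff_two_dvd.2 (Nat.dvd_of_mem_primeFactors hq))
  have hP3 : 3 ≤ P := hq3.trans (hP q hq)
  have hP3r : (3 : ℝ) ≤ P := by exact_mod_cast hP3
  have hL1 : 1 ≤ Real.log P := by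
    rw [Real.le_log_iff_exp_le (by linarith)]
    have := Real.exp_one_lt_d9
    linarith
  have hs1 : 1 ≤ Real.sqrt P := by
    rw [Real.one_le_sqrt]; linarith
  have hS1 : 1 ≤ Real.sqrt P + R := by
    have : (0 : ℝ) ≤ R := Nat.cast_nonneg _
    linarith
  have hL25 : 1 ≤ Real.log P ^ 25 := one_le_pow₀ hL1
  rcases Nat.lt_or_ge P y1 with hlt | hge
  · -- small `P`
    have hqZ : ∀ r ∈ N.primeFactors, r ≤ Z := fun r hr => by
      have := hP r hr
      have : y1 ≤ Z := le_max_left _ _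
      omega
    have he := exp_le hb (by omega) h Z hqZ (le_max_right _ _) q hq
    have her : (N.factorization q : ℝ) ≤ 2 * (Z : ℝ) ^ 2 + 8 := by exact_mod_cast he
    have hlq : Real.log q ≤ Z := by
      have h1 : (q : ℝ) ≤ Z := by exact_mod_cast hqZ q hq
      have h2 := Real.log_le_sub_one_of_pos (show (0 : ℝ) < q by exact_mod_cast hqp.pos)
      linarith
    have hlq0 : 0 ≤ Real.log (q : ℝ) := Real.log_nonneg (by exact_mod_cast hqp.one_le)
    have h1 : (N.factorization q : ℝ) * Real.log q ≤ C := by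
      calc (N.factorization q : ℝ) * Real.log q ≤ (2 * (Z : ℝ) ^ 2 + 8) * Z :=
            mul_le_mul her hlq hlq0 (by positivity)
        _ ≤ C := by
            rw [hC]
            have : (0 : ℝ) ≤ (4 : ℝ) ^ 22 * 14 + 13 := by norm_num
            linarith
    have hC0 : 0 ≤ C := by rw [hC]; positivity
    calc (N.factorization q : ℝ) * Real.log q ≤ C := h1
      _ = C * 1 * 1 := by ring
      _ ≤ C * Real.log P ^ 25 * (Real.sqrt P + R) := by gcongr
  · obtain ⟨c7, c8, c4, ca, cb⟩ := hy1 P hge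
    have hR' : ∀ q ∈ N.primeFactors,
        (N.primeFactors.filter (fun p => q ∣ sp p (N.factorization p))).card ≤ R := by
      intro r hr
      refine le_trans (Finset.card_le_card ?_) (hR r hr)
      intro x hx
      rw [Finset.mem_filter] at hx ⊢
      refine ⟨hx.1, ?_⟩
      rw [sum_divisors_eq _ _ (Nat.prime_of_mem_primeFactors hx.1)]
      exact hx.2
    have hlb : Real.log b ≤ Real.log P :=
      Real.log_le_log (by exact_mod_cast hb) (by exact_mod_cast cb)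
    have hmain := core Y0 hY0 a b N hb hN1 hodd h P hP ca c4 hlb c7 c8 R hR' q hq
    refine hmain.trans ?_
    have h1 : (4 : ℝ) ^ 22 * 14 + 13 ≤ C := by
      rw [hC]
      have : 0 ≤ (2 * (Z : ℝ) ^ 2 + 8) * Z := by positivity
      linarith
    gcongr

end Pool.Agent.H24.Opn.MaxExp
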