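import Mathlib

namespace Pool.Agent.H24.Opn

open Finset

/-- `1 + p + ⋯ + p ^ e`. -/
def sp (p e : ℕ) : ℕ := ∑ i ∈ range (e + 1), p ^ i

lemma sp_mul (p e : ℕ) (hp : 1 ≤ p) : sp p e * (p - 1) = p ^ (e + 1) - 1 := by
  unfold sp
  have := Nat.geomSum_eq (m := p) (n := e + 1)
  rcases Nat.lt_or_ge 1 p with h | h
  · have h2 : 2 ≤ p := h
    rw [Nat.geomSum_eq h2]
    apply Nat.div_mul_cancel
    simpa using Nat.sub_dvd_pow_sub_pow p 1 (e + 1)
  · have : p = 1 := le_antisymm h hp
    subst this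
    simp

lemma sp_pos (p e : ℕ) : 0 < sp p e := by
  unfold sp
  rw [Finset.sum_range_succ']
  simp

lemma pow_le_sp (p e : ℕ) : p ^ e ≤ sp p e := by
  unfold sp
  exact Finset.single_le_sum (f := fun i => p ^ i) (fun _ _ => Nat.zero_le _)
    (Finset.mem_range.2 (Nat.lt_succ_self e))

/-- The valuation of `p ^ (c n) - 1` for `c = q - 1` (or `2`, if `q = 2`). -/
lemma val_aux {p q n : ℕ} (hp : p.Prime) (hq : q.Prime) (hpq : q ≠ p) (hn : n ≠ 0) :
    ∃ c : ℕ, 1 ≤ c ∧ c ≤ q ∧
      (p ^ (c * n) - 1).factorization q = (p ^ c - 1).factorization q + n.factorization q := by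
  haveI := Fact.mk hq
  have hqp : ¬ q ∣ p := fun h => hpq ((Nat.prime_dvd_prime_iff_eq hq hp).1 h)
  rcases hq.eq_two_or_odd' with rfl | hodd
  · refine ⟨2, by norm_num, le_rfl, ?_⟩
    have h1 : 1 < p := hp.one_lt
    have e1 := padicValNat.pow_two_sub_one h1 hqp (n := 2 * n) (by omega) ⟨n, by ring⟩
    have e2 := padicValNat.pow_two_sub_one h1 hqp (n := 2) (by omega) ⟨1, by ring⟩
    rw [padicValNat.mul (by norm_num) hn] at e1
    rw [Nat.factorization_def _ hq, Nat.factorization_def _ hq, Nat.factorization_def _ hq]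
    omega
  · refine ⟨q - 1, by have := hq.two_le; omega, by omega, ?_⟩
    have hq1 : q - 1 ≠ 0 := by have := hq.two_le; omega
    have hfer : q ∣ p ^ (q - 1) - 1 := by
      have : Nat.Coprime p q := (Nat.coprime_primes hp hq).2 (Ne.symm hpq)
      have := Nat.ModEq.pow_totient this
      rw [Nat.totient_prime hq] at this
      exact (Nat.modEq_iff_dvd' (Nat.one_le_pow _ _ hp.pos)).1 this.symm
    have := padicValNat.pow_sub_pow (p := q) hodd (x := p ^ (q - 1)) (y := 1)
      (Nat.one_lt_pow hq1 hp.one_lt) hfer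
      (fun h => hqp (hq.dvd_of_dvd_pow h)) hn
    rw [one_pow, ← pow_mul] at this
    rw [Nat.factorization_def _ hq, Nat.factorization_def _ hq, Nat.factorization_def _ hq]
    exact this

lemma part_le {p q e : ℕ} (hp : p.Prime) (hq : q.Prime) :
    q ^ (sp p e).factorization q ≤ p ^ q * q ^ (e + 1).factorization q := by
  by_cases hpq : q = p
  · subst hpq
    have h0 : (sp q e).factorization q = 0 := by
      apply Nat.factorization_eq_zero_of_not_dvd
      unfold sp
      rw [Finset.sum_range_succ']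
      intro h
      have h2 : q ∣ ∑ k ∈ range e, q ^ (k + 1) :=
        Finset.dvd_sum fun i _ => dvd_pow_self q (Nat.succ_ne_zero i)
      have h3 := (Nat.dvd_add_right h2).1 h
      simp only [pow_zero, Nat.dvd_one] at h3
      exact hp.one_lt.ne' h3
    rw [h0, pow_zero]
    exact Nat.mul_pos (pow_pos hp.pos _) (pow_pos hp.pos _)
  · obtain ⟨c, hc1, hcq, hc⟩ := val_aux (n := e + 1) hp hq hpq (Nat.succ_ne_zero e)
    have hpc : p ^ c - 1 ≠ 0 := by
      have := Nat.one_lt_pow (by omega : c ≠ 0) hp.one_lt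
      omega
    have hd : sp p e ∣ p ^ (c * (e + 1)) - 1 := by
      have h1 : sp p e ∣ p ^ (e + 1) - 1 := Dvd.intro _ (sp_mul p e hp.pos)
      have h2 : p ^ (e + 1) - 1 ∣ (p ^ (e + 1)) ^ c - 1 := by
        simpa using Nat.sub_dvd_pow_sub_pow (p ^ (e + 1)) 1 c
      rw [← pow_mul, mul_comm (e + 1) c] at h2
      exact h1.trans h2
    have hne : p ^ (c * (e + 1)) - 1 ≠ 0 := by
      have := Nat.one_lt_pow (by positivity : c * (e + 1) ≠ 0) hp.one_lt
      omega
    have h3 : (sp p e).factorization q ≤ (p ^ (c * (e + 1)) - 1).factorization q :=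
      (Nat.factorization_le_iff_dvd (sp_pos p e).ne' hne).2 hd q
    calc q ^ (sp p e).factorization q
        ≤ q ^ ((p ^ c - 1).factorization q + (e + 1).factorization q) := by
          apply Nat.pow_le_pow_right hq.pos
          rw [← hc]; exact h3
      _ = q ^ (p ^ c - 1).factorization q * q ^ (e + 1).factorization q := pow_add _ _ _
      _ ≤ p ^ q * q ^ (e + 1).factorization q := by
          apply Nat.mul_le_mul_right
          have h4 : q ^ (p ^ c - 1).factorization q ≤ p ^ c - 1 :=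
            Nat.ordProj_le q hpc
          have h5 : p ^ c ≤ p ^ q := Nat.pow_le_pow_right hp.pos hcq
          omega

/-- The product of the `q`-parts, `q ∈ A`, of a positive number is at most the number. -/
lemma prod_part_le (A : Finset ℕ) (hA : ∀ q ∈ A, q.Prime) {n : ℕ} (hn : n ≠ 0) :
    ∏ q ∈ A, q ^ n.factorization q ≤ n := by
  have h1 : ∏ q ∈ A, q ^ n.factorization q = ∏ q ∈ A ∩ n.primeFactors, q ^ n.factorization q := by
    symm
    apply Finset.prod_subset Finset.inter_subset_left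
    intro q hq hq2
    have : q ∉ n.primeFactors := fun h => hq2 (Finset.mem_inter.2 ⟨hq, h⟩)
    rw [← Nat.support_factorization, Finsupp.notMem_support_iff] at this
    rw [this, pow_zero]
  rw [h1]
  calc ∏ q ∈ A ∩ n.primeFactors, q ^ n.factorization q
      ≤ ∏ q ∈ n.primeFactors, q ^ n.factorization q := by
        apply Finset.prod_le_prod_of_subset_of_one_le' Finset.inter_subset_right
        intro q hq _
        exact Nat.one_le_pow _ _ (Nat.prime_of_mem_primeFactors hq).pos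
    _ = n := Nat.prod_factorization_pow_eq_self hn

lemma part_prod_le {p e : ℕ} (A : Finset ℕ) (hA : ∀ q ∈ A, q.Prime) (hp : p.Prime) :
    ∏ q ∈ A, q ^ (sp p e).factorization q ≤ p ^ (∑ q ∈ A, q) * (e + 1) := by
  calc ∏ q ∈ A, q ^ (sp p e).factorization q
      ≤ ∏ q ∈ A, (p ^ q * q ^ (e + 1).factorization q) :=
        Finset.prod_le_prod' fun q hq => part_le hp (hA q hq)
    _ = p ^ (∑ q ∈ A, q) * ∏ q ∈ A, q ^ (e + 1).factorization q := by
        rw [Finset.prod_mul_distrib, Finset.prod_pow_eq_pow_sum]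
    _ ≤ p ^ (∑ q ∈ A, q) * (e + 1) :=
        Nat.mul_le_mul_left _ (prod_part_le A hA (Nat.succ_ne_zero e))

/-- The `A`-part of a number. -/
def MA (N : ℕ) (A : Finset ℕ) : ℕ := ∏ q ∈ A, q ^ N.factorization q

/-- The radical. -/
def rd (N : ℕ) : ℕ := ∏ p ∈ N.primeFactors, p

lemma rd_pos (N : ℕ) : 0 < rd N :=
  Finset.prod_pos fun _ hp => (Nat.prime_of_mem_primeFactors hp).pos

lemma sum_div_eq {N : ℕ} (hN : N ≠ 0) :
    ∑ d ∈ N.divisors, d = ∏ p ∈ N.primeFactors, sp p (N.factorization p) := by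
  unfold sp
  rw [Nat.sum_divisors hN]

/-- The column bound. -/
lemma MA_le {a b N : ℕ} (hb : 0 < b) (hN : 0 < N) (h : b * ∑ d ∈ N.divisors, d = a * N)
    (A : Finset ℕ) (hA : A ⊆ N.primeFactors) :
    MA N A ≤ b * (rd N ^ (∑ q ∈ A, q) * N.divisors.card) := by
  have hAp : ∀ q ∈ A, q.Prime := fun q hq => Nat.prime_of_mem_primeFactors (hA hq)
  have hS : ∏ p ∈ N.primeFactors, sp p (N.factorization p) ≠ 0 :=
    Finset.prod_ne_zero_iff.2 fun p _ => (sp_pos _ _).ne'
  rw [sum_div_eq hN.ne'] at h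
  have ha : a ≠ 0 := by
    rintro rfl
    rw [zero_mul] at h
    exact (Nat.mul_pos hb (Nat.pos_of_ne_zero hS)).ne' h
  have hv : ∀ q ∈ A, q ^ N.factorization q ≤ q ^ b.factorization q *
      ∏ p ∈ N.primeFactors, q ^ (sp p (N.factorization p)).factorization q := by
    intro q hq
    rw [Finset.prod_pow_eq_pow_sum, ← pow_add]
    apply Nat.pow_le_pow_right (hAp q hq).pos
    have h1 : N.factorization q ≤ (a * N).factorization q := by
      rw [Nat.factorization_mul ha hN.ne']
      simp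
    rw [← h, Nat.factorization_mul hb.ne' hS, Nat.factorization_prod
      (fun p _ => (sp_pos _ _).ne')] at h1
    simpa [Finset.sum_apply'] using h1
  calc MA N A ≤ ∏ q ∈ A, (q ^ b.factorization q *
      ∏ p ∈ N.primeFactors, q ^ (sp p (N.factorization p)).factorization q) :=
        Finset.prod_le_prod' hv
    _ = (∏ q ∈ A, q ^ b.factorization q) *
        ∏ p ∈ N.primeFactors, ∏ q ∈ A, q ^ (sp p (N.factorization p)).factorization q := by
        rw [Finset.prod_mul_distrib, Finset.prod_comm]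
    _ ≤ b * ∏ p ∈ N.primeFactors, (p ^ (∑ q ∈ A, q) * (N.factorization p + 1)) := by
        apply Nat.mul_le_mul (prod_part_le A hAp hb.ne')
        apply Finset.prod_le_prod'
        intro p hp
        exact part_prod_le A hAp (Nat.prime_of_mem_primeFactors hp)
    _ = b * (rd N ^ (∑ q ∈ A, q) * N.divisors.card) := by
        rw [Finset.prod_mul_distrib, Nat.card_divisors hN.ne', Finset.prod_pow]
        rfl

lemma one_sub_sum_le (T : Finset ℕ) (x : ℕ → ℝ) (h0 : ∀ p ∈ T, 0 ≤ x p) (h1 : ∀ p ∈ T, x p ≤ 1) :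
    1 - ∑ p ∈ T, x p ≤ ∏ p ∈ T, (1 - x p) ∧ ∏ p ∈ T, (1 - x p) ≤ 1 := by
  classical
  induction T using Finset.induction_on with
  | empty => simp
  | insert a s ha ih =>
    have h0' : ∀ p ∈ s, 0 ≤ x p := fun p hp => h0 p (Finset.mem_insert_of_mem hp)
    have h1' : ∀ p ∈ s, x p ≤ 1 := fun p hp => h1 p (Finset.mem_insert_of_mem hp)
    obtain ⟨i1, i2⟩ := ih h0' h1'
    have ha0 := h0 a (Finset.mem_insert_self a s)
    have ha1 := h1 a (Finset.mem_insert_self a s)
    have hP : 0 ≤ ∏ p ∈ s, (1 - x p) := Finset.prod_nonneg fun p hp => by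
      have := h1' p hp; linarith
    rw [Finset.sum_insert ha, Finset.prod_insert ha]
    constructor
    · nlinarith
    · nlinarith

/-- The descent step. -/
lemma step {a b N : ℕ} (hb : 0 < b) (hN : 0 < N) (h : b * ∑ d ∈ N.divisors, d = a * N)
    (A : Finset ℕ) (hA : A ⊆ N.primeFactors) (hT : (N.primeFactors \ A).Nonempty) :
    ∃ p ∈ N.primeFactors \ A, p ^ (N.factorization p + 1) ≤
      MA N A * (N.primeFactors.card * a * rd N) := by
  classical
  set T := N.primeFactors \ A with hTdef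
  have hpr : ∀ p ∈ T, p.Prime := fun p hp =>
    Nat.prime_of_mem_primeFactors (Finset.mem_sdiff.1 hp).1
  have hprA : ∀ p ∈ A, p.Prime := fun p hp => Nat.prime_of_mem_primeFactors (hA hp)
  set e : ℕ → ℕ := fun p => N.factorization p with he
  set SA : ℕ := ∏ p ∈ A, sp p (e p) with hSA
  set ST : ℕ := ∏ p ∈ T, sp p (e p) with hST
  have hsplit : ∀ f : ℕ → ℕ, ∏ p ∈ N.primeFactors, f p = (∏ p ∈ A, f p) * ∏ p ∈ T, f p := by
    intro f
    rw [mul_comm]
    exact (Finset.prod_sdiff hA).symm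
  have hNN : N = MA N A * ∏ p ∈ T, p ^ e p := by
    conv_lhs => rw [← Nat.prod_factorization_pow_eq_self hN.ne']
    rw [Finsupp.prod, Nat.support_factorization, hsplit]
    rfl
  have hmain : b * (SA * ST) = a * (MA N A * ∏ p ∈ T, p ^ e p) := by
    rw [← hNN, ← h, sum_div_eq hN.ne', hsplit]
  set F : ℕ := b * SA * ∏ p ∈ T, p with hF
  set G : ℕ := a * MA N A * ∏ p ∈ T, (p - 1) with hG
  set x : ℕ → ℝ := fun p => 1 / (p : ℝ) ^ (e p + 1) with hx
  have hxpos : ∀ p ∈ T, 0 < x p := fun p hp => by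
    have : (0 : ℝ) < p := by exact_mod_cast (hpr p hp).pos
    positivity
  have hxle : ∀ p ∈ T, x p ≤ 1 := fun p hp => by
    rw [hx]
    have : (1 : ℝ) ≤ (p : ℝ) ^ (e p + 1) := one_le_pow₀ (by exact_mod_cast (hpr p hp).one_lt.le)
    exact (div_le_one (by linarith)).2 this
  -- the identity `F * ∏ (1 - x) = G`
  have hid : (F : ℝ) * ∏ p ∈ T, (1 - x p) = G := by
    have h1 : ∀ p ∈ T, (1 - x p) = (sp p (e p) : ℝ) * ((p - 1 : ℕ) : ℝ) / (p : ℝ) ^ (e p + 1) := by
      intro p hp
      have hp0 : (0 : ℝ) < (p : ℝ) ^ (e p + 1) := by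
        have : (0 : ℝ) < p := by exact_mod_cast (hpr p hp).pos
        positivity
      have h2 := sp_mul p (e p) (hpr p hp).pos
      have h3 : (1 : ℕ) ≤ p ^ (e p + 1) := Nat.one_le_pow _ _ (hpr p hp).pos
      have h4 : (sp p (e p) : ℝ) * ((p - 1 : ℕ) : ℝ) = (p : ℝ) ^ (e p + 1) - 1 := by
        rw [← Nat.cast_mul, h2, Nat.cast_sub h3]
        push_cast
        ring
      rw [h4, hx]
      field_simp
    rw [Finset.prod_congr rfl h1, Finset.prod_div_distrib, Finset.prod_mul_distrib]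
    have h5 : ∏ p ∈ T, (p : ℝ) ^ (e p + 1) = (∏ p ∈ T, (p : ℝ) ^ e p) * ∏ p ∈ T, (p : ℝ) := by
      rw [← Finset.prod_mul_distrib]
      exact Finset.prod_congr rfl fun p _ => pow_succ _ _
    have hPT : (0 : ℝ) < ∏ p ∈ T, (p : ℝ) ^ e p := Finset.prod_pos fun p hp => by
      have : (0 : ℝ) < p := by exact_mod_cast (hpr p hp).pos
      positivity
    have hT1 : (0 : ℝ) < ∏ p ∈ T, (p : ℝ) := Finset.prod_pos fun p hp => by
      exact_mod_cast (hpr p hp).pos
    rw [h5]
    have h6 : (b : ℝ) * ((SA : ℝ) * ST) = a * ((MA N A : ℝ) * ∏ p ∈ T, (p : ℝ) ^ e p) := by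
      have := congrArg (Nat.cast (R := ℝ)) hmain
      push_cast at this
      exact this
    have h7 : (ST : ℝ) = ∏ p ∈ T, (sp p (e p) : ℝ) := by rw [hST]; push_cast; rfl
    have h8 : (F : ℝ) = b * SA * ∏ p ∈ T, (p : ℝ) := by rw [hF]; push_cast; ring
    have h9 : (G : ℝ) = a * MA N A * ∏ p ∈ T, ((p - 1 : ℕ) : ℝ) := by rw [hG]; push_cast; ring
    rw [h8, h9, ← h7]
    rw [mul_div_assoc', div_eq_iff (by positivity)]
    calc (b : ℝ) * SA * (∏ p ∈ T, (p : ℝ)) * (ST * ∏ p ∈ T, ((p - 1 : ℕ) : ℝ))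
        = ((b : ℝ) * ((SA : ℝ) * ST)) * (∏ p ∈ T, (p : ℝ)) * ∏ p ∈ T, ((p - 1 : ℕ) : ℝ) := by ring
      _ = _ := by rw [h6]; ring
  -- `G < F`
  have hFpos : 0 < F := by
    rw [hF]
    exact Nat.mul_pos (Nat.mul_pos hb (Finset.prod_pos fun p _ => sp_pos _ _))
      (Finset.prod_pos fun p hp => (hpr p hp).pos)
  obtain ⟨p₀, hp₀⟩ := hT
  have hprod_lt : ∏ p ∈ T, (1 - x p) < 1 := by
    rw [← Finset.mul_prod_erase T _ hp₀]
    have h1 := (one_sub_sum_le (T.erase p₀) x (fun p hp => (hxpos p (Finset.mem_of_mem_erase hp)).le)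
      (fun p hp => hxle p (Finset.mem_of_mem_erase hp))).2
    have h2 : 0 ≤ ∏ p ∈ T.erase p₀, (1 - x p) := Finset.prod_nonneg fun p hp => by
      have := hxle p (Finset.mem_of_mem_erase hp); linarith
    have h3 := hxpos p₀ hp₀
    have h4 := hxle p₀ hp₀
    nlinarith
  have hFR : (0 : ℝ) < F := by exact_mod_cast hFpos
  have hGF : G < F := by
    have : (G : ℝ) < F := by rw [← hid]; nlinarith
    exact_mod_cast this
  have hGF1 : (G : ℝ) + 1 ≤ F := by exact_mod_cast hGF
  have hsum := (one_sub_sum_le T x (fun p hp => (hxpos p hp).le) hxle).1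
  have hone : 1 ≤ (F : ℝ) * ∑ p ∈ T, x p := by
    have : (F : ℝ) * (1 - ∑ p ∈ T, x p) ≤ G := by
      rw [← hid]; exact mul_le_mul_of_nonneg_left hsum hFR.le
    nlinarith
  -- there is a large term
  have hex : ∃ p ∈ T, 1 ≤ (F : ℝ) * T.card * x p := by
    by_contra hcon
    push Not at hcon
    have hTc : (0 : ℝ) < T.card := by
      exact_mod_cast Finset.card_pos.2 ⟨p₀, hp₀⟩
    have : (F : ℝ) * T.card * ∑ p ∈ T, x p < ∑ p ∈ T, (1 : ℝ) := by
      rw [Finset.mul_sum]
      exact Finset.sum_lt_sum_of_nonempty ⟨p₀, hp₀⟩ hcon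
    rw [Finset.sum_const, nsmul_eq_mul, mul_one] at this
    nlinarith
  obtain ⟨p, hpT, hp⟩ := hex
  refine ⟨p, hpT, ?_⟩
  have hp0 : (0 : ℝ) < (p : ℝ) ^ (e p + 1) := by
    have : (0 : ℝ) < p := by exact_mod_cast (hpr p hpT).pos
    positivity
  have h1 : (p : ℝ) ^ (e p + 1) ≤ (F : ℝ) * T.card := by
    rw [hx] at hp
    simp only at hp
    rw [mul_one_div, le_div_iff₀ hp0, one_mul] at hp
    exact hp
  have h2 : p ^ (e p + 1) ≤ F * T.card := by exact_mod_cast h1
  have hTk : T.card ≤ N.primeFactors.card := Finset.card_le_card Finset.sdiff_subset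
  have hTr : ∏ p ∈ T, p ≤ rd N := by
    apply Finset.prod_le_prod_of_subset_of_one_le' Finset.sdiff_subset
    intro q hq _
    exact (Nat.prime_of_mem_primeFactors hq).pos
  have hSA2 : b * SA ≤ a * MA N A := by
    have hPT : 0 < ∏ p ∈ T, p ^ e p := Finset.prod_pos fun p hp => pow_pos (hpr p hp).pos _
    have h3 : ∏ p ∈ T, p ^ e p ≤ ST := Finset.prod_le_prod' fun p _ => pow_le_sp _ _
    have h4 : b * SA * ∏ p ∈ T, p ^ e p ≤ a * MA N A * ∏ p ∈ T, p ^ e p := by
      calc b * SA * ∏ p ∈ T, p ^ e p ≤ b * SA * ST := Nat.mul_le_mul_left _ h3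
        _ = _ := by rw [mul_assoc, hmain, mul_assoc]
    exact Nat.le_of_mul_le_mul_right h4 hPT
  calc p ^ (e p + 1) ≤ F * T.card := h2
    _ = b * SA * (∏ p ∈ T, p) * T.card := by rw [hF]
    _ ≤ a * MA N A * rd N * N.primeFactors.card :=
        Nat.mul_le_mul (Nat.mul_le_mul hSA2 hTr) hTk
    _ = _ := by ring

/-- The descent. -/
lemma descent {a b N : ℕ} (hb : 0 < b) (hN : 0 < N) (h : b * ∑ d ∈ N.divisors, d = a * N) :
    ∀ m : ℕ, ∀ A : Finset ℕ, A ⊆ N.primeFactors → (N.primeFactors \ A).card = m →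
    N * (N.primeFactors.card * a * rd N) ≤
      (MA N A * (N.primeFactors.card * a * rd N)) ^ 2 ^ m := by
  classical
  intro m
  induction m with
  | zero =>
    intro A hA hc
    have h1 : N.primeFactors \ A = ∅ := Finset.card_eq_zero.1 hc
    have h2 : A = N.primeFactors := Finset.Subset.antisymm hA (Finset.sdiff_eq_empty_iff_subset.1 h1)
    rw [h2, pow_zero, pow_one]
    have h3 : MA N N.primeFactors = N := by
      conv_rhs => rw [← Nat.prod_factorization_pow_eq_self hN.ne']
      rfl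
    rw [h3]
  | succ m ih =>
    intro A hA hc
    have hne : (N.primeFactors \ A).Nonempty := by
      rw [← Finset.card_pos, hc]; omega
    obtain ⟨p, hpT, hp⟩ := step hb hN h A hA hne
    have hpN := (Finset.mem_sdiff.1 hpT).1
    have hpA := (Finset.mem_sdiff.1 hpT).2
    have hA' : insert p A ⊆ N.primeFactors := Finset.insert_subset hpN hA
    have hc' : (N.primeFactors \ insert p A).card = m := by
      have : N.primeFactors \ insert p A = (N.primeFactors \ A).erase p := by
        ext x; simp only [Finset.mem_sdiff, Finset.mem_insert, Finset.mem_erase]; tauto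
      rw [this, Finset.card_erase_of_mem hpT, hc]; rfl
    have hi := ih (insert p A) hA' hc'
    refine hi.trans ?_
    rw [pow_succ' 2 m, pow_mul]
    apply Nat.pow_le_pow_left
    have hM : MA N (insert p A) = p ^ N.factorization p * MA N A := by
      unfold MA
      rw [Finset.prod_insert hpA]
    have hpp : p ^ N.factorization p ≤ MA N A * (N.primeFactors.card * a * rd N) :=
      (Nat.pow_le_pow_right (Nat.prime_of_mem_primeFactors hpN).pos (Nat.le_succ _)).trans hp
    rw [hM, sq]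
    calc p ^ N.factorization p * MA N A * (N.primeFactors.card * a * rd N)
        ≤ (MA N A * (N.primeFactors.card * a * rd N)) * MA N A *
          (N.primeFactors.card * a * rd N) := by gcongr
      _ = _ := by ring

/-- The main inequality. -/
theorem main_nat {a b N : ℕ} (hb : 0 < b) (hN : 0 < N) (h : b * ∑ d ∈ N.divisors, d = a * N)
    (A : Finset ℕ) (hA : A ⊆ N.primeFactors) :
    N * (N.primeFactors.card * a * rd N) ≤
      (a * b * N.primeFactors.card * N.divisors.card * rd N ^ (1 + ∑ q ∈ A, q)) ^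
        2 ^ (N.primeFactors \ A).card := by
  refine (descent hb hN h _ A hA rfl).trans ?_
  apply Nat.pow_le_pow_left
  calc MA N A * (N.primeFactors.card * a * rd N)
      ≤ b * (rd N ^ (∑ q ∈ A, q) * N.divisors.card) * (N.primeFactors.card * a * rd N) :=
        Nat.mul_le_mul_right _ (MA_le hb hN h A hA)
    _ = _ := by ring

end Pool.Agent.H24.Opn
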